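import Pool.Agent.PDB.St2

/-!
[ASC] Ascending unions.
-/

set_option autoImplicit false

namespace Pool.Agent.PDB

open Pool.Agent.PDA Subgroup

theorem thm_ASC : St_ASC := by
  intro H _ π s B hs hB hsB hcl g hg
  have hpow : ∀ (n : ℕ), ∀ u ∈ B, s ^ n * u * (s ^ n)⁻¹ ∈ B := by
    intro n
    induction n with
    | zero =>
      intro u hu
      rw [pow_zero, one_mul, inv_one, mul_one]
      exact hu
    | succ n ih =>
      intro u hu
      have e1 : s ^ (n + 1) * u * (s ^ (n + 1))⁻¹ = s * (s ^ n * u * (s ^ n)⁻¹) * s⁻¹ := by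
        rw [pow_succ', mul_inv_rev]
        group
      rw [e1]
      exact hsB _ (ih u hu)
  have hT : ∀ g : H, ∃ n m : ℕ, ∃ u ∈ B, g = (s ^ n)⁻¹ * u * s ^ m := by
    intro g
    have hg : g ∈ closure (insert s (B : Set H)) := by rw [hcl]; exact mem_top g
    have hb : ∀ b ∈ B, ∀ y : H, (∃ n m : ℕ, ∃ u ∈ B, y = (s ^ n)⁻¹ * u * s ^ m) →
        ∃ n m : ℕ, ∃ u ∈ B, b * y = (s ^ n)⁻¹ * u * s ^ m := by
      rintro b hb y ⟨n, m, u, hu, rfl⟩
      refine ⟨n, m, (s ^ n * b * (s ^ n)⁻¹) * u, mul_mem (hpow n b hb) hu, ?_⟩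
      group
    refine closure_induction_left (p := fun g _ => ∃ n m : ℕ, ∃ u ∈ B, g = (s ^ n)⁻¹ * u * s ^ m)
      ?_ ?_ ?_ hg
    · exact ⟨0, 0, 1, one_mem _, by simp⟩
    · intro x hx y _ hy
      rcases hx with rfl | hx
      · obtain ⟨n, m, u, hu, rfl⟩ := hy
        cases n with
        | zero =>
          refine ⟨0, m + 1, x * u * x⁻¹, hsB u hu, ?_⟩
          rw [pow_zero, pow_succ']
          group
        | succ n =>
          refine ⟨n, m, u, hu, ?_⟩
          rw [pow_succ, mul_inv_rev]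
          group
      · exact hb x hx y hy
    · intro x hx y _ hy
      rcases hx with rfl | hx
      · obtain ⟨n, m, u, hu, rfl⟩ := hy
        refine ⟨n + 1, m, u, hu, ?_⟩
        rw [pow_succ, mul_inv_rev]
        group
      · exact hb x⁻¹ (inv_mem hx) y hy
  obtain ⟨n, m, u, hu, rfl⟩ := hT g
  have h1 : π ((s ^ n)⁻¹ * u * s ^ m) = 1 := hg
  have h2 : π u = 1 := hB hu
  rw [map_mul, map_mul, h2, mul_one, map_inv, map_pow, map_pow, inv_mul_eq_one, hs,
    ← ofAdd_nsmul, ← ofAdd_nsmul] at h1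
  have h3 : n • (1 : ℤ) = m • (1 : ℤ) := Multiplicative.ofAdd.injective h1
  have h4 : n = m := by simpa using h3
  refine ⟨n, ?_⟩
  have e1 : s ^ n * ((s ^ n)⁻¹ * u * s ^ m) * (s ^ n)⁻¹ = u := by
    rw [← h4]
    group
  rw [e1]
  exact hu

end Pool.Agent.PDB
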