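import Pool.Agent.PDB.St2

/-!
PDB BRI: no free subgroup (statement and proof: helper58, helper49; Lean: helper15).
-/

set_option autoImplicit false
set_option linter.unusedVariables false

namespace Pool.Agent.PDB

open Pool.Agent.PDA Subgroup

/-- the combinatorial part -/
private theorem BRI_count {H V : Type} [Group H] [DecidableEq H] (hFLX : St_FLX)
    (hF : Folner H) (y : Fin 4 → H) (hy : ∀ i, y (i + 2) = (y i)⁻¹) (m : H → V) (δ : V → ℕ)
    (h1 : ∀ g i, δ (m g) ≠ δ (m (g * y i)))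
    (h2 : ∀ g i i', δ (m (g * y i)) < δ (m g) → δ (m (g * y i')) < δ (m g) → i = i') : False := by
  classical
  obtain ⟨F, hFn, hFc⟩ := hFLX H hF y
  have hcard : F.card ≠ 0 := Finset.card_ne_zero.2 hFn
  -- the bad pairs
  have hbad : ((F ×ˢ (Finset.univ : Finset (Fin 4))).filter
      (fun q => δ (m (q.1 * y q.2)) < δ (m q.1))).card ≤ F.card := by
    refine Finset.card_le_card_of_injOn Prod.fst ?_ ?_
    · intro q hq
      exact (Finset.mem_product.1 (Finset.mem_filter.1 hq).1).1
    · rintro ⟨g, i⟩ hq ⟨g', i'⟩ hq' heq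
      have e1 : g = g' := heq
      subst e1
      have e2 := h2 g i i' (Finset.mem_filter.1 hq).2 (Finset.mem_filter.1 hq').2
      rw [e2]
  have hgood : ((F ×ˢ (Finset.univ : Finset (Fin 4))).filter
      (fun q => ¬ δ (m (q.1 * y q.2)) < δ (m q.1))).card ≤
      (Finset.image (fun q : H × Fin 4 => q.1 * y q.2) (F ×ˢ Finset.univ)).card := by
    refine Finset.card_le_card_of_injOn (fun q : H × Fin 4 => q.1 * y q.2) ?_ ?_
    · intro q hq
      exact Finset.mem_coe.2 (Finset.mem_image_of_mem _ (Finset.mem_filter.1 hq).1)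
    · rintro ⟨g, i⟩ hq ⟨g', i'⟩ hq' heq
      have e1 : g * y i = g' * y i' := heq
      have e2 : δ (m g) < δ (m (g * y i)) :=
        lt_of_le_of_ne (not_lt.1 (Finset.mem_filter.1 hq).2) (h1 g i)
      have e3 : δ (m g') < δ (m (g' * y i')) :=
        lt_of_le_of_ne (not_lt.1 (Finset.mem_filter.1 hq').2) (h1 g' i')
      have e4 : g * y i * y (i + 2) = g := by rw [hy, mul_inv_cancel_right]
      have e5 : g * y i * y (i' + 2) = g' := by rw [e1, hy, mul_inv_cancel_right]
      have e6 : i + 2 = i' + 2 := by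
        refine h2 (g * y i) (i + 2) (i' + 2) ?_ ?_
        · rw [e4]
          exact e2
        · rw [e5, e1]
          exact e3
      have e7 : i = i' := add_right_cancel e6
      rw [e7] at e1
      rw [e7, mul_right_cancel e1]
  have hsum := Finset.card_filter_add_card_filter_not
    (s := F ×ˢ (Finset.univ : Finset (Fin 4))) (fun q => δ (m (q.1 * y q.2)) < δ (m q.1))
  rw [Finset.card_product, Finset.card_univ, Fintype.card_fin] at hsum
  omega

theorem thm_BRI (hLIQ : St_LIQ) (hTRE : St_TRE) (hFLX : St_FLX) : St_BRI := by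
  classical
  intro k _ H _ π t A B hF hπt hBπ hAB hAt hcl hl
  by_contra hcon
  push Not at hcon
  obtain ⟨hBA, c, hc, hcA⟩ := hcon
  obtain ⟨x, hx, hxA⟩ := SetLike.not_le_iff_exists.1 hBA
  obtain ⟨o, ho0⟩ : ∃ o : H ⧸ A → H ⧸ B, ∀ e, o e = QuotientGroup.mk e.out :=
    ⟨fun e => QuotientGroup.mk e.out, fun e => rfl⟩
  obtain ⟨τ, hτ0⟩ : ∃ τ : H ⧸ A → H ⧸ B, ∀ e, τ e = QuotientGroup.mk (e.out * t) :=
    ⟨fun e => QuotientGroup.mk (e.out * t), fun e => rfl⟩
  have hmk : ∀ g g' : H, g⁻¹ * g' ∈ B → (QuotientGroup.mk g : H ⧸ B) = QuotientGroup.mk g' :=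
    fun g g' h => QuotientGroup.eq.2 h
  have ho : ∀ g : H, o (QuotientGroup.mk g) = QuotientGroup.mk g := by
    intro g
    obtain ⟨a, ha⟩ := QuotientGroup.mk_out_eq_mul A g
    rw [ho0, ha]
    refine hmk _ _ ?_
    have e : (g * (a : H))⁻¹ * g = (a : H)⁻¹ := by group
    rw [e]
    exact inv_mem (hAB a.2)
  have hτ : ∀ g : H, τ (QuotientGroup.mk g) = QuotientGroup.mk (g * t) := by
    intro g
    obtain ⟨a, ha⟩ := QuotientGroup.mk_out_eq_mul A g
    rw [hτ0, ha]
    refine hmk _ _ ?_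
    have e : (g * (a : H) * t)⁻¹ * (g * t) = (t⁻¹ * (a : H) * t)⁻¹ := by group
    rw [e]
    exact inv_mem (hAt a a.2)
  -- no cycles
  have hinj : ∀ z : (H ⧸ A) →₀ k, z.mapDomain τ = z.mapDomain o → z = 0 := by
    intro z hz
    have key : ∀ z : (H ⧸ A) →₀ k, Finsupp.mapDomain (fun g : H => (QuotientGroup.mk g : H ⧸ B))
        (MonoidAlgebra.ofCoeff (z.mapDomain (fun e : H ⧸ A => (e.out : H))) *
          (el k t - 1) : MonoidAlgebra k H).coeff = z.mapDomain τ - z.mapDomain o := by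
      intro z
      induction z using Finsupp.induction_linear with
      | zero => simp
      | add z w hz hw =>
        rw [Finsupp.mapDomain_add, MonoidAlgebra.ofCoeff_add, add_mul, MonoidAlgebra.coeff_add,
          Finsupp.mapDomain_add, hz, hw, Finsupp.mapDomain_add, Finsupp.mapDomain_add]
        abel
      | single e a =>
        rw [Finsupp.mapDomain_single, Finsupp.mapDomain_single, Finsupp.mapDomain_single]
        have e1 : (MonoidAlgebra.ofCoeff (Finsupp.single (e.out : H) a) * (el k t - 1) :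
            MonoidAlgebra k H) = MonoidAlgebra.single (e.out * t) a -
              MonoidAlgebra.single (e.out : H) a := by
          rw [mul_sub, mul_one]
          congr 1
          show MonoidAlgebra.single (e.out : H) a * MonoidAlgebra.single t 1 = _
          rw [MonoidAlgebra.single_mul_single, mul_one]
        rw [e1, MonoidAlgebra.coeff_sub, Finsupp.mapDomain_sub, MonoidAlgebra.coeff_single,
          MonoidAlgebra.coeff_single, Finsupp.mapDomain_single, Finsupp.mapDomain_single,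
          hτ0, ho0]
    have h1 := (hLIQ k H A _).1 (hl _ ((hLIQ k H B _).2 (by rw [key z, hz, sub_self])))
    have e2 : (MonoidAlgebra.ofCoeff (z.mapDomain (fun e : H ⧸ A => (e.out : H))) :
        MonoidAlgebra k H).coeff = z.mapDomain (fun e : H ⧸ A => (e.out : H)) := rfl
    rw [e2, ← Finsupp.mapDomain_comp] at h1
    have e3 : ((fun g : H => (QuotientGroup.mk g : H ⧸ A)) ∘ fun e : H ⧸ A => (e.out : H)) =
        id := by
      funext e
      exact QuotientGroup.out_eq' e
    rw [e3, Finsupp.mapDomain_id] at h1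
    exact h1
  -- connectedness
  have hconn : ∀ v : H ⧸ B, Relation.ReflTransGen
      (fun a b => ∃ e, (o e = a ∧ τ e = b) ∨ (o e = b ∧ τ e = a)) (QuotientGroup.mk 1) v := by
    have key : ∀ g : H, Relation.ReflTransGen
        (fun a b => ∃ e, (o e = a ∧ τ e = b) ∨ (o e = b ∧ τ e = a)) (QuotientGroup.mk 1)
        (QuotientGroup.mk g) := by
      intro g
      have hg : g ∈ closure (insert t (B : Set H)) := by rw [hcl]; exact mem_top g
      induction hg using closure_induction_right with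
      | one => exact Relation.ReflTransGen.refl
      | mul_right g hg s hs ih =>
        rcases hs with rfl | hs
        · exact ih.tail ⟨QuotientGroup.mk g, Or.inl ⟨ho g, hτ g⟩⟩
        · rw [← hmk g (g * s) (by rw [inv_mul_cancel_left]; exact hs)]
          exact ih
      | mul_inv_cancel g hg s hs ih =>
        rcases hs with rfl | hs
        · refine ih.tail ⟨QuotientGroup.mk (g * s⁻¹), Or.inr ⟨ho _, ?_⟩⟩
          rw [hτ, inv_mul_cancel_right]
        · rw [← hmk g (g * s⁻¹) (by rw [inv_mul_cancel_left]; exact inv_mem hs)]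
          exact ih
    intro v
    obtain ⟨g, rfl⟩ := QuotientGroup.mk_surjective v
    exact key g
  obtain ⟨δ, d1, d2⟩ := hTRE k (H ⧸ A) (H ⧸ B) o τ (QuotientGroup.mk 1) hinj hconn
  -- the four edges
  have hneA : ∀ g g' : H, (QuotientGroup.mk g : H ⧸ A) = QuotientGroup.mk g' → g⁻¹ * g' ∈ A :=
    fun g g' h => QuotientGroup.eq.1 h
  have hπA : ∀ g : H, g ∈ A → π g = 1 := fun g hg => hBπ (hAB hg)
  have hπx : π x = 1 := hBπ hx
  have hπc : π c = 1 := hBπ hc
  have hone : (Multiplicative.ofAdd 1 : Multiplicative ℤ) ≠ 1 := by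
    intro h
    have : (1 : ℤ) = 0 := congrArg Multiplicative.toAdd h
    exact one_ne_zero this
  obtain ⟨ed, hed⟩ : ∃ ed : H → Fin 4 → H ⧸ A, ∀ g, ed g 0 = QuotientGroup.mk g ∧
      ed g 1 = QuotientGroup.mk (g * x) ∧ ed g 2 = QuotientGroup.mk (g * t⁻¹) ∧
      ed g 3 = QuotientGroup.mk (g * c⁻¹ * t⁻¹) :=
    ⟨fun g => ![QuotientGroup.mk g, QuotientGroup.mk (g * x), QuotientGroup.mk (g * t⁻¹),
      QuotientGroup.mk (g * c⁻¹ * t⁻¹)], fun g => ⟨rfl, rfl, rfl, rfl⟩⟩
  obtain ⟨y, hy0, hy1, hy2, hy3⟩ : ∃ y : Fin 4 → H, y 0 = t ∧ y 1 = x * t * c ∧ y 2 = t⁻¹ ∧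
      y 3 = (x * t * c)⁻¹ := ⟨![t, x * t * c, t⁻¹, (x * t * c)⁻¹], rfl, rfl, rfl, rfl⟩
  have hends : ∀ g i, (o (ed g i) = QuotientGroup.mk g ∧ τ (ed g i) = QuotientGroup.mk (g * y i)) ∨
      (τ (ed g i) = QuotientGroup.mk g ∧ o (ed g i) = QuotientGroup.mk (g * y i)) := by
    intro g i
    obtain ⟨e0, e1, e2, e3⟩ := hed g
    fin_cases i
    · left
      show o (ed g 0) = _ ∧ τ (ed g 0) = QuotientGroup.mk (g * y 0)
      rw [e0, hy0]
      exact ⟨ho g, hτ g⟩
    · left
      show o (ed g 1) = _ ∧ τ (ed g 1) = QuotientGroup.mk (g * y 1)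
      rw [e1, hy1, ho, hτ]
      constructor
      · refine hmk _ _ ?_
        have e : (g * x)⁻¹ * g = x⁻¹ := by group
        rw [e]
        exact inv_mem hx
      · refine hmk _ _ ?_
        have e : (g * x * t)⁻¹ * (g * (x * t * c)) = c := by group
        rw [e]
        exact hc
    · right
      show τ (ed g 2) = _ ∧ o (ed g 2) = QuotientGroup.mk (g * y 2)
      rw [e2, hy2, ho, hτ, inv_mul_cancel_right]
      exact ⟨rfl, rfl⟩
    · right
      show τ (ed g 3) = _ ∧ o (ed g 3) = QuotientGroup.mk (g * y 3)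
      rw [e3, hy3, ho, hτ, inv_mul_cancel_right]
      constructor
      · refine hmk _ _ ?_
        have e : (g * c⁻¹)⁻¹ * g = c := by group
        rw [e]
        exact hc
      · refine hmk _ _ ?_
        have e : (g * c⁻¹ * t⁻¹)⁻¹ * (g * (x * t * c)⁻¹) = x⁻¹ := by group
        rw [e]
        exact inv_mem hx
  have hπt2 : ∀ g : H, ∀ u v : H, π u = 1 → π v = π t → ¬ u⁻¹ * v ∈ A := by
    intro g u v hu hv h
    have h1 := hπA _ h
    rw [map_mul, map_inv, hu, hv, hπt, inv_one, one_mul] at h1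
    exact hone h1
  have hdist : ∀ g i i', ed g i = ed g i' → i = i' := by
    intro g i i' h
    obtain ⟨e0, e1, e2, e3⟩ := hed g
    have n01 : ed g 0 ≠ ed g 1 := by
      rw [e0, e1]
      intro h
      have h1 := hneA _ _ h
      rw [inv_mul_cancel_left] at h1
      exact hxA h1
    have pi2 : ∀ u v : H, π (u⁻¹ * v) ≠ 1 →
        (QuotientGroup.mk u : H ⧸ A) ≠ QuotientGroup.mk v := fun u v h1 h2 =>
      h1 (hπA _ (hneA _ _ h2))
    have hinvne : (Multiplicative.ofAdd 1 : Multiplicative ℤ)⁻¹ ≠ 1 := by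
      intro h
      exact hone (inv_eq_one.1 h)
    have n02 : ed g 0 ≠ ed g 2 := by
      rw [e0, e2]
      refine pi2 _ _ ?_
      rw [inv_mul_cancel_left, map_inv, hπt]
      exact hinvne
    have n03 : ed g 0 ≠ ed g 3 := by
      rw [e0, e3]
      refine pi2 _ _ ?_
      have e : g⁻¹ * (g * c⁻¹ * t⁻¹) = c⁻¹ * t⁻¹ := by group
      rw [e, map_mul, map_inv, map_inv, hπt, hπc, inv_one, one_mul]
      exact hinvne
    have n12 : ed g 1 ≠ ed g 2 := by
      rw [e1, e2]
      refine pi2 _ _ ?_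
      have e : (g * x)⁻¹ * (g * t⁻¹) = x⁻¹ * t⁻¹ := by group
      rw [e, map_mul, map_inv, map_inv, hπt, hπx, inv_one, one_mul]
      exact hinvne
    have n13 : ed g 1 ≠ ed g 3 := by
      rw [e1, e3]
      refine pi2 _ _ ?_
      have e : (g * x)⁻¹ * (g * c⁻¹ * t⁻¹) = x⁻¹ * c⁻¹ * t⁻¹ := by group
      rw [e, map_mul, map_mul, map_inv, map_inv, map_inv, hπt, hπx, hπc, inv_one, one_mul,
        one_mul]
      exact hinvne
    have n23 : ed g 2 ≠ ed g 3 := by
      rw [e2, e3]
      intro h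
      have h1 := hneA _ _ h
      have e : (g * t⁻¹)⁻¹ * (g * c⁻¹ * t⁻¹) = (t * c * t⁻¹)⁻¹ := by group
      rw [e] at h1
      exact hcA (inv_mem_iff.1 h1)
    fin_cases i <;> fin_cases i'
    · rfl
    · exact absurd h n01
    · exact absurd h n02
    · exact absurd h n03
    · exact absurd h.symm n01
    · rfl
    · exact absurd h n12
    · exact absurd h n13
    · exact absurd h.symm n02
    · exact absurd h.symm n12
    · rfl
    · exact absurd h n23
    · exact absurd h.symm n03
    · exact absurd h.symm n13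
    · exact absurd h.symm n23
    · rfl
  refine BRI_count hFLX hF y ?_ (fun g => (QuotientGroup.mk g : H ⧸ B)) δ ?_ ?_
  · intro i
    fin_cases i
    · show y 2 = (y 0)⁻¹
      rw [hy2, hy0]
    · show y 3 = (y 1)⁻¹
      rw [hy3, hy1]
    · show y 0 = (y 2)⁻¹
      rw [hy2, hy0, inv_inv]
    · show y 1 = (y 3)⁻¹
      rw [hy3, hy1, inv_inv]
  · intro g i
    rcases hends g i with ⟨h1, h2⟩ | ⟨h1, h2⟩
    · have h := d1 (ed g i)
      rw [h1, h2] at h
      exact h
    · have h := d1 (ed g i)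
      rw [h1, h2] at h
      exact h.symm
  · intro g i i' hi hi'
    refine hdist g i i' (d2 (QuotientGroup.mk g) _ _ ?_ ?_)
    · rcases hends g i with ⟨h1, h2⟩ | ⟨h1, h2⟩
      · left
        rw [h1, h2]
        exact ⟨rfl, hi⟩
      · right
        rw [h1, h2]
        exact ⟨rfl, hi⟩
    · rcases hends g i' with ⟨h1, h2⟩ | ⟨h1, h2⟩
      · left
        rw [h1, h2]
        exact ⟨rfl, hi'⟩
      · right
        rw [h1, h2]
        exact ⟨rfl, hi'⟩

end Pool.Agent.PDB
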