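import Pool.Agent.PDB.St2

/-!
# PDB, [COB]: leading forms
-/

set_option autoImplicit false

namespace Pool.Agent.PDB

open Pool.Agent.PDA

section

variable {k : Type} [Field k] {Λ : Type} [Ring Λ] [Algebra k Λ] (ε : Λ →ₐ[k] k) {F : Type}
  [AddCommGroup F] [Module Λ F]

/-- Elements of `PA ε n N` as finite sums. -/
theorem COB_sum (n : ℕ) (N : Submodule Λ F) (z : F) (hz : z ∈ PA ε n N) :
    ∃ (m : ℕ) (a : Fin m → Λ) (y : Fin m → F), (∀ j, a j ∈ Pw ε n) ∧ (∀ j, y j ∈ N) ∧
      z = ∑ j, a j • y j := by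
  unfold PA at hz
  induction hz using AddSubgroup.closure_induction with
  | mem z hz =>
      obtain ⟨a, ha, y, hy, rfl⟩ := hz
      exact ⟨1, fun _ => a, fun _ => y, fun _ => ha, fun _ => hy, by simp⟩
  | zero => exact ⟨0, Fin.elim0, Fin.elim0, fun j => j.elim0, fun j => j.elim0, by simp⟩
  | add z w _ _ h1 h2 =>
      obtain ⟨m, a, y, ha, hy, rfl⟩ := h1
      obtain ⟨m', a', y', ha', hy', rfl⟩ := h2
      refine ⟨m + m', Fin.append a a', Fin.append y y', ?_, ?_, ?_⟩
      · intro j
        refine Fin.addCases (fun i => ?_) (fun i => ?_) j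
        · rw [Fin.append_left]; exact ha i
        · rw [Fin.append_right]; exact ha' i
      · intro j
        refine Fin.addCases (fun i => ?_) (fun i => ?_) j
        · rw [Fin.append_left]; exact hy i
        · rw [Fin.append_right]; exact hy' i
      · rw [Fin.sum_univ_add]
        simp only [Fin.append_left, Fin.append_right]
  | neg z _ h =>
      obtain ⟨m, a, y, ha, hy, rfl⟩ := h
      refine ⟨m, fun j => - a j, y, fun j => neg_mem (ha j), hy, ?_⟩
      simp

theorem COB_smul_mem {n : ℕ} {N : Submodule Λ F} {a : Λ} {y : F} (ha : a ∈ Pw ε n) (hy : y ∈ N) :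
    a • y ∈ PA ε n N := AddSubgroup.subset_closure ⟨a, ha, y, hy, rfl⟩

theorem COB_mono {n : ℕ} (N N' : Submodule Λ F) (h : N ≤ N') : PA ε n N ≤ PA ε n N' := by
  unfold PA
  refine AddSubgroup.closure_mono ?_
  rintro z ⟨a, ha, y, hy, rfl⟩
  exact ⟨a, ha, y, h hy, rfl⟩

/-- A functional vanishing on the next power is multiplicative in the second factor. -/
theorem COB_theta (hPWM : St_PWM) (n : ℕ) (θ : Λ →ₗ[k] k) (hθ : Pw ε (n + 1) ≤ LinearMap.ker θ)
    (a z : Λ) (ha : a ∈ Pw ε n) : θ (a * z) = θ a * ε z := by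
  obtain ⟨_, _, p3, p4⟩ := hPWM k Λ ε
  have h1 : z - algebraMap k Λ (ε z) ∈ Pw ε 1 := by
    rw [p3, map_sub, AlgHom.commutes]
    simp
  have h2 := hθ (p4 n 1 a _ ha h1)
  rw [LinearMap.mem_ker, mul_sub, map_sub, sub_eq_zero] at h2
  rw [h2, ← Algebra.commutes, ← Algebra.smul_def, map_smul, smul_eq_mul, mul_comm]

/-- Coordinates of `PA ε n ⊤` are in `Pw ε n`. -/
theorem COB_coord (hPWM : St_PWM) (n : ℕ) (x : F →ₗ[Λ] Λ) (N : Submodule Λ F) (z : F)
    (hz : z ∈ PA ε n N) : x z ∈ Pw ε n := by
  obtain ⟨_, p2, _, _⟩ := hPWM k Λ ε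
  unfold PA at hz
  induction hz using AddSubgroup.closure_induction with
  | mem z hz =>
      obtain ⟨a, ha, y, _, rfl⟩ := hz
      rw [map_smul, smul_eq_mul]
      exact (p2 n a _ ha).1
  | zero => rw [map_zero]; exact zero_mem _
  | add z w _ _ h1 h2 => rw [map_add]; exact add_mem h1 h2
  | neg z _ h => rw [map_neg]; exact neg_mem h

theorem COB_IA (hPWM : St_PWM) (n : ℕ) (N : Submodule Λ F) (a : Λ) (ha : a ∈ Pw ε n) (y : F)
    (hy : y ∈ IA ε N) : a • y ∈ PA ε (n + 1) N := by
  obtain ⟨_, _, p3, p4⟩ := hPWM k Λ ε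
  unfold IA at hy
  induction hy using AddSubgroup.closure_induction with
  | mem z hz =>
      obtain ⟨b, hb, y, hy, rfl⟩ := hz
      rw [← mul_smul]
      exact COB_smul_mem ε (p4 n 1 a b ha ((p3 b).2 hb)) hy
  | zero => rw [smul_zero]; exact zero_mem _
  | add z w _ _ h1 h2 => rw [smul_add]; exact add_mem h1 h2
  | neg z _ h => rw [smul_neg]; exact neg_mem h

theorem COB_one (hPWM : St_PWM) (N : Submodule Λ F) : PA ε 1 N = IA ε N := by
  obtain ⟨_, _, p3, _⟩ := hPWM k Λ ε
  unfold PA IA
  simp only [p3]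

end

theorem thm_COB (hPWM : St_PWM) : St_COB := by
  intro k _ Λ _ _ ε F _ _ ι x P h1 h2
  obtain ⟨p1, p2, p3, p4⟩ := hPWM k Λ ε
  have claim : ∀ n m : ℕ, ∀ (a : Fin m → Λ) (y : Fin m → F), (∀ j, a j ∈ Pw ε n) →
      (∀ j, y j ∈ P) → ∑ j, a j • y j ∈ PA ε (n + 1) (⊤ : Submodule Λ F) →
      ∑ j, a j • y j ∈ PA ε (n + 1) P := by
    intro n m
    induction m with
    | zero =>
        intro a y _ _ _
        simp
    | succ m ih =>
        intro a y ha hy hs
        by_cases h0 : a 0 ∈ Pw ε (n + 1)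
        · rw [Fin.sum_univ_succ] at hs ⊢
          have h3 : a 0 • y 0 ∈ PA ε (n + 1) P := COB_smul_mem ε h0 (hy 0)
          refine add_mem h3 (ih (fun j => a j.succ) (fun j => y j.succ) (fun j => ha _)
            (fun j => hy _) ?_)
          have h4 := sub_mem hs (COB_mono ε P ⊤ le_top h3)
          rwa [add_sub_cancel_left] at h4
        · obtain ⟨θ, hθ0, hθ⟩ := Submodule.exists_le_ker_of_notMem h0
          have hY : ∀ i, ε (x i (∑ j, algebraMap k Λ (θ (a j)) • y j)) = 0 := by
            intro i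
            have h5 : θ (x i (∑ j, a j • y j)) = 0 := by
              have := hθ (COB_coord ε hPWM (n + 1) (x i) ⊤ _ hs)
              rwa [LinearMap.mem_ker] at this
            rw [map_sum, map_sum] at h5
            rw [map_sum, map_sum]
            rw [← h5]
            refine Finset.sum_congr rfl fun j _ => ?_
            rw [(x i).map_smul, (x i).map_smul, smul_eq_mul, smul_eq_mul, map_mul,
              AlgHom.commutes, COB_theta ε hPWM n θ hθ _ _ (ha j)]
            rfl
          have hYP : (∑ j, algebraMap k Λ (θ (a j)) • y j) ∈ P :=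
            sum_mem fun j _ => P.smul_mem _ (hy j)
          have hYI := h2 _ hYP (h1 _ hY)
          have hYa := COB_IA ε hPWM n P (algebraMap k Λ (θ (a 0))⁻¹ * a 0)
            (p2 n _ _ (ha 0)).2 _ hYI
          have hid : ∑ j, a j • y j = (algebraMap k Λ (θ (a 0))⁻¹ * a 0) •
              (∑ j, algebraMap k Λ (θ (a j)) • y j) +
              ∑ j : Fin m, (a j.succ - algebraMap k Λ ((θ (a 0))⁻¹ * θ (a j.succ)) * a 0) •
                y j.succ := by
            rw [Fin.sum_univ_succ, Fin.sum_univ_succ, smul_add, Finset.smul_sum, add_assoc,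
              ← Finset.sum_add_distrib]
            congr 1
            · rw [← mul_smul, mul_assoc, ← Algebra.commutes (θ (a 0)) (a 0), ← mul_assoc,
                ← map_mul, inv_mul_cancel₀ hθ0, map_one, one_mul]
            · refine Finset.sum_congr rfl fun j _ => ?_
              rw [← mul_smul, ← add_smul]
              congr 1
              rw [mul_assoc, ← Algebra.commutes (θ (a j.succ)) (a 0), ← mul_assoc, ← map_mul]
              abel
          rw [hid]
          refine add_mem hYa (ih _ _ ?_ (fun j => hy _) ?_)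
          · intro j
            exact sub_mem (ha _) (p2 n _ _ (ha 0)).2
          · have h6 := sub_mem hs (COB_mono ε P ⊤ le_top hYa)
            rw [hid, add_sub_cancel_left] at h6
            exact h6
  intro n hn
  induction n, hn using Nat.le_induction with
  | base =>
      intro y hy hy'
      rw [COB_one ε hPWM] at hy' ⊢
      exact h2 y hy hy'
  | succ n hn ih =>
      intro y hy hy'
      have hle : PA ε (n + 1) (⊤ : Submodule Λ F) ≤ PA ε n ⊤ := by
        unfold PA
        refine AddSubgroup.closure_mono ?_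
        rintro z ⟨a, ha, y, hy, rfl⟩
        exact ⟨a, p1 n ha, y, hy, rfl⟩
      obtain ⟨m, a, w, ha, hw, rfl⟩ := COB_sum ε n P y (ih y hy (hle hy'))
      exact claim n m a w ha hw hy'

end Pool.Agent.PDB
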