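import Pool.Agent.PDB.St2

/-!
PDB: algebras whose augmentation ideal is generated by one element up to its square are commutative.
-/

set_option autoImplicit false
set_option linter.unusedVariables false

namespace Pool.Agent.PDB

open Pool.Agent.PDA

section

variable {k : Type} [Field k] {Λ : Type} [Ring Λ] [Algebra k Λ] {ε : Λ →ₐ[k] k}

private theorem COM_gen
    (h : ∀ u₁ u₂ : Λ, ε u₁ = 0 → ε u₂ = 0 →
      ∃ c₁ c₂ : k, ¬ (c₁ = 0 ∧ c₂ = 0) ∧ c₁ • u₁ + c₂ • u₂ ∈ Pw ε 2) :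
    ∃ u : Λ, ε u = 0 ∧ ∀ v : Λ, ε v = 0 → ∃ c : k, v - c • u ∈ Pw ε 2 := by
  by_cases hall : ∀ v : Λ, ε v = 0 → v ∈ Pw ε 2
  · exact ⟨0, map_zero ε, fun v hv => ⟨0, by simpa using hall v hv⟩⟩
  · push Not at hall
    obtain ⟨u, hu, hu2⟩ := hall
    refine ⟨u, hu, fun v hv => ?_⟩
    obtain ⟨c₁, c₂, hc, hm⟩ := h v u hv hu
    have hc1 : c₁ ≠ 0 := by
      intro h0
      have hc2 : c₂ ≠ 0 := fun h2 => hc ⟨h0, h2⟩
      rw [h0, zero_smul, zero_add] at hm
      have h3 := Submodule.smul_mem _ c₂⁻¹ hm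
      rw [smul_smul, inv_mul_cancel₀ hc2, one_smul] at h3
      exact hu2 h3
    refine ⟨-(c₁⁻¹ * c₂), ?_⟩
    have h3 := Submodule.smul_mem _ c₁⁻¹ hm
    rw [smul_add, smul_smul, smul_smul, inv_mul_cancel₀ hc1, one_smul] at h3
    rw [neg_smul, sub_neg_eq_add]
    exact h3

private theorem COM_step (hPWM : St_PWM) {u : Λ} (hu : ε u = 0)
    (hgen : ∀ v : Λ, ε v = 0 → ∃ c : k, v - c • u ∈ Pw ε 2) (n : ℕ) :
    ∀ a ∈ Pw ε n, ∃ c : k, a - c • u ^ n ∈ Pw ε (n + 1) := by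
  obtain ⟨hmono, hid, hone, hmul⟩ := hPWM k Λ ε
  have hu1 : u ∈ Pw ε 1 := (hone u).2 hu
  induction n with
  | zero =>
    intro a _
    refine ⟨ε a, (hone _).2 ?_⟩
    rw [pow_zero, map_sub, map_smul, map_one, smul_eq_mul, mul_one, sub_self]
  | succ n ih =>
    intro a ha
    have ha' : a ∈ J ε * Pw ε n := ha
    induction ha' using Submodule.mul_induction_on' with
    | mem_mul_mem x hx y hy =>
      have hx0 : ε x = 0 := hx
      obtain ⟨c, hc⟩ := hgen x hx0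
      obtain ⟨d, hd⟩ := ih y hy
      refine ⟨c * d, ?_⟩
      have e : x * y - (c * d) • u ^ (n + 1) =
          c • (u * (y - d • u ^ n)) + (x - c • u) * y := by
        rw [pow_succ', mul_sub, sub_mul, smul_sub, mul_smul_comm, smul_mul_assoc, smul_smul]
        abel
      rw [e]
      refine Submodule.add_mem _ (Submodule.smul_mem _ _ ?_) ?_
      · have h1 := hmul 1 (n + 1) _ _ hu1 hd
        have e1 : 1 + (n + 1) = n + 1 + 1 := by omega
        rwa [e1] at h1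
      · have h1 := hmul 2 n _ _ hc hy
        have e1 : 2 + n = n + 1 + 1 := by omega
        rwa [e1] at h1
    | add x hx y hy ihx ihy =>
      obtain ⟨c, hc⟩ := ihx hx
      obtain ⟨d, hd⟩ := ihy hy
      refine ⟨c + d, ?_⟩
      have e : x + y - (c + d) • u ^ (n + 1) =
          (x - c • u ^ (n + 1)) + (y - d • u ^ (n + 1)) := by
        rw [add_smul]; abel
      rw [e]
      exact Submodule.add_mem _ hc hd

private theorem COM_approx (hPWM : St_PWM) {u : Λ} (hu : ε u = 0)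
    (hgen : ∀ v : Λ, ε v = 0 → ∃ c : k, v - c • u ∈ Pw ε 2) (a : Λ) (n : ℕ) :
    ∃ p : Polynomial k, a - Polynomial.aeval u p ∈ Pw ε n := by
  induction n with
  | zero => exact ⟨0, trivial⟩
  | succ n ih =>
    obtain ⟨p, hp⟩ := ih
    obtain ⟨c, hc⟩ := COM_step hPWM hu hgen n _ hp
    refine ⟨p + c • Polynomial.X ^ n, ?_⟩
    have e : a - Polynomial.aeval u (p + c • Polynomial.X ^ n) =
        a - Polynomial.aeval u p - c • u ^ n := by
      rw [map_add, map_smul, map_pow, Polynomial.aeval_X, sub_add_eq_sub_sub]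
    rw [e]
    exact hc

end

theorem thm_COM (hPWM : St_PWM) : St_COM := by
  intro k _ Λ _ _ ε hsep h a b
  obtain ⟨u, hu, hgen⟩ := COM_gen h
  obtain ⟨-, hid, -, -⟩ := hPWM k Λ ε
  rw [← sub_eq_zero]
  refine hsep _ fun n => ?_
  obtain ⟨p, hp⟩ := COM_approx hPWM hu hgen a n
  obtain ⟨q, hq⟩ := COM_approx hPWM hu hgen b n
  obtain ⟨P, hP⟩ : ∃ P, P = Polynomial.aeval u p := ⟨_, rfl⟩
  obtain ⟨R, hR⟩ : ∃ R, R = Polynomial.aeval u q := ⟨_, rfl⟩
  rw [← hP] at hp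
  rw [← hR] at hq
  have hPR : P * R = R * P := by rw [hP, hR, ← map_mul, ← map_mul, mul_comm]
  have e : a * b - b * a = ((a - P) * b + P * (b - R)) - ((b - R) * a + R * (a - P)) := by
    rw [sub_mul, sub_mul, mul_sub, mul_sub, hPR]
    abel
  rw [e]
  exact Submodule.sub_mem _ (Submodule.add_mem _ (hid n _ _ hp).1 (hid n _ _ hq).2)
    (Submodule.add_mem _ (hid n _ _ hq).1 (hid n _ _ hp).2)

end Pool.Agent.PDB
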