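import Pool.Agent.PDB.St2

/-! PDB: module CST, the argument of Bieri and Strebel (helper7). -/

set_option autoImplicit false
set_option linter.unusedVariables false

namespace Pool.Agent.PDB

open Pool.Agent.PDA Subgroup

section CST

variable {k : Type} [Field k] {H : Type} [Group H]

/-- the conjugates of the generators -/
private def CST_c (t : H) {n : ℕ} (b : Fin n → H) (i : ℤ) (j : Fin n) : H := t ^ i * b j * t ^ (-i)

private def CST_XB (t : H) {n : ℕ} (b : Fin n → H) (m : ℕ) : Set H :=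
  {y | ∃ i : ℤ, -(m : ℤ) ≤ i ∧ i ≤ m ∧ ∃ j, y = CST_c t b i j}

private def CST_XA (t : H) {n : ℕ} (b : Fin n → H) (m : ℕ) : Set H :=
  {y | ∃ i : ℤ, -(m : ℤ) < i ∧ i ≤ m ∧ ∃ j, y = CST_c t b i j}

private theorem CST_mono {A A' : Subgroup H} (h : A ≤ A') : LI k A ≤ LI k A' := by
  apply Ideal.span_mono
  rintro z ⟨a, ha, rfl⟩
  exact ⟨a, h ha, rfl⟩

private theorem CST_mem {A : Subgroup H} {a : H} (h : a ∈ A) : el k a - 1 ∈ LI k A :=
  Ideal.subset_span ⟨a, h, rfl⟩

private theorem CST_elm (a b : H) : el k (a * b) = el k a * el k b :=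
  map_mul (MonoidAlgebra.of k H) a b

private theorem CST_el1 : el k (1 : H) = 1 := map_one (MonoidAlgebra.of k H)

private theorem CST_up (t : H) {n : ℕ} (b : Fin n → H) (i : ℤ) (j : Fin n) :
    CST_c t b (i + 1) j = t * CST_c t b i j * t⁻¹ := by
  unfold CST_c
  have h1 : t ^ (i + 1) = t * t ^ i := by rw [add_comm, zpow_one_add]
  have h2 : t ^ (-(i + 1)) = t ^ (-i) * t⁻¹ := by
    rw [show -(i + 1) = -i - 1 by ring, zpow_sub_one]
  rw [h1, h2]
  simp only [mul_assoc]

private theorem CST_down (t : H) {n : ℕ} (b : Fin n → H) (i : ℤ) (j : Fin n) :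
    CST_c t b (i - 1) j = t⁻¹ * CST_c t b i j * t := by
  have h := CST_up t b (i - 1) j
  rw [sub_add_cancel] at h
  rw [h]
  group

private theorem CST_id1 (t b u : H) (hu : u = t * b * t⁻¹) :
    el k u - 1 = (1 - el k u) * (el k t - 1) + el k t * (el k b - 1) := by
  have h : el k u * el k t = el k t * el k b := by
    have h1 : u * t = t * b := by
      rw [hu]
      group
    rw [← CST_elm, ← CST_elm, h1]
  have h2 : (1 - el k u) * (el k t - 1) + el k t * (el k b - 1) =
      el k u - 1 + (el k t * el k b - el k u * el k t) := by noncomm_ring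
  rw [h2, h, sub_self, add_zero]

private theorem CST_id2 (t b u : H) (hu : u = t⁻¹ * b * t) :
    el k u - 1 = (el k t⁻¹ * (el k b - 1)) * (el k t - 1) + el k t⁻¹ * (el k b - 1) := by
  have h : el k t⁻¹ * el k b * el k t = el k u := by
    rw [hu, ← CST_elm, ← CST_elm]
  have h1 : el k t⁻¹ * el k t = 1 := by
    rw [← CST_elm, inv_mul_cancel, CST_el1]
  have h2 : (el k t⁻¹ * (el k b - 1)) * (el k t - 1) + el k t⁻¹ * (el k b - 1) =
      el k t⁻¹ * el k b * el k t - el k t⁻¹ * el k t := by noncomm_ring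
  rw [h2, h, h1]

private theorem CST_cA {t : H} {n : ℕ} {b : Fin n → H} {m : ℕ} {i : ℤ} (h1 : -(m : ℤ) < i)
    (h2 : i ≤ m) (j : Fin n) : CST_c t b i j ∈ closure (CST_XA t b m) :=
  subset_closure ⟨i, h1, h2, j, rfl⟩

private theorem CST_cB {t : H} {n : ℕ} {b : Fin n → H} {m : ℕ} {i : ℤ} (h1 : -(m : ℤ) ≤ i)
    (h2 : i ≤ m) (j : Fin n) : CST_c t b i j ∈ closure (CST_XB t b m) :=
  subset_closure ⟨i, h1, h2, j, rfl⟩

private theorem CST_Am (t : H) {n : ℕ} (b : Fin n → H) {m m' : ℕ} (h : m ≤ m') :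
    closure (CST_XA t b m) ≤ closure (CST_XA t b m') := by
  apply Subgroup.closure_mono
  rintro y ⟨i, h1, h2, j, rfl⟩
  exact ⟨i, by omega, by omega, j, rfl⟩

/-- the step -/
private theorem CST_step (hLIS : St_LIS) (t : H) {n : ℕ} (b : Fin n → H) (m : ℕ)
    {y : MonoidAlgebra k H} (hy : y ∈ LI k (closure (CST_XB t b (m + 1)))) :
    ∃ y' ∈ LI k (closure (CST_XB t b m)), ∃ a ∈ LI k (closure (CST_XA t b (m + 1))),
      y = y' + a * (el k t - 1) := by
  rw [(hLIS k H).1] at hy
  induction hy using Submodule.span_induction with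
  | mem x hx =>
    obtain ⟨u, ⟨i, h1, h2, j, rfl⟩, rfl⟩ := hx
    have hc : (-(m : ℤ) ≤ i ∧ i ≤ m) ∨ i = (m : ℤ) + 1 ∨ i = -(m : ℤ) - 1 := by omega
    rcases hc with ⟨h3, h4⟩ | rfl | rfl
    · exact ⟨_, CST_mem (CST_cB h3 h4 j), 0, Submodule.zero_mem _, by rw [zero_mul, add_zero]⟩
    · have hu := CST_up t b (m : ℤ) j
      refine ⟨el k t * (el k (CST_c t b m j) - 1), Ideal.mul_mem_left _ _
        (CST_mem (CST_cB (i := (m : ℤ)) (by omega) le_rfl j)),
        1 - el k (CST_c t b ((m : ℤ) + 1) j), ?_, ?_⟩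
      · have h5 : el k (CST_c t b ((m : ℤ) + 1) j) - 1 ∈ LI k (closure (CST_XA t b (m + 1))) :=
          CST_mem (CST_cA (i := (m : ℤ) + 1) (by omega) (by omega) j)
        have h6 := Submodule.neg_mem _ h5
        rw [neg_sub] at h6
        exact h6
      · exact (CST_id1 t _ _ hu).trans (add_comm _ _)
    · have hu := CST_down t b (-(m : ℤ)) j
      refine ⟨el k t⁻¹ * (el k (CST_c t b (-(m : ℤ)) j) - 1), Ideal.mul_mem_left _ _
        (CST_mem (CST_cB (i := -(m : ℤ)) le_rfl (by omega) j)),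
        el k t⁻¹ * (el k (CST_c t b (-(m : ℤ)) j) - 1), ?_, ?_⟩
      · exact Ideal.mul_mem_left _ _ (CST_mem (CST_cA (i := -(m : ℤ)) (by omega) (by omega) j))
      · exact (CST_id2 t _ _ hu).trans (add_comm _ _)
  | zero => exact ⟨0, Submodule.zero_mem _, 0, Submodule.zero_mem _, by rw [zero_mul, add_zero]⟩
  | add x z _ _ hx hz =>
    obtain ⟨x', hx', a, ha, rfl⟩ := hx
    obtain ⟨z', hz', c, hc, rfl⟩ := hz
    refine ⟨x' + z', Submodule.add_mem _ hx' hz', a + c, Submodule.add_mem _ ha hc, ?_⟩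
    rw [add_mul]
    abel
  | smul r x _ hx =>
    obtain ⟨x', hx', a, ha, rfl⟩ := hx
    refine ⟨r * x', Ideal.mul_mem_left _ _ hx', r * a, Ideal.mul_mem_left _ _ ha, ?_⟩
    rw [smul_eq_mul, mul_add, mul_assoc]

end CST

theorem thm_CST (hLIS : St_LIS) (hLIK : St_LIK) (hKGN : St_KGN) : St_CST := by
  classical
  intro k _ H _ π t n b ht hb hgen hfg
  obtain ⟨k1, k2, k3⟩ := hLIK k H π
  obtain ⟨l1, l2⟩ := hLIS k H
  have hπc : ∀ i j, π (CST_c t b i j) = 1 := by
    intro i j
    unfold CST_c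
    rw [map_mul, map_mul, hb, mul_one, map_zpow, map_zpow, ← zpow_add, add_neg_cancel, zpow_zero]
  have hrange : Set.range (Fin.cons t b : Fin (n + 1) → H) = insert t (Set.range b) :=
    Fin.range_cons t b
  have hker := hKGN H π t (Set.range b) ht (by
    rintro _ ⟨j, rfl⟩
    exact hb j) (by rw [← hrange]; exact hgen)
  -- every element of `LI π.ker` is in some `LI (A m)`
  have hdir : ∀ l ∈ LI k π.ker, ∃ m, l ∈ LI k (closure (CST_XA t b m)) := by
    intro l hl
    rw [hker, l1] at hl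
    induction hl using Submodule.span_induction with
    | mem x hx =>
      obtain ⟨u, ⟨i, y, ⟨j, rfl⟩, rfl⟩, rfl⟩ := hx
      refine ⟨i.natAbs + 1, ?_⟩
      exact CST_mem (CST_cA (t := t) (b := b) (i := i) (by omega) (by omega) j)
    | zero => exact ⟨0, Submodule.zero_mem _⟩
    | add x z _ _ hx hz =>
      obtain ⟨m, hm⟩ := hx
      obtain ⟨m', hm'⟩ := hz
      exact ⟨max m m', Submodule.add_mem _ (CST_mono (CST_Am t b (le_max_left _ _)) hm)
        (CST_mono (CST_Am t b (le_max_right _ _)) hm')⟩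
    | smul r x _ hx =>
      obtain ⟨m, hm⟩ := hx
      exact ⟨m, Ideal.mul_mem_left _ _ hm⟩
  have hBker : ∀ m, closure (CST_XB t b m) ≤ π.ker := by
    intro m
    rw [closure_le]
    rintro y ⟨i, h1, h2, j, rfl⟩
    exact hπc i j
  have htn : el k t - 1 ∉ LI k π.ker := by
    rw [k1, map_sub, map_one]
    intro h
    have h2 : MonoidAlgebra.mapDomainRingHom k π (el k t) =
        MonoidAlgebra.of k (Multiplicative ℤ) (Multiplicative.ofAdd 1) := by
      rw [← ht]
      unfold el
      rw [MonoidAlgebra.of_apply, MonoidAlgebra.of_apply]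
      simp
    rw [h2, sub_eq_zero, ← map_one (MonoidAlgebra.of k (Multiplicative ℤ))] at h
    have h3 := MonoidAlgebra.of_injective h
    exact absurd h3 (by decide)
  have hC : ∀ l : MonoidAlgebra k H, l * (el k t - 1) ∈ LI k π.ker → l ∈ LI k π.ker := fun l hl =>
    (k3 l _ hl).resolve_right htn
  -- `C 0` is finitely generated
  let C0 : Submodule (MonoidAlgebra k H) (MonoidAlgebra k H) :=
    (Rel k (Fin.cons t b : Fin (n + 1) → H)).map (LinearMap.proj 0)
  have hC0fg : C0.FG := by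
    have h1 : (Rel k (Fin.cons t b : Fin (n + 1) → H)).FG := by
      rw [← Submodule.fg_top]
      exact hfg
    exact h1.map _
  have hbdc : ∀ z : Fin (n + 1) → MonoidAlgebra k H,
      bd k (Fin.cons t b : Fin (n + 1) → H) z =
        z 0 * (el k t - 1) + bd k b (fun i => z i.succ) := by
    intro z
    show ∑ i, z i * (el k ((Fin.cons t b : Fin (n + 1) → H) i) - 1) = _
    rw [Fin.sum_univ_succ]
    rfl
  have hB0 : closure (CST_XB t b 0) = closure (Set.range b) := by
    congr 1
    ext y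
    constructor
    · rintro ⟨i, h1, h2, j, rfl⟩
      have h3 : i = 0 := by
        push_cast at h1 h2
        omega
      subst h3
      refine ⟨j, ?_⟩
      unfold CST_c
      simp
    · rintro ⟨j, rfl⟩
      refine ⟨0, by simp, by simp, j, ?_⟩
      unfold CST_c
      simp
  have hC0 : ∀ l : MonoidAlgebra k H, l ∈ C0 ↔ l * (el k t - 1) ∈ LI k (closure (CST_XB t b 0)) := by
    intro l
    rw [hB0, l2]
    constructor
    · rintro ⟨z, hz, rfl⟩
      refine ⟨-(fun i => z i.succ), ?_⟩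
      have h1 : bd k (Fin.cons t b : Fin (n + 1) → H) z = 0 := hz
      rw [hbdc] at h1
      rw [map_neg, LinearMap.proj_apply]
      exact (eq_neg_of_add_eq_zero_left h1).symm
    · rintro ⟨w, hw⟩
      refine ⟨Fin.cons l (-w), ?_, rfl⟩
      show bd k (Fin.cons t b : Fin (n + 1) → H) (Fin.cons l (-w)) = 0
      rw [hbdc]
      show l * (el k t - 1) + bd k b (-w) = 0
      rw [map_neg, hw, add_neg_cancel]
  obtain ⟨M, hM⟩ : ∃ M, ∀ l ∈ C0, l ∈ LI k (closure (CST_XA t b M)) := by
    obtain ⟨S, hS⟩ := hC0fg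
    have h1 : ∀ s ∈ S, ∃ m, s ∈ LI k (closure (CST_XA t b m)) := by
      intro s hs
      apply hdir
      apply hC
      apply CST_mono (hBker 0)
      rw [← hC0, ← hS]
      exact Submodule.subset_span hs
    choose! f hf using h1
    refine ⟨S.sup f, ?_⟩
    intro l hl
    rw [← hS] at hl
    have h2 : Submodule.span (MonoidAlgebra k H) (S : Set (MonoidAlgebra k H)) ≤
        LI k (closure (CST_XA t b (S.sup f))) := by
      rw [Submodule.span_le]
      intro s hs
      exact CST_mono (CST_Am t b (Finset.le_sup hs)) (hf s hs)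
    exact h2 hl
  have key : ∀ m ≤ M, ∀ l : MonoidAlgebra k H, l * (el k t - 1) ∈ LI k (closure (CST_XB t b m)) →
      l ∈ LI k (closure (CST_XA t b M)) := by
    intro m
    induction m with
    | zero =>
      intro _ l hl
      exact hM l ((hC0 l).2 hl)
    | succ m ih =>
      intro hm l hl
      obtain ⟨y', hy', a, ha, h1⟩ := CST_step hLIS t b m hl
      have h2 : (l - a) * (el k t - 1) = y' := by
        rw [sub_mul, h1]
        abel
      have h3 := ih (by omega) (l - a) (by rw [h2]; exact hy')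
      have h4 := Submodule.add_mem _ h3 (CST_mono (CST_Am t b hm) ha)
      rw [sub_add_cancel] at h4
      exact h4
  refine ⟨closure (CST_XA t b M), closure (CST_XB t b M), ?_, ?_, ?_, ?_, hBker M, key M le_rfl⟩
  · apply Subgroup.closure_mono
    rintro y ⟨i, h1, h2, j, rfl⟩
    exact ⟨i, h1.le, h2, j, rfl⟩
  · have h1 : closure (CST_XA t b M) ≤
        (closure (CST_XB t b M)).comap (MulAut.conj t⁻¹).toMonoidHom := by
      rw [closure_le]
      rintro y ⟨i, h1, h2, j, rfl⟩
      show (MulAut.conj t⁻¹) (CST_c t b i j) ∈ closure (CST_XB t b M)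
      rw [MulAut.conj_apply, inv_inv, ← CST_down]
      exact CST_cB (by omega) (by omega) j
    intro a ha
    have h2 := h1 ha
    have h3 : (MulAut.conj t⁻¹) a ∈ closure (CST_XB t b M) := h2
    rw [MulAut.conj_apply, inv_inv] at h3
    exact h3
  · rw [Subgroup.fg_iff]
    refine ⟨CST_XB t b M, rfl, ?_⟩
    have h1 : CST_XB t b M ⊆ (fun q : ℤ × Fin n => CST_c t b q.1 q.2) ''
        (Set.Icc (-(M : ℤ)) M ×ˢ Set.univ) := by
      rintro y ⟨i, h1, h2, j, rfl⟩
      exact ⟨(i, j), ⟨⟨h1, h2⟩, Set.mem_univ _⟩, rfl⟩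
    exact (((Set.finite_Icc _ _).prod Set.finite_univ).image _).subset h1
  · intro i
    have h1 : b i = CST_c t b 0 i := by
      unfold CST_c
      simp
    rw [h1]
    exact CST_cB (by omega) (by omega) i

end Pool.Agent.PDB
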