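import Pool.Agent.PDB.St2

/-!
# [CYC] Commutative groups of rank one are cyclic
-/

set_option autoImplicit false

namespace Pool.Agent.PDB

open Pool.Agent.PDA Subgroup

private theorem CYC_add (A : Type) [AddCommGroup A] (hfg : AddGroup.FG A)
    (htf : ∀ (c : A) (n : ℕ), 0 < n → n • c = 0 → c = 0)
    (hdep : ∀ x y : A, ∃ c₁ c₂ : ℤ, ¬ (c₁ = 0 ∧ c₂ = 0) ∧ c₁ • x + c₂ • y = 0) :
    ∃ x : A, ∀ y : A, ∃ n : ℤ, n • x = y := by
  have htf' : IsAddTorsionFree A := by
    refine ⟨fun n hn a b h => ?_⟩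
    have h1 : n • (a - b) = 0 := by
      rw [smul_sub]
      exact sub_eq_zero.2 h
    exact sub_eq_zero.1 (htf _ n (Nat.pos_of_ne_zero hn) h1)
  have hfin : Module.Finite ℤ A := Module.Finite.iff_addGroup_fg.2 hfg
  obtain ⟨n, b⟩ := Module.basisOfFiniteTypeTorsionFree' (R := ℤ) (M := A)
  rcases n with _ | _ | n
  · refine ⟨0, fun y => ⟨0, ?_⟩⟩
    have h := b.sum_repr y
    rw [Finset.univ_eq_empty, Finset.sum_empty] at h
    rw [← h, smul_zero]
  · refine ⟨b 0, fun y => ⟨b.repr y 0, ?_⟩⟩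
    have h := b.sum_repr y
    rw [Fin.sum_univ_one] at h
    exact h
  · exfalso
    obtain ⟨c₁, c₂, hne, h⟩ := hdep (b 0) (b 1)
    apply hne
    have h0 := congrArg (fun z => b.repr z 0) h
    have h1 := congrArg (fun z => b.repr z 1) h
    simp only [map_add, map_smul, Finsupp.add_apply, Finsupp.smul_apply,
      Module.Basis.repr_self, map_zero, Finsupp.zero_apply] at h0 h1
    have e01 : (0 : Fin (n + 2)) ≠ 1 := by simp
    rw [Finsupp.single_eq_same, Finsupp.single_eq_of_ne e01] at h0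
    rw [Finsupp.single_eq_same, Finsupp.single_eq_of_ne (Ne.symm e01)] at h1
    constructor
    · simpa using h0
    · simpa using h1

theorem thm_CYC : St_CYC := by
  intro B _ hfg hcomm htf hdep
  letI : CommGroup B := { (inferInstance : Group B) with mul_comm := hcomm }
  have hfg' : AddGroup.FG (Additive B) := by
    rw [← GroupFG.iff_add_fg]
    exact hfg
  obtain ⟨x, hx⟩ := CYC_add (Additive B) hfg'
    (fun c n hn h => htf (Additive.toMul c) n hn (by
      have h2 := congrArg Additive.toMul h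
      simpa using h2))
    (fun x y => by
      obtain ⟨c₁, c₂, hne, h⟩ := hdep (Additive.toMul x) (Additive.toMul y)
      refine ⟨c₁, c₂, hne, ?_⟩
      have h2 := congrArg Additive.ofMul h
      simpa using h2)
  refine ⟨Additive.toMul x, fun y => ?_⟩
  obtain ⟨n, hn⟩ := hx (Additive.ofMul y)
  rw [mem_zpowers_iff]
  refine ⟨n, ?_⟩
  have h2 := congrArg Additive.toMul hn
  simpa using h2

end Pool.Agent.PDB
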