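import Pool.Agent.PDB.St2

/-!
PDB, DEP: two elements of a commutative group are dependent.
-/

set_option autoImplicit false
set_option linter.unusedVariables false

namespace Pool.Agent.PDB

open Pool.Agent.PDA Subgroup TensorProduct

/-- the map to the rationalisation -/
private noncomputable def DEP_D (K : Type) [CommGroup K] :
    MonoidAlgebra ℚ K →ₗ[ℚ] (ℚ ⊗[ℤ] Additive K) :=
  (MonoidAlgebra.basis K ℚ).constr ℚ (fun g => (1 : ℚ) ⊗ₜ[ℤ] (Additive.ofMul g))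

private lemma DEP_single (K : Type) [CommGroup K] (g : K) (r : ℚ) :
    DEP_D K (MonoidAlgebra.single g r) = r • ((1 : ℚ) ⊗ₜ[ℤ] (Additive.ofMul g)) := by
  have h : (MonoidAlgebra.single g r : MonoidAlgebra ℚ K) = r • MonoidAlgebra.basis K ℚ g := by
    rw [MonoidAlgebra.basis_apply]
    simp
  rw [h, map_smul]
  unfold DEP_D
  rw [Module.Basis.constr_basis]

private lemma DEP_aug (K : Type) [CommGroup K] (g : K) (r : ℚ) :
    aug ℚ K (MonoidAlgebra.single g r) = r := by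
  simp [aug]

private lemma DEP_mul (K : Type) [CommGroup K] (a b : MonoidAlgebra ℚ K) :
    DEP_D K (a * b) = aug ℚ K a • DEP_D K b + aug ℚ K b • DEP_D K a := by
  induction a using MonoidAlgebra.induction_linear with
  | zero => simp
  | add a a' ha ha' =>
    rw [add_mul, map_add, ha, ha', map_add, map_add, add_smul, smul_add]
    abel
  | single g r =>
    induction b using MonoidAlgebra.induction_linear with
    | zero => simp
    | add b b' hb hb' =>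
      rw [mul_add, map_add, hb, hb', map_add, map_add, add_smul, smul_add]
      abel
    | single h s =>
      rw [MonoidAlgebra.single_mul_single, DEP_single, DEP_single, DEP_single, DEP_aug, DEP_aug,
        ofMul_mul, tmul_add, smul_add, smul_smul, smul_smul, mul_comm s r]
      abel

private lemma DEP_zero (K : Type) [CommGroup K] (a : MonoidAlgebra ℚ K)
    (ha : a ∈ Pw (aug ℚ K) 2) : DEP_D K a = 0 := by
  have h1 : ∀ b ∈ Pw (aug ℚ K) 1, aug ℚ K b = 0 := by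
    intro b hb
    have hb' : b ∈ J (aug ℚ K) * Pw (aug ℚ K) 0 := hb
    induction hb' using Submodule.mul_induction_on' with
    | mem_mul_mem m hm n hn =>
      have hm' : aug ℚ K m = 0 := hm
      rw [map_mul, hm', zero_mul]
    | add x hx y hy hx' hy' => rw [map_add, hx' hx, hy' hy, add_zero]
  have ha' : a ∈ J (aug ℚ K) * Pw (aug ℚ K) 1 := ha
  induction ha' using Submodule.mul_induction_on' with
  | mem_mul_mem m hm n hn =>
    have hm' : aug ℚ K m = 0 := hm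
    rw [DEP_mul, hm', h1 n hn, zero_smul, zero_smul, add_zero]
  | add x hx y hy hx' hy' => rw [map_add, hx' hx, hy' hy, add_zero]

private lemma DEP_tors (A : Type) [AddCommGroup A] (a : A) (h : (1 : ℚ) ⊗ₜ[ℤ] a = 0) :
    ∃ m : ℕ, 0 < m ∧ m • a = 0 := by
  have h1 : IsLocalizedModule (nonZeroDivisors ℤ) (TensorProduct.mk ℤ ℚ A 1) :=
    (isLocalizedModule_iff_isBaseChange (nonZeroDivisors ℤ) ℚ (TensorProduct.mk ℤ ℚ A 1)).2
      (TensorProduct.isBaseChange ℤ A ℚ)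
  obtain ⟨c, hc⟩ := (IsLocalizedModule.eq_zero_iff (nonZeroDivisors ℤ)
    (TensorProduct.mk ℤ ℚ A 1)).1 (show TensorProduct.mk ℤ ℚ A 1 a = 0 from h)
  have hc0 : (c : ℤ) ≠ 0 := nonZeroDivisors.ne_zero c.2
  refine ⟨(c : ℤ).natAbs, Int.natAbs_pos.2 hc0, ?_⟩
  have hc' : (c : ℤ) • a = 0 := hc
  rcases Int.natAbs_eq (c : ℤ) with e | e
  · rw [e, natCast_zsmul] at hc'
    exact hc'
  · rw [e, neg_smul, natCast_zsmul, neg_eq_zero] at hc'
    exact hc'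

private lemma DEP_aux (K : Type) [CommGroup K]
    (H : ∀ u₁ u₂ l₁ l₂ : MonoidAlgebra ℚ K, aug ℚ K u₁ = 0 → aug ℚ K u₂ = 0 →
      (∀ c₁ c₂ : ℚ, c₁ • u₁ + c₂ • u₂ ∈ Pw (aug ℚ K) 2 → c₁ = 0 ∧ c₂ = 0) →
      l₁ * u₁ + l₂ * u₂ = 0 → ∀ n, l₁ ∈ Pw (aug ℚ K) n ∧ l₂ ∈ Pw (aug ℚ K) n) (x y : K) :
    ∃ c₁ c₂ : ℤ, ¬ (c₁ = 0 ∧ c₂ = 0) ∧ ∃ m : ℕ, 0 < m ∧ (x ^ c₁ * y ^ c₂) ^ m = 1 := by
  have hel : ∀ g : K, aug ℚ K (el ℚ g - 1) = 0 := by
    intro g
    rw [map_sub, map_one]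
    simp [aug]
  have hD : ∀ g : K, DEP_D K (el ℚ g - 1) = (1 : ℚ) ⊗ₜ[ℤ] (Additive.ofMul g) := by
    intro g
    have e1 : el ℚ g = MonoidAlgebra.single g (1 : ℚ) := by simp
    rw [map_sub, e1, MonoidAlgebra.one_def, DEP_single, DEP_single, one_smul, one_smul]
    simp
  have hrel : ∃ c₁ c₂ : ℚ, ¬ (c₁ = 0 ∧ c₂ = 0) ∧
      c₁ • (el ℚ x - 1) + c₂ • (el ℚ y - 1) ∈ Pw (aug ℚ K) 2 := by
    by_contra hcon
    have h1 : ∀ c₁ c₂ : ℚ, c₁ • (el ℚ x - 1) + c₂ • (el ℚ y - 1) ∈ Pw (aug ℚ K) 2 →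
        c₁ = 0 ∧ c₂ = 0 := by
      intro c₁ c₂ h
      by_contra h2
      exact hcon ⟨c₁, c₂, h2, h⟩
    have h2 := (H (el ℚ x - 1) (el ℚ y - 1) (el ℚ y - 1) (1 - el ℚ x) (hel x) (hel y) h1 (by
      ring) 2).1
    have h3 := h1 0 1 (by rwa [zero_smul, one_smul, zero_add])
    exact one_ne_zero h3.2
  obtain ⟨c₁, c₂, hc, hmem⟩ := hrel
  have h0 : c₁ • ((1 : ℚ) ⊗ₜ[ℤ] (Additive.ofMul x)) + c₂ • ((1 : ℚ) ⊗ₜ[ℤ] (Additive.ofMul y)) =
      (0 : ℚ ⊗[ℤ] Additive K) := by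
    have h1 := DEP_zero K _ hmem
    rw [map_add, map_smul, map_smul, hD, hD] at h1
    exact h1
  let a₁ : ℤ := c₁.num * c₂.den
  let a₂ : ℤ := c₂.num * c₁.den
  have e1 : (c₁.den * c₂.den : ℚ) * c₁ = (a₁ : ℚ) := by
    have h1 := Rat.mul_den_eq_num c₁
    show (c₁.den * c₂.den : ℚ) * c₁ = ((c₁.num * c₂.den : ℤ) : ℚ)
    push_cast
    linear_combination (c₂.den : ℚ) * h1
  have e2 : (c₁.den * c₂.den : ℚ) * c₂ = (a₂ : ℚ) := by
    have h1 := Rat.mul_den_eq_num c₂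
    show (c₁.den * c₂.den : ℚ) * c₂ = ((c₂.num * c₁.den : ℤ) : ℚ)
    push_cast
    linear_combination (c₁.den : ℚ) * h1
  have h1 : (1 : ℚ) ⊗ₜ[ℤ] (a₁ • Additive.ofMul x + a₂ • Additive.ofMul y) =
      (0 : ℚ ⊗[ℤ] Additive K) := by
    rw [tmul_add, tmul_smul, tmul_smul, ← Int.cast_smul_eq_zsmul ℚ a₁,
      ← Int.cast_smul_eq_zsmul ℚ a₂, ← e1, ← e2, mul_smul _ c₁, mul_smul _ c₂, ← smul_add, h0,
      smul_zero]
  obtain ⟨m, hm, hm'⟩ := DEP_tors (Additive K) _ h1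
  refine ⟨a₁, a₂, ?_, m, hm, ?_⟩
  · rintro ⟨h2, h3⟩
    apply hc
    have d1 : (c₁.den : ℤ) ≠ 0 := by exact_mod_cast c₁.den_ne_zero
    have d2 : (c₂.den : ℤ) ≠ 0 := by exact_mod_cast c₂.den_ne_zero
    have h2' : c₁.num * (c₂.den : ℤ) = 0 := h2
    have h3' : c₂.num * (c₁.den : ℤ) = 0 := h3
    exact ⟨Rat.num_eq_zero.1 ((mul_eq_zero.1 h2').resolve_right d2),
      Rat.num_eq_zero.1 ((mul_eq_zero.1 h3').resolve_right d1)⟩
  · exact hm'

theorem thm_DEP : St_DEP := by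
  intro K inst hcomm H
  let _ : CommGroup K := { inst with mul_comm := hcomm }
  exact DEP_aux K H

end Pool.Agent.PDB
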