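import Pool.Agent.PDB.St2

/-!
PDB stage 2, [FIN]: the assembly (helper74 for helper58).
-/

set_option autoImplicit false
set_option linter.unusedVariables false

namespace Pool.Agent.PDB

open Pool.Agent.PDA Subgroup

private theorem FIN_surj {H : Type} [Group H] (π : H →* Multiplicative ℤ) (s : H)
    (h : π s = Multiplicative.ofAdd 1) : Function.Surjective π := by
  intro q
  refine ⟨s ^ (Multiplicative.toAdd q), ?_⟩
  rw [map_zpow, h, ← ofAdd_zsmul, smul_eq_mul, mul_one]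
  rfl

private theorem FIN_norm {H : Type} [Group H] (s x : H) (m : ℤ) (hm : m = 1 ∨ m = -1)
    (hx : s * x * s⁻¹ = x ^ m) (g : H) (n : ℕ) (h : s ^ n * g * (s ^ n)⁻¹ ∈ zpowers x) :
    g ∈ zpowers x := by
  have h1 : s⁻¹ * x * s ∈ zpowers x := by
    rcases hm with rfl | rfl
    · rw [zpow_one] at hx
      have h2 : s⁻¹ * x * s = x := by
        conv_lhs => rw [← hx]
        group
      rw [h2]
      exact mem_zpowers x
    · have h2 : s⁻¹ * x * s = x⁻¹ := by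
        have h3 : x⁻¹ = s * x * s⁻¹ := by rw [hx, zpow_neg_one]
        have h4 : x = (s * x * s⁻¹)⁻¹ := by rw [← h3, inv_inv]
        conv_lhs => rw [h4]
        group
      rw [h2]
      exact inv_mem (mem_zpowers x)
  have h2 : ∀ h : H, s * h * s⁻¹ ∈ zpowers x → h ∈ zpowers x := by
    intro h hh
    obtain ⟨j, hj⟩ := mem_zpowers_iff.1 hh
    have h3 : h = (s⁻¹ * x * s) ^ j := by
      have h4 : s⁻¹ * x * s = s⁻¹ * x * (s⁻¹)⁻¹ := by rw [inv_inv]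
      rw [h4, conj_zpow, hj]
      group
    rw [h3]
    exact zpow_mem h1 j
  induction n with
  | zero => simpa using h
  | succ n ih =>
    refine ih (h2 _ ?_)
    have h3 : s * (s ^ n * g * (s ^ n)⁻¹) * s⁻¹ = s ^ (n + 1) * g * (s ^ (n + 1))⁻¹ := by
      rw [pow_succ']
      group
    rw [h3]
    exact h

theorem thm_FIN (hSCN : St_SCN) (hSCC : St_SCC) (hLFK : St_LFK) (hKCM : St_KCM) (hNOE : St_NOE)
    (hDEP : St_DEP) (hCYC : St_CYC) (hPZF : St_PZF) (hPZV : St_PZV) : St_FIN := by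
  intro p hp C hC S _ hCS hfg
  rcases subsingleton_or_nontrivial S with hs | hs
  · exact hPZV.2 S hs
  obtain ⟨π₀, hπ₀⟩ := hC.ont S hCS hfg hs
  obtain ⟨π, s, B, n, b, -, hs1, hBk, hb, hcz, hsB, hasc⟩ :=
    hSCN (ZMod p) S π₀ hπ₀ hfg (hC.fol S hCS) (hC.fin S hCS hfg hs)
  have hπ := FIN_surj π s hs1
  have htor := hC.tor S hCS
  rcases subsingleton_or_nontrivial B with hB | hB
  · refine hPZF S π 1 hπ htor ?_
    rw [zpowers_one_eq_bot, eq_bot_iff]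
    intro g hg
    obtain ⟨m, hm⟩ := hasc g hg
    have h1 : (⟨_, hm⟩ : B) = 1 := Subsingleton.elim _ _
    have h2 : s ^ m * g * (s ^ m)⁻¹ = 1 := congrArg Subtype.val h1
    rw [mul_inv_eq_one, mul_eq_left] at h2
    exact h2
  have hCB := hC.sub S B hCS
  have hCK := hC.sub S π.ker hCS
  have hBfg : Group.FG B := by
    rw [Group.fg_iff]
    exact ⟨Set.range b, hb, Set.finite_range b⟩
  have hfinB := hC.fin B hCB hBfg hB n b hb
  have key : ∀ (k : Type) [Field k], (⊤ : Submodule (MonoidAlgebra k B) (Rel k b)).FG →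
      ∀ u₁ u₂ l₁ l₂ : MonoidAlgebra k π.ker, aug k π.ker u₁ = 0 → aug k π.ker u₂ = 0 →
      (∀ c₁ c₂ : k, c₁ • u₁ + c₂ • u₂ ∈ Pw (aug k π.ker) 2 → c₁ = 0 ∧ c₂ = 0) →
      l₁ * u₁ + l₂ * u₂ = 0 → ∀ n, l₁ ∈ Pw (aug k π.ker) n ∧ l₂ ∈ Pw (aug k π.ker) n := by
    intro k _ hfg'
    have h1 := hSCC k S π s B n b hs1 hBk hb hcz hsB hasc (hC.prj S hCS k (n + 1) (cz s b) hcz) hfg'
    exact hLFK k S π s (n + 1) (cz s b) hs1 hcz h1
  have hcomm : ∀ x y : π.ker, x * y = y * x :=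
    hKCM (ZMod p) π.ker (hC.sep π.ker hCK) (hC.rnk π.ker hCK) (key (ZMod p) hfinB)
  have hcommB : ∀ x y : B, x * y = y * x := by
    intro x y
    have h1 := congrArg Subtype.val (hcomm ⟨x, hBk x.2⟩ ⟨y, hBk y.2⟩)
    exact Subtype.ext h1
  have hfinQ : (⊤ : Submodule (MonoidAlgebra ℚ B) (Rel ℚ b)).FG :=
    (Submodule.fg_top _).2 (hNOE ℚ B hBfg hcommB n (Rel ℚ b))
  have hdep := hDEP π.ker hcomm (key ℚ hfinQ)
  obtain ⟨x, hx⟩ := hCYC B hBfg hcommB (hC.tor B hCB) (by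
    intro x y
    obtain ⟨c₁, c₂, hc, m, hm, h1⟩ := hdep ⟨x, hBk x.2⟩ ⟨y, hBk y.2⟩
    refine ⟨c₁, c₂, hc, ?_⟩
    have h2 := congrArg Subtype.val (hC.tor π.ker hCK _ m hm h1)
    exact Subtype.ext h2)
  have hx1 : (x : S) ≠ 1 := by
    intro h1
    have h2 : x = 1 := Subtype.ext h1
    obtain ⟨y, hy⟩ := exists_ne (1 : B)
    apply hy
    have h3 := hx y
    rw [h2, zpowers_one_eq_bot, mem_bot] at h3
    exact h3
  have hBx : ∀ g ∈ B, g ∈ zpowers (x : S) := by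
    intro g hg
    obtain ⟨j, hj⟩ := mem_zpowers_iff.1 (hx ⟨g, hg⟩)
    refine mem_zpowers_iff.2 ⟨j, ?_⟩
    exact congrArg Subtype.val hj
  obtain ⟨m, hm⟩ := mem_zpowers_iff.1 (hBx _ (hsB x x.2))
  have hasc' : ∀ g ∈ π.ker, ∃ n : ℕ, s ^ n * g * (s ^ n)⁻¹ ∈ zpowers (x : S) := by
    intro g hg
    obtain ⟨j, hj⟩ := hasc g hg
    exact ⟨j, hBx _ hj⟩
  have hm1 := hC.bs S π s x m hCS hs1 hasc' hx1 hm.symm
  refine hPZF S π x hπ htor (le_antisymm ?_ ?_)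
  · intro g hg
    obtain ⟨j, hj⟩ := hasc' g hg
    exact FIN_norm s x m hm1 hm.symm g j hj
  · rw [zpowers_le]
    exact hBk x.2

end Pool.Agent.PDB
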