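import Pool.Agent.PDB.St2

/-!
[FLX] Amenability and four translates.
-/

set_option autoImplicit false

namespace Pool.Agent.PDB

open Pool.Agent.PDA Subgroup

theorem thm_FLX : St_FLX := by
  intro H _ _ hF y
  obtain ⟨F, hFne, hFy⟩ := hF (Finset.univ.image y) (1 / 4) (by norm_num)
  refine ⟨F, hFne, ?_⟩
  have h1 : Finset.image (fun q : H × Fin 4 => q.1 * y q.2) (F ×ˢ Finset.univ) ⊆
      F ∪ Finset.univ.biUnion (fun i : Fin 4 =>
        (F.filter (fun g => g * y i ∉ F)).image (fun g => g * y i)) := by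
    intro h hh
    rw [Finset.mem_image] at hh
    obtain ⟨⟨g, i⟩, hgi, rfl⟩ := hh
    rw [Finset.mem_product] at hgi
    rw [Finset.mem_union]
    by_cases h2 : g * y i ∈ F
    · exact Or.inl h2
    · right
      rw [Finset.mem_biUnion]
      exact ⟨i, Finset.mem_univ _, Finset.mem_image.mpr
        ⟨g, Finset.mem_filter.mpr ⟨hgi.1, h2⟩, rfl⟩⟩
  have h3 : ∀ i : Fin 4, 4 * (F.filter (fun g => g * y i ∉ F)).card ≤ F.card := by
    intro i
    have h4 := hFy (y i) (Finset.mem_image.mpr ⟨i, Finset.mem_univ _, rfl⟩)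
    have e1 : ((F : Set H) \ {z | z * y i ∈ F}) =
        ((F.filter (fun g => g * y i ∉ F) : Finset H) : Set H) := by
      ext z
      rw [Finset.coe_filter]
      rfl
    rw [e1, Set.ncard_coe_finset] at h4
    have h5 : (4 : ℝ) * ((F.filter (fun g => g * y i ∉ F)).card : ℝ) ≤ F.card := by linarith
    exact_mod_cast h5
  calc (Finset.image (fun q : H × Fin 4 => q.1 * y q.2) (F ×ˢ Finset.univ)).card
      ≤ _ := Finset.card_le_card h1
    _ ≤ F.card + _ := Finset.card_union_le _ _
    _ ≤ F.card + ∑ i : Fin 4, ((F.filter (fun g => g * y i ∉ F)).image (fun g => g * y i)).card :=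
        Nat.add_le_add_left Finset.card_biUnion_le _
    _ ≤ F.card + ∑ i : Fin 4, (F.filter (fun g => g * y i ∉ F)).card :=
        Nat.add_le_add_left (Finset.sum_le_sum fun i _ => Finset.card_image_le) _
    _ ≤ 2 * F.card := by
        rw [Fin.sum_univ_four]
        have a0 := h3 0
        have a1 := h3 1
        have a2 := h3 2
        have a3 := h3 3
        omega

end Pool.Agent.PDB
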