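import Pool.Agent.PDB.St2

/-!
# IMS : the additive group `IM B N`
-/

set_option autoImplicit false

namespace Pool.Agent.PDB

open Pool.Agent.PDA

private theorem IMS_aux (k : Type) [CommRing k] (H : Type) [Group H] (M : Type) [AddCommGroup M]
    [Module (MonoidAlgebra k H) M] (B : Subgroup H) (N : Submodule (MonoidAlgebra k H) M)
    (a : MonoidAlgebra k B) (y : M) (hy : y ∈ N) :
    res k B a • y - (MonoidAlgebra.single (1 : H) (aug k B a)) • y ∈ IM B N := by
  induction a using MonoidAlgebra.induction_linear with
  | zero =>
    rw [map_zero, map_zero, MonoidAlgebra.single_zero, zero_smul, sub_zero]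
    exact zero_mem _
  | add a b ha hb =>
    rw [map_add, map_add, MonoidAlgebra.single_add, add_smul, add_smul, add_sub_add_comm]
    exact add_mem ha hb
  | single u c =>
    apply AddSubgroup.subset_closure
    refine ⟨u, u.2, MonoidAlgebra.single (1 : H) c • y, N.smul_mem _ hy, ?_⟩
    have h1 : res k B (MonoidAlgebra.single u c) = MonoidAlgebra.single (u : H) c := by
      simp [res]
    have h2 : aug k B (MonoidAlgebra.single u c) = c := by
      simp [aug, MonoidAlgebra.lift_single]
    rw [h1, h2, sub_smul, one_smul, smul_smul, el, MonoidAlgebra.of_apply,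
      MonoidAlgebra.single_mul_single, mul_one, one_mul]

theorem thm_IMS : St_IMS := by
  intro k _ H _ M _ _ B N
  refine ⟨?_, ?_, ?_⟩
  · intro a ha y hy
    have h := IMS_aux k H M B N a y hy
    rw [ha, MonoidAlgebra.single_zero, zero_smul, sub_zero] at h
    exact h
  · intro B' hB
    apply AddSubgroup.closure_mono
    rintro z ⟨u, hu, y, hy, rfl⟩
    exact ⟨u, hB hu, y, hy, rfl⟩
  · intro g B' hB y hy
    induction hy using AddSubgroup.closure_induction with
    | mem z hz =>
      obtain ⟨u, hu, w, hw, rfl⟩ := hz
      apply AddSubgroup.subset_closure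
      refine ⟨g * u * g⁻¹, hB u hu, el k g • w, N.smul_mem _ hw, ?_⟩
      rw [smul_smul, smul_smul]
      congr 1
      rw [mul_sub, sub_mul, mul_one, one_mul, el, el, el, ← map_mul, ← map_mul,
        inv_mul_cancel_right]
    | zero =>
      rw [smul_zero]
      exact zero_mem _
    | add a b _ _ ha hb =>
      rw [smul_add]
      exact add_mem ha hb
    | neg a _ ha =>
      rw [smul_neg]
      exact neg_mem ha

end Pool.Agent.PDB
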