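import Pool.Agent.PDB.St2

/-!
# [KCM] commutativity from the leading form condition
-/

set_option autoImplicit false
set_option linter.unusedVariables false

namespace Pool.Agent.PDB

open Pool.Agent.PDA Subgroup

/-- the linear map `l ↦ l 0 * u₁ + l 1 * u₂` -/
noncomputable def KCM_map {Λ : Type} [Ring Λ] (u₁ u₂ : Λ) : (Fin 2 → Λ) →ₗ[Λ] (Fin 1 → Λ) where
  toFun l := fun _ => l 0 * u₁ + l 1 * u₂
  map_add' l m := by
    funext i
    simp only [Pi.add_apply, add_mul]
    abel
  map_smul' a l := by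
    funext i
    simp only [Pi.smul_apply, smul_eq_mul, RingHom.id_apply, mul_add, mul_assoc]

theorem thm_KCM (hCOM : St_COM) : St_KCM := by
  intro k _ K _ hsep hrk hyp x y
  have hcomm : ∀ a b : MonoidAlgebra k K, a * b = b * a := by
    refine hCOM k (MonoidAlgebra k K) (aug k K) hsep ?_
    intro u₁ u₂ h1 h2
    by_contra hcon
    have hno : ∀ c₁ c₂ : k, c₁ • u₁ + c₂ • u₂ ∈ Pw (aug k K) 2 → c₁ = 0 ∧ c₂ = 0 := by
      intro c₁ c₂ hc
      by_contra h0
      exact hcon ⟨c₁, c₂, h0, hc⟩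
    have hinj : Function.Injective (KCM_map u₁ u₂) := by
      rw [injective_iff_map_eq_zero]
      intro l hl
      have h3 : l 0 * u₁ + l 1 * u₂ = 0 := congrFun hl 0
      have h4 := hyp u₁ u₂ (l 0) (l 1) h1 h2 hno h3
      have h5 : l 0 = 0 := hsep _ fun n => (h4 n).1
      have h6 : l 1 = 0 := hsep _ fun n => (h4 n).2
      funext i
      fin_cases i
      · exact h5
      · exact h6
    have := hrk 2 1 ⟨KCM_map u₁ u₂, hinj⟩
    omega
  have h := hcomm (el k x) (el k y)
  rw [← map_mul, ← map_mul] at h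
  exact MonoidAlgebra.of_injective h

end Pool.Agent.PDB
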