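import Pool.Agent.PDB.St2

/-!
[KGN] Generators of the kernel of a map to the integers.
-/

set_option autoImplicit false

namespace Pool.Agent.PDB

open Pool.Agent.PDA Subgroup

theorem thm_KGN : St_KGN := by
  intro H _ π t X ht hX hcl
  apply le_antisymm
  · intro g hg
    have hN : ∀ j : ℤ, ∀ u ∈ closure {y | ∃ i : ℤ, ∃ x ∈ X, y = t ^ i * x * t ^ (-i)},
        t ^ j * u * t ^ (-j) ∈ closure {y | ∃ i : ℤ, ∃ x ∈ X, y = t ^ i * x * t ^ (-i)} := by
      intro j u hu
      refine closure_induction (p := fun u _ => t ^ j * u * t ^ (-j) ∈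
        closure {y | ∃ i : ℤ, ∃ x ∈ X, y = t ^ i * x * t ^ (-i)}) ?_ ?_ ?_ ?_ hu
      · rintro y ⟨i, x, hx, rfl⟩
        refine subset_closure ⟨j + i, x, hx, ?_⟩
        rw [zpow_add, neg_add, zpow_add, mul_assoc, mul_assoc, mul_assoc, mul_assoc, mul_assoc,
          ← zpow_add t (-i) (-j), ← zpow_add t (-j) (-i), add_comm (-i) (-j)]
      · rw [mul_one, ← zpow_add, add_neg_cancel, zpow_zero]
        exact one_mem _
      · intro x y _ _ hx hy
        have e1 : t ^ j * (x * y) * t ^ (-j) = (t ^ j * x * t ^ (-j)) * (t ^ j * y * t ^ (-j)) := by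
          rw [zpow_neg]
          group
        rw [e1]
        exact mul_mem hx hy
      · intro x _ hx
        have e1 : t ^ j * x⁻¹ * t ^ (-j) = (t ^ j * x * t ^ (-j))⁻¹ := by
          rw [zpow_neg]
          group
        rw [e1]
        exact inv_mem hx
    have hT : ∀ g : H, ∃ i : ℤ, ∃ u ∈ closure {y | ∃ i : ℤ, ∃ x ∈ X, y = t ^ i * x * t ^ (-i)},
        g = t ^ i * u := by
      intro g
      have hg : g ∈ closure (insert t X) := by rw [hcl]; exact mem_top g
      refine closure_induction (p := fun g _ => ∃ i : ℤ, ∃ u ∈ closure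
        {y | ∃ i : ℤ, ∃ x ∈ X, y = t ^ i * x * t ^ (-i)}, g = t ^ i * u) ?_ ?_ ?_ ?_ hg
      · intro x hx
        rcases hx with rfl | hx
        · exact ⟨1, 1, one_mem _, by rw [zpow_one, mul_one]⟩
        · exact ⟨0, x, subset_closure ⟨0, x, hx, by rw [neg_zero, zpow_zero, one_mul, mul_one]⟩,
            by rw [zpow_zero, one_mul]⟩
      · exact ⟨0, 1, one_mem _, by rw [zpow_zero, one_mul]⟩
      · rintro x y _ _ ⟨i, u, hu, rfl⟩ ⟨j, v, hv, rfl⟩
        refine ⟨i + j, (t ^ (-j) * u * t ^ (- -j)) * v, mul_mem (hN (-j) u hu) hv, ?_⟩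
        rw [neg_neg, zpow_add, zpow_neg]
        group
      · rintro x _ ⟨i, u, hu, rfl⟩
        refine ⟨-i, t ^ i * u⁻¹ * t ^ (-i), hN i _ (inv_mem hu), ?_⟩
        rw [mul_inv_rev, zpow_neg]
        group
    obtain ⟨i, u, hu, rfl⟩ := hT g
    have hu1 : π u = 1 := by
      refine closure_induction (p := fun u _ => π u = 1) ?_ ?_ ?_ ?_ hu
      · rintro y ⟨i, x, hx, rfl⟩
        rw [map_mul, map_mul, hX x hx, mul_one, ← map_mul, ← zpow_add, add_neg_cancel, zpow_zero,
          map_one]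
      · exact map_one π
      · intro x y _ _ hx hy
        rw [map_mul, hx, hy, mul_one]
      · intro x _ hx
        rw [map_inv, hx, inv_one]
    have h2 : π (t ^ i * u) = 1 := hg
    rw [map_mul, hu1, mul_one, map_zpow, ht, ← ofAdd_zsmul] at h2
    have h3 : i • (1 : ℤ) = 0 := Multiplicative.ofAdd.injective h2
    have h4 : i = 0 := by simpa using h3
    rw [h4, zpow_zero, one_mul]
    exact hu
  · rw [closure_le]
    rintro y ⟨i, x, hx, rfl⟩
    change π (t ^ i * x * t ^ (-i)) = 1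
    rw [map_mul, map_mul, hX x hx, mul_one, ← map_mul, ← zpow_add, add_neg_cancel, zpow_zero,
      map_one]

end Pool.Agent.PDB
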