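import Pool.Agent.PDB.St2

/-!
# PDB, [LFK]: leading forms for the kernel of a map onto the integers
-/

set_option autoImplicit false

namespace Pool.Agent.PDB

open Pool.Agent.PDA Subgroup

section

variable (k : Type) [Field k] {H : Type} [Group H] (π : H →* Multiplicative ℤ) (s : H)

/-- the exponent -/
private def LFK_e (g : H) : ℤ := Multiplicative.toAdd (π g)

private theorem LFK_mem (g : H) : g ∈ π.ker ↔ LFK_e π g = 0 := by
  rw [MonoidHom.mem_ker, LFK_e]
  exact Iff.rfl

private theorem LFK_mul (g h : H) : LFK_e π (g * h) = LFK_e π g + LFK_e π h := by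
  unfold LFK_e
  rw [map_mul, toAdd_mul]

private theorem LFK_pow (hs : π s = Multiplicative.ofAdd 1) (q : ℤ) : LFK_e π (s ^ q) = q := by
  unfold LFK_e
  rw [map_zpow, hs, toAdd_zpow, toAdd_ofAdd, smul_eq_mul, mul_one]

/-- the coset `K s^q` -/
private def LFK_f (q : ℤ) (h : π.ker) : H := (h : H) * s ^ q

private theorem LFK_inj (q : ℤ) : Function.Injective (LFK_f π s q) :=
  fun _ _ h => Subtype.ext (mul_right_cancel h)

private theorem LFK_range (hs : π s = Multiplicative.ofAdd 1) (q : ℤ) (g : H) :
    g ∈ Set.range (LFK_f π s q) ↔ LFK_e π g = q := by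
  constructor
  · rintro ⟨h, rfl⟩
    unfold LFK_f
    rw [LFK_mul, LFK_pow π s hs, (LFK_mem π _).1 h.2, zero_add]
  · intro hg
    refine ⟨⟨g * s ^ (-q), ?_⟩, ?_⟩
    · rw [LFK_mem, LFK_mul, LFK_pow π s hs, hg]
      omega
    · unfold LFK_f
      simp

/-- coordinate `q` -/
private noncomputable def LFK_rho (q : ℤ) : MonoidAlgebra k H →+ MonoidAlgebra k π.ker :=
  MonoidAlgebra.comapDomainAddMonoidHom (LFK_f π s q) (LFK_inj π s q)

private theorem LFK_rho_single (q : ℤ) (h : π.ker) (c : k) :
    LFK_rho k π s q (MonoidAlgebra.single ((h : H) * s ^ q) c) = MonoidAlgebra.single h c :=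
  MonoidAlgebra.comapDomain_single_map (LFK_f π s q) (LFK_inj π s q) h c

private theorem LFK_rho_zero (hs : π s = Multiplicative.ofAdd 1) (q : ℤ) (g : H) (c : k)
    (hg : LFK_e π g ≠ q) : LFK_rho k π s q (MonoidAlgebra.single g c) = 0 :=
  MonoidAlgebra.comapDomain_single_of_not_mem_range
    (fun h => hg ((LFK_range π s hs q g).1 h)) (LFK_inj π s q)

private theorem LFK_el {G : Type} [Group G] (g : G) : el k g = MonoidAlgebra.single g 1 := rfl

private theorem LFK_res_single (h : π.ker) (c : k) :
    res k π.ker (MonoidAlgebra.single h c) = MonoidAlgebra.single (h : H) c := by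
  change MonoidAlgebra.mapDomain _ _ = _
  rw [MonoidAlgebra.mapDomain_single]
  rfl

private theorem LFK_rho_mul (hs : π s = Multiplicative.ofAdd 1) (q : ℤ)
    (a : MonoidAlgebra k π.ker) (v : MonoidAlgebra k H) :
    LFK_rho k π s q (res k π.ker a * v) = a * LFK_rho k π s q v := by
  induction a using MonoidAlgebra.induction_linear with
  | zero => simp
  | add a b ha hb => rw [map_add, add_mul, map_add, ha, hb, add_mul]
  | single h c =>
    induction v using MonoidAlgebra.induction_linear with
    | zero => simp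
    | add v w hv hw => rw [mul_add, map_add, hv, hw, map_add, mul_add]
    | single g c' =>
      rw [LFK_res_single, MonoidAlgebra.single_mul_single]
      by_cases hg : LFK_e π g = q
      · obtain ⟨h', rfl⟩ := (LFK_range π s hs q g).2 hg
        unfold LFK_f
        rw [← mul_assoc, ← Subgroup.coe_mul, LFK_rho_single, LFK_rho_single,
          MonoidAlgebra.single_mul_single]
      · rw [LFK_rho_zero k π s hs q g c' hg, mul_zero, LFK_rho_zero k π s hs q]
        rw [LFK_mul, (LFK_mem π _).1 h.2, zero_add]
        exact hg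

/-- reconstruction -/
private theorem LFK_rec (hs : π s = Multiplicative.ofAdd 1) (v : MonoidAlgebra k H) :
    ∃ S : Finset ℤ, ∀ S' : Finset ℤ, S ⊆ S' →
      v = ∑ q ∈ S', res k π.ker (LFK_rho k π s q v) * el k (s ^ q) := by
  induction v using MonoidAlgebra.induction_linear with
  | zero => exact ⟨∅, fun S' _ => by simp⟩
  | add v w hv hw =>
    obtain ⟨S, hS⟩ := hv
    obtain ⟨T, hT⟩ := hw
    refine ⟨S ∪ T, fun S' h => ?_⟩
    have h1 := hS S' (Finset.union_subset_left h)
    have h2 := hT S' (Finset.union_subset_right h)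
    conv_lhs => rw [h1, h2]
    rw [← Finset.sum_add_distrib]
    refine Finset.sum_congr rfl fun q _ => ?_
    rw [map_add, map_add, add_mul]
  | single g c =>
    refine ⟨{LFK_e π g}, fun S' h => ?_⟩
    rw [Finset.sum_eq_single_of_mem (LFK_e π g) (h (Finset.mem_singleton_self _))]
    · obtain ⟨h', hh'⟩ := (LFK_range π s hs _ g).2 rfl
      unfold LFK_f at hh'
      have e1 : LFK_rho k π s (LFK_e π g) (MonoidAlgebra.single g c) =
          MonoidAlgebra.single h' c := by
        have := LFK_rho_single k π s (LFK_e π g) h' c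
        rwa [hh'] at this
      rw [e1, LFK_res_single, LFK_el, MonoidAlgebra.single_mul_single, mul_one, hh']
    · intro q _ hq
      rw [LFK_rho_zero k π s hs q g c (Ne.symm hq), map_zero, zero_mul]

/-- the retraction -/
private noncomputable def LFK_phi (hs : π s = Multiplicative.ofAdd 1) (g : H) : π.ker :=
  ⟨g * s ^ (-LFK_e π g), by rw [LFK_mem, LFK_mul, LFK_pow π s hs]; omega⟩

private noncomputable def LFK_tau (hs : π s = Multiplicative.ofAdd 1) (v : MonoidAlgebra k H) :
    MonoidAlgebra k π.ker := MonoidAlgebra.mapDomain (LFK_phi π s hs) v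

private theorem LFK_tau_add (hs : π s = Multiplicative.ofAdd 1) (v w : MonoidAlgebra k H) :
    LFK_tau k π s hs (v + w) = LFK_tau k π s hs v + LFK_tau k π s hs w :=
  MonoidAlgebra.mapDomain_add _ _ _

private theorem LFK_tau_zero (hs : π s = Multiplicative.ofAdd 1) :
    LFK_tau k π s hs 0 = 0 := MonoidAlgebra.mapDomain_zero _

private theorem LFK_tau_single (hs : π s = Multiplicative.ofAdd 1) (g : H) (c : k) :
    LFK_tau k π s hs (MonoidAlgebra.single g c) = MonoidAlgebra.single (LFK_phi π s hs g) c :=
  MonoidAlgebra.mapDomain_single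

private theorem LFK_tau_neg (hs : π s = Multiplicative.ofAdd 1) (v : MonoidAlgebra k H) :
    LFK_tau k π s hs (-v) = - LFK_tau k π s hs v := by
  have h := LFK_tau_add k π s hs v (-v)
  rw [add_neg_cancel, LFK_tau_zero] at h
  exact (neg_eq_of_add_eq_zero_right h.symm).symm

private theorem LFK_tau_mul (hs : π s = Multiplicative.ofAdd 1) (a : MonoidAlgebra k π.ker)
    (v : MonoidAlgebra k H) :
    LFK_tau k π s hs (res k π.ker a * v) = a * LFK_tau k π s hs v := by
  induction a using MonoidAlgebra.induction_linear with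
  | zero => rw [map_zero, zero_mul, zero_mul, LFK_tau_zero]
  | add a b ha hb => rw [map_add, add_mul, LFK_tau_add, ha, hb, add_mul]
  | single h c =>
    induction v using MonoidAlgebra.induction_linear with
    | zero => rw [mul_zero, LFK_tau_zero, mul_zero]
    | add v w hv hw => rw [mul_add, LFK_tau_add, hv, hw, LFK_tau_add, mul_add]
    | single g c' =>
      rw [LFK_res_single, MonoidAlgebra.single_mul_single, LFK_tau_single, LFK_tau_single,
        MonoidAlgebra.single_mul_single]
      congr 1
      apply Subtype.ext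
      rw [Subgroup.coe_mul]
      unfold LFK_phi
      simp only
      rw [LFK_mul, (LFK_mem π _).1 h.2, zero_add, mul_assoc]

private theorem LFK_tau_res (hs : π s = Multiplicative.ofAdd 1) (a : MonoidAlgebra k π.ker) :
    LFK_tau k π s hs (res k π.ker a) = a := by
  have h := LFK_tau_mul k π s hs a 1
  rw [mul_one] at h
  rw [h]
  have h1 : LFK_tau k π s hs 1 = 1 := by
    rw [MonoidAlgebra.one_def, LFK_tau_single, MonoidAlgebra.one_def]
    congr 1
    apply Subtype.ext
    unfold LFK_phi LFK_e
    simp
  rw [h1, mul_one]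

private theorem LFK_aug_single {G : Type} [Group G] (g : G) (c : k) :
    aug k G (MonoidAlgebra.single g c) = c := by
  unfold aug
  rw [MonoidAlgebra.lift_single, MonoidHom.one_apply, smul_eq_mul, mul_one]

private theorem LFK_aug_tau (hs : π s = Multiplicative.ofAdd 1) (v : MonoidAlgebra k H) :
    aug k π.ker (LFK_tau k π s hs v) = aug k H v := by
  induction v using MonoidAlgebra.induction_linear with
  | zero => rw [LFK_tau_zero, map_zero, map_zero]
  | add v w hv hw => rw [LFK_tau_add, map_add, map_add, hv, hw]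
  | single g c => rw [LFK_tau_single, LFK_aug_single, LFK_aug_single]

private theorem LFK_aug_res (a : MonoidAlgebra k π.ker) :
    aug k H (res k π.ker a) = aug k π.ker a := by
  induction a using MonoidAlgebra.induction_linear with
  | zero => rw [map_zero, map_zero, map_zero]
  | add v w hv hw => rw [map_add, map_add, map_add, hv, hw]
  | single g c => rw [LFK_res_single, LFK_aug_single, LFK_aug_single]

private theorem LFK_LI (v : MonoidAlgebra k H) (hv : aug k H v = 0) : v ∈ LI k (⊤ : Subgroup H) := by
  have h : ∀ v : MonoidAlgebra k H, v - algebraMap k _ (aug k H v) ∈ LI k (⊤ : Subgroup H) := by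
    intro v
    induction v using MonoidAlgebra.induction_linear with
    | zero => simp
    | add v w hv hw =>
      have := add_mem hv hw
      rw [map_add, map_add]
      have e : v + w - (algebraMap k (MonoidAlgebra k H) (aug k H v) +
          algebraMap k (MonoidAlgebra k H) (aug k H w)) =
          v - algebraMap k _ (aug k H v) + (w - algebraMap k _ (aug k H w)) := by abel
      rw [e]
      exact this
    | single g c =>
      rw [LFK_aug_single]
      have h1 : el k g - 1 ∈ LI k (⊤ : Subgroup H) := Ideal.subset_span ⟨g, Subgroup.mem_top g, rfl⟩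
      have h2 := (LI k (⊤ : Subgroup H)).mul_mem_left (algebraMap k _ c) h1
      rw [mul_sub, mul_one, ← Algebra.smul_def] at h2
      have e : c • el k g = MonoidAlgebra.single g c := by
        rw [LFK_el, MonoidAlgebra.smul_single, smul_eq_mul, mul_one]
      rwa [e] at h2
  have := h v
  rwa [hv, map_zero, sub_zero] at this

private theorem LFK_aug_bd {d : ℕ} (z : Fin d → H) (y : Fin d → MonoidAlgebra k H) :
    aug k H (bd k z y) = 0 := by
  change aug k H (∑ i, y i * (el k (z i) - 1)) = 0
  rw [map_sum]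
  refine Finset.sum_eq_zero fun i _ => ?_
  rw [map_mul, map_sub, map_one, LFK_el, LFK_aug_single, sub_self, mul_zero]

end

theorem thm_LFK (hLIS : St_LIS) (hIMS : St_IMS) (hPWM : St_PWM) (hCOC : St_COC) : St_LFK := by
  intro k _ H _ π s d z hs hz hyp u₁ u₂ l₁ l₂ hu₁ hu₂ hind hrel
  obtain ⟨_, _, p3, p4⟩ := hPWM k (MonoidAlgebra k π.ker) (aug k π.ker)
  obtain ⟨m1, _, _⟩ := hIMS k H (Fin d → MonoidAlgebra k H) π.ker
    (⊤ : Submodule (MonoidAlgebra k H) (Fin d → MonoidAlgebra k H))
  let _i : Module (MonoidAlgebra k π.ker) (Fin d → MonoidAlgebra k H) :=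
    Module.compHom (Fin d → MonoidAlgebra k H) (res k π.ker)
  have hsmul : ∀ (a : MonoidAlgebra k π.ker) (f : Fin d → MonoidAlgebra k H),
      a • f = res k π.ker a • f := fun _ _ => rfl
  let P : Submodule (MonoidAlgebra k π.ker) (Fin d → MonoidAlgebra k H) :=
    { carrier := Rel k z
      add_mem' := fun h1 h2 => (Rel k z).add_mem h1 h2
      zero_mem' := (Rel k z).zero_mem
      smul_mem' := fun a y hy => (Rel k z).smul_mem (res k π.ker a) hy }
  let x : Fin d × ℤ → (Fin d → MonoidAlgebra k H) →ₗ[MonoidAlgebra k π.ker] MonoidAlgebra k π.ker :=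
    fun jq =>
    { toFun := fun f => LFK_rho k π s jq.2 (f jq.1)
      map_add' := fun f g => by rw [Pi.add_apply, map_add]
      map_smul' := fun a f => by
        rw [hsmul, Pi.smul_apply, smul_eq_mul, LFK_rho_mul k π s hs, RingHom.id_apply, smul_eq_mul] }
  have hIA_top : ∀ y : Fin d → MonoidAlgebra k H,
      y ∈ IA (aug k π.ker) (⊤ : Submodule (MonoidAlgebra k π.ker) (Fin d → MonoidAlgebra k H)) →
      y ∈ IM π.ker (⊤ : Submodule (MonoidAlgebra k H) (Fin d → MonoidAlgebra k H)) := by
    intro y hy
    unfold IA at hy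
    induction hy using AddSubgroup.closure_induction with
    | mem w hw =>
        obtain ⟨a, ha, y, _, rfl⟩ := hw
        exact m1 a ha y Submodule.mem_top
    | zero => exact zero_mem _
    | add v w _ _ h1 h2 => exact add_mem h1 h2
    | neg w _ h => exact neg_mem h
  have hIM_Rel : ∀ y : Fin d → MonoidAlgebra k H, y ∈ IM π.ker (Rel k z) →
      y ∈ IA (aug k π.ker) P := by
    intro y hy
    unfold IM at hy
    induction hy using AddSubgroup.closure_induction with
    | mem w hw =>
        obtain ⟨u, hu, y, hy, rfl⟩ := hw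
        refine AddSubgroup.subset_closure ⟨el k (⟨u, hu⟩ : π.ker) - 1, ?_, y, hy, ?_⟩
        · rw [map_sub, map_one, LFK_el, LFK_aug_single, sub_self]
        · rw [hsmul, map_sub, map_one, LFK_el k (⟨u, hu⟩ : π.ker), LFK_res_single]
          rfl
    | zero => exact zero_mem _
    | add v w _ _ h1 h2 => exact add_mem h1 h2
    | neg w _ h => exact neg_mem h
  have hx : ∀ f : Fin d → MonoidAlgebra k H, (∀ i, aug k π.ker (x i f) = 0) →
      f ∈ IA (aug k π.ker) (⊤ : Submodule (MonoidAlgebra k π.ker) (Fin d → MonoidAlgebra k H)) := by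
    intro f hf
    have hf1 : ∀ j, Pi.single j (f j) ∈ IA (aug k π.ker)
        (⊤ : Submodule (MonoidAlgebra k π.ker) (Fin d → MonoidAlgebra k H)) := by
      intro j
      obtain ⟨S, hS⟩ := LFK_rec k π s hs (f j)
      have h1 := hS S (Finset.Subset.refl _)
      have h2 : (Pi.single j (f j) : Fin d → MonoidAlgebra k H) =
          ∑ q ∈ S, LFK_rho k π s q (f j) •
            (Pi.single j (el k (s ^ q)) : Fin d → MonoidAlgebra k H) := by
        conv_lhs => rw [h1]
        have h4 := map_sum (AddMonoidHom.single (fun _ : Fin d => MonoidAlgebra k H) j)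
          (fun q => res k π.ker (LFK_rho k π s q (f j)) * el k (s ^ q)) S
        refine h4.trans (Finset.sum_congr rfl fun q _ => ?_)
        rw [hsmul, ← Pi.single_smul, smul_eq_mul]
        rfl
      rw [h2]
      refine sum_mem fun q _ => ?_
      exact AddSubgroup.subset_closure ⟨_, hf (j, q), _, Submodule.mem_top, rfl⟩
    have h3 : f = ∑ j, Pi.single j (f j) := (Finset.univ_sum_single f).symm
    rw [h3]
    exact sum_mem fun j _ => hf1 j
  obtain ⟨f₁, hf₁⟩ := ((hLIS k H).2 d z (res k π.ker u₁)).1 (by
    rw [hz]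
    exact LFK_LI k _ (by rw [LFK_aug_res, hu₁]))
  obtain ⟨f₂, hf₂⟩ := ((hLIS k H).2 d z (res k π.ker u₂)).1 (by
    rw [hz]
    exact LFK_LI k _ (by rw [LFK_aug_res, hu₂]))
  refine hCOC k (MonoidAlgebra k π.ker) (aug k π.ker) (Fin d → MonoidAlgebra k H) (Fin d × ℤ) x P
    hx (fun y hy hy' => hIM_Rel y (hyp y hy (hIA_top y hy'))) f₁ f₂ l₁ l₂ ?_ ?_
  · rintro c₁ c₂ ⟨p, hp, hmem⟩
    apply hind
    have key : ∀ w : Fin d → MonoidAlgebra k H,
        w ∈ IA (aug k π.ker) (⊤ : Submodule (MonoidAlgebra k π.ker) (Fin d → MonoidAlgebra k H)) →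
        LFK_tau k π s hs (bd k z w) ∈ Pw (aug k π.ker) 2 := by
      intro w hw
      unfold IA at hw
      induction hw using AddSubgroup.closure_induction with
      | mem w hw =>
          obtain ⟨a, ha, y, _, rfl⟩ := hw
          rw [hsmul, LinearMap.map_smul, smul_eq_mul, LFK_tau_mul]
          exact p4 1 1 _ _ ((p3 _).2 ha) ((p3 _).2 (by rw [LFK_aug_tau, LFK_aug_bd]))
      | zero => rw [map_zero, LFK_tau_zero]; exact zero_mem _
      | add v w _ _ h1 h2 => rw [map_add, LFK_tau_add]; exact add_mem h1 h2
      | neg w _ h => rw [map_neg, LFK_tau_neg]; exact neg_mem h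
    have h1 := key _ hmem
    have hp' : bd k z p = 0 := hp
    rw [hsmul, hsmul, map_sub, map_add, LinearMap.map_smul, LinearMap.map_smul, hf₁, hf₂, hp',
      sub_zero, smul_eq_mul, smul_eq_mul, ← map_mul, ← map_mul, ← map_add, LFK_tau_res,
      ← Algebra.smul_def, ← Algebra.smul_def] at h1
    exact h1
  · change bd k z (l₁ • f₁ + l₂ • f₂) = 0
    rw [hsmul, hsmul, map_add, LinearMap.map_smul, LinearMap.map_smul, hf₁, hf₂, smul_eq_mul,
      smul_eq_mul, ← map_mul, ← map_mul, ← map_add, hrel, map_zero]

end Pool.Agent.PDB
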