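import Pool.Agent.PDB.LIQ

/-!
[LIK] The left ideal of the kernel of a map to the integers.
-/

set_option autoImplicit false

namespace Pool.Agent.PDB

open Pool.Agent.PDA Subgroup

theorem thm_LIK : St_LIK := by
  intro k _ H _ π
  have h1 : ∀ l : MonoidAlgebra k H, l ∈ LI k π.ker ↔ MonoidAlgebra.mapDomainRingHom k π l = 0 := by
    intro l
    constructor
    · intro hl
      have h2 : LI k π.ker ≤ RingHom.ker (MonoidAlgebra.mapDomainRingHom k π) := by
        refine Ideal.span_le.mpr ?_
        rintro z ⟨a, ha, rfl⟩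
        change MonoidAlgebra.mapDomainRingHom k π (el k a - 1) = 0
        rw [map_sub, map_one, LIQ_el]
        have e1 : MonoidAlgebra.mapDomainRingHom k π (MonoidAlgebra.single a 1) =
            MonoidAlgebra.single (π a) 1 := MonoidAlgebra.mapDomain_single
        rw [e1, MonoidHom.mem_ker.mp ha, ← MonoidAlgebra.one_def, sub_self]
      exact h2 hl
    · intro hl
      refine LIQ_gen π.ker π (Function.invFun π) (fun g => ?_) l ?_
      · have e2 : π (Function.invFun π (π g)) = π g := Function.invFun_eq (f := π) ⟨g, rfl⟩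
        rw [MonoidHom.mem_ker, map_mul, map_inv, e2, inv_mul_cancel]
      · exact congrArg MonoidAlgebra.coeff hl
  refine ⟨h1, ?_, ?_⟩
  · intro l m hl
    rw [h1] at hl ⊢
    rw [map_mul, hl, zero_mul]
  · intro l m hlm
    rw [h1] at hlm
    rw [h1, h1]
    rw [map_mul] at hlm
    exact mul_eq_zero.mp hlm

end Pool.Agent.PDB
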