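import Pool.Agent.PDB.St2

/-!
[LIQ] Left ideals of a group ring and cosets.
-/

set_option autoImplicit false

namespace Pool.Agent.PDB

open Pool.Agent.PDA Subgroup

lemma LIQ_el {k H : Type} [CommRing k] [Group H] (g : H) :
    el k g = MonoidAlgebra.single g 1 := rfl

lemma LIQ_sub {k H : Type} [CommRing k] [Group H] (A : Subgroup H) (f : H → H)
    (h : ∀ g, el k g - el k (f g) ∈ LI k A) (l : MonoidAlgebra k H) :
    l - MonoidAlgebra.mapDomain f l ∈ LI k A := by
  refine MonoidAlgebra.induction_linear l ?_ ?_ ?_
  · rw [MonoidAlgebra.mapDomain_zero, sub_zero]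
    exact Submodule.zero_mem _
  · intro x y hx hy
    rw [MonoidAlgebra.mapDomain_add, add_sub_add_comm]
    exact Submodule.add_mem _ hx hy
  · intro m r
    have e1 : MonoidAlgebra.single m r - MonoidAlgebra.mapDomain f (MonoidAlgebra.single m r) =
        MonoidAlgebra.single 1 r * (el k m - el k (f m)) := by
      rw [MonoidAlgebra.mapDomain_single, mul_sub, LIQ_el, LIQ_el,
        MonoidAlgebra.single_mul_single, MonoidAlgebra.single_mul_single, one_mul, one_mul,
        mul_one]
    rw [e1]
    exact Ideal.mul_mem_left _ _ (h m)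

/-- general form of the inclusion `←` -/
lemma LIQ_gen {k H Q : Type} [CommRing k] [Group H] (A : Subgroup H) (f : H → Q) (s : Q → H)
    (h : ∀ g, (s (f g))⁻¹ * g ∈ A) (l : MonoidAlgebra k H)
    (hl : Finsupp.mapDomain f l.coeff = 0) : l ∈ LI k A := by
  have h1 := LIQ_sub (k := k) A (s ∘ f) (fun g => by
    have e1 : el k g - el k ((s ∘ f) g) = el k (s (f g)) * (el k ((s (f g))⁻¹ * g) - 1) := by
      rw [mul_sub, mul_one, ← map_mul, mul_inv_cancel_left]
      rfl
    rw [e1]
    exact Ideal.mul_mem_left _ _ (Ideal.subset_span ⟨_, h g, rfl⟩)) l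
  have h2 : MonoidAlgebra.mapDomain (s ∘ f) l = 0 := by
    ext : 1
    change Finsupp.mapDomain (s ∘ f) l.coeff = 0
    rw [Finsupp.mapDomain_comp, hl, Finsupp.mapDomain_zero]
  rwa [h2, sub_zero] at h1

theorem thm_LIQ : St_LIQ := by
  intro k _ H _ A l
  constructor
  · intro hl
    refine Submodule.span_induction (p := fun z _ => Finsupp.mapDomain
      (fun g : H => (QuotientGroup.mk g : H ⧸ A)) z.coeff = 0) ?_ ?_ ?_ ?_ hl
    · rintro z ⟨a, ha, rfl⟩
      have e1 : (el k a - 1 : MonoidAlgebra k H).coeff = Finsupp.single a 1 - Finsupp.single 1 1 :=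
        rfl
      rw [e1, sub_eq_add_neg, Finsupp.mapDomain_add, Finsupp.mapDomain_single,
        ← Finsupp.single_neg, Finsupp.mapDomain_single,
        show (QuotientGroup.mk a : H ⧸ A) = QuotientGroup.mk 1 from
          QuotientGroup.eq.mpr (by rw [mul_one]; exact inv_mem ha), ← Finsupp.single_add,
        add_neg_cancel, Finsupp.single_zero]
    · exact Finsupp.mapDomain_zero
    · intro x y _ _ hx hy
      rw [MonoidAlgebra.coeff_add, Finsupp.mapDomain_add, hx, hy, add_zero]
    · intro a z _ hz
      have key : ∀ (g : H) (r : k) (w : MonoidAlgebra k H), Finsupp.mapDomain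
          (fun g : H => (QuotientGroup.mk g : H ⧸ A)) (MonoidAlgebra.single g r * w).coeff =
          r • Finsupp.mapDomain (fun q : H ⧸ A => g • q)
            (Finsupp.mapDomain (fun g : H => (QuotientGroup.mk g : H ⧸ A)) w.coeff) := by
        intro g r w
        refine MonoidAlgebra.induction_linear w ?_ ?_ ?_
        · rw [mul_zero, MonoidAlgebra.coeff_zero, Finsupp.mapDomain_zero, Finsupp.mapDomain_zero,
            smul_zero]
        · intro x y hx hy
          rw [mul_add, MonoidAlgebra.coeff_add, Finsupp.mapDomain_add, hx, hy,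
            MonoidAlgebra.coeff_add, Finsupp.mapDomain_add, Finsupp.mapDomain_add, smul_add]
        · intro m c
          rw [MonoidAlgebra.single_mul_single, MonoidAlgebra.coeff_single,
            MonoidAlgebra.coeff_single, Finsupp.mapDomain_single, Finsupp.mapDomain_single,
            Finsupp.mapDomain_single, Finsupp.smul_single]
          rfl
      rw [smul_eq_mul]
      refine MonoidAlgebra.induction_linear a ?_ ?_ ?_
      · rw [zero_mul]
        exact Finsupp.mapDomain_zero
      · intro x y hx hy
        rw [add_mul, MonoidAlgebra.coeff_add, Finsupp.mapDomain_add, hx, hy, add_zero]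
      · intro m r
        rw [key, hz, Finsupp.mapDomain_zero, smul_zero]
  · intro hl
    exact LIQ_gen A (fun g : H => (QuotientGroup.mk g : H ⧸ A)) (fun q => q.out)
      (fun g => QuotientGroup.eq.mp (Quotient.out_eq _)) l hl

end Pool.Agent.PDB
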