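import Pool.Agent.PDB.St2

/-!
[LIS] The left ideal of a subgroup given by generators.
-/

set_option autoImplicit false

namespace Pool.Agent.PDB

open Pool.Agent.PDA Subgroup

lemma LIS_mul {k H : Type} [CommRing k] [Group H] (x y : H) :
    el k (x * y) = el k x * el k y := map_mul (MonoidAlgebra.of k H) x y

lemma LIS_one {k H : Type} [CommRing k] [Group H] : el k (1 : H) = 1 :=
  map_one (MonoidAlgebra.of k H)

theorem thm_LIS : St_LIS := by
  intro k _ H _
  have h1 : ∀ X : Set H, LI k (closure X) =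
      Ideal.span {z : MonoidAlgebra k H | ∃ x ∈ X, z = el k x - 1} := by
    intro X
    apply le_antisymm
    · refine Ideal.span_le.mpr ?_
      rintro z ⟨a, ha, rfl⟩
      refine closure_induction (p := fun a _ => el k a - 1 ∈
        Ideal.span {z : MonoidAlgebra k H | ∃ x ∈ X, z = el k x - 1}) ?_ ?_ ?_ ?_ ha
      · intro x hx
        exact Ideal.subset_span ⟨x, hx, rfl⟩
      · rw [LIS_one, sub_self]
        exact Submodule.zero_mem _
      · intro x y _ _ hx hy
        have e1 : el k (x * y) - 1 = el k x * (el k y - 1) + (el k x - 1) := by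
          rw [LIS_mul, mul_sub, mul_one]
          abel
        rw [e1]
        exact Submodule.add_mem _ (Ideal.mul_mem_left _ _ hy) hx
      · intro x _ hx
        have e1 : el k x⁻¹ - 1 = -(el k x⁻¹ * (el k x - 1)) := by
          rw [mul_sub, mul_one, ← LIS_mul, inv_mul_cancel, LIS_one, neg_sub]
        rw [e1]
        exact Submodule.neg_mem _ (Ideal.mul_mem_left _ _ hx)
    · refine Ideal.span_mono ?_
      rintro z ⟨x, hx, rfl⟩
      exact ⟨x, subset_closure hx, rfl⟩
  refine ⟨h1, ?_⟩
  intro n b l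
  rw [h1]
  have e1 : {z : MonoidAlgebra k H | ∃ x ∈ Set.range b, z = el k x - 1} =
      Set.range (fun i => el k (b i) - 1) := by
    ext z
    constructor
    · rintro ⟨x, ⟨i, rfl⟩, rfl⟩
      exact ⟨i, rfl⟩
    · rintro ⟨i, rfl⟩
      exact ⟨b i, ⟨i, rfl⟩, rfl⟩
  rw [e1]
  change l ∈ Submodule.span _ (Set.range (fun i => el k (b i) - 1)) ↔ _
  rw [Submodule.mem_span_range_iff_exists_fun]
  rfl

end Pool.Agent.PDB
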