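import Pool.Agent.PDB.St2

/-!
# PDB, module NOE: group algebras of finitely generated commutative groups are noetherian
-/

set_option autoImplicit false

namespace Pool.Agent.PDB

private theorem NOE_comm (k : Type) [Field k] (B : Type) [CommGroup B] (hB : Group.FG B) (n : ℕ)
    (N : Submodule (MonoidAlgebra k B) (Fin n → MonoidAlgebra k B)) : N.FG := by
  have h1 : Monoid.FG B := Group.fg_iff_monoid_fg.mp hB
  have h2 : Algebra.FiniteType k (MonoidAlgebra k B) := MonoidAlgebra.finiteType_of_fg
  have h3 : IsNoetherianRing (MonoidAlgebra k B) := Algebra.FiniteType.isNoetherianRing k _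
  exact IsNoetherian.noetherian N

theorem thm_NOE : St_NOE := by
  intro k _ B hG hB hcomm n N
  let hC : CommGroup B := { hG with mul_comm := hcomm }
  exact @NOE_comm k _ B hC hB n N

end Pool.Agent.PDB
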