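import Pool.Agent.PDB.St2

/-!
# PDB, [PWM]: powers of the augmentation ideal
-/

set_option autoImplicit false

namespace Pool.Agent.PDB

open Pool.Agent.PDA

private theorem PWM_memJ {k : Type} [CommRing k] {Λ : Type} [Ring Λ] [Algebra k Λ]
    (ε : Λ →ₐ[k] k) (a : Λ) : a ∈ J ε ↔ ε a = 0 := by
  unfold J
  rw [LinearMap.mem_ker]
  rfl

private theorem PWM_left {k : Type} [CommRing k] {Λ : Type} [Ring Λ] [Algebra k Λ]
    (ε : Λ →ₐ[k] k) (n : ℕ) (a b : Λ) (ha : a ∈ Pw ε n) : b * a ∈ Pw ε n := by
  cases n with
  | zero => exact Submodule.mem_top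
  | succ n =>
      have ha' : a ∈ J ε * Pw ε n := ha
      change b * a ∈ J ε * Pw ε n
      refine Submodule.mul_induction_on ha' ?_ ?_
      · intro x hx y hy
        rw [← mul_assoc]
        refine Submodule.mul_mem_mul ?_ hy
        rw [PWM_memJ] at hx ⊢
        rw [map_mul, hx, mul_zero]
      · intro x y hx hy
        rw [mul_add]
        exact add_mem hx hy

private theorem PWM_right {k : Type} [CommRing k] {Λ : Type} [Ring Λ] [Algebra k Λ]
    (ε : Λ →ₐ[k] k) (n : ℕ) : ∀ (a b : Λ), a ∈ Pw ε n → a * b ∈ Pw ε n := by
  induction n with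
  | zero => intro a b _; exact Submodule.mem_top
  | succ n ih =>
      intro a b ha
      have ha' : a ∈ J ε * Pw ε n := ha
      change a * b ∈ J ε * Pw ε n
      refine Submodule.mul_induction_on ha' ?_ ?_
      · intro x hx y hy
        rw [mul_assoc]
        exact Submodule.mul_mem_mul hx (ih y b hy)
      · intro x y hx hy
        rw [add_mul]
        exact add_mem hx hy

theorem thm_PWM : St_PWM := by
  intro k _ Λ _ _ ε
  refine ⟨?_, ?_, ?_, ?_⟩
  · intro n a ha
    have ha' : a ∈ J ε * Pw ε n := ha
    refine Submodule.mul_induction_on ha' ?_ ?_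
    · intro x _ y hy
      exact PWM_left ε n y x hy
    · intro x y hx hy
      exact add_mem hx hy
  · intro n a b ha
    exact ⟨PWM_right ε n a b ha, PWM_left ε n a b ha⟩
  · intro a
    constructor
    · intro ha
      have ha' : a ∈ J ε * Pw ε 0 := ha
      refine Submodule.mul_induction_on ha' ?_ ?_
      · intro x hx y _
        rw [PWM_memJ] at hx
        rw [map_mul, hx, zero_mul]
      · intro x y hx hy
        rw [map_add, hx, hy, add_zero]
    · intro ha
      have h : a * 1 ∈ J ε * Pw ε 0 :=
        Submodule.mul_mem_mul ((PWM_memJ ε a).2 ha) Submodule.mem_top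
      rw [mul_one] at h
      exact h
  · intro m
    induction m with
    | zero =>
        intro n a b _ hb
        rw [Nat.zero_add]
        exact PWM_left ε n b a hb
    | succ m ih =>
        intro n a b ha hb
        have ha' : a ∈ J ε * Pw ε m := ha
        have e : m + 1 + n = (m + n) + 1 := by omega
        rw [e]
        change a * b ∈ J ε * Pw ε (m + n)
        refine Submodule.mul_induction_on ha' ?_ ?_
        · intro x hx y hy
          rw [mul_assoc]
          exact Submodule.mul_mem_mul hx (ih n y b hy hb)
        · intro x y hx hy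
          rw [add_mul]
          exact add_mem hx hy

end Pool.Agent.PDB
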