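import Pool.Agent.PDB.St2

/-!
# PDB, module PZF: extensions of a cyclic group by an infinite cyclic group are poly-`ℤ`
-/

set_option autoImplicit false

namespace Pool.Agent.PDB

open Pool.Agent.PDA Subgroup

private theorem PZF_iso {H : Type} [Group H] (K : Subgroup H) (x : H) (hK : K = zpowers x)
    (hx : ∀ n : ℕ, 0 < n → x ^ n = 1 → False) :
    ∃ f : K →* Multiplicative ℤ, Function.Bijective f := by
  have hinj : Function.Injective (zpowersHom H x) := by
    intro a b hab
    have h0 : ¬ IsOfFinOrder x := by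
      rw [isOfFinOrder_iff_pow_eq_one]
      rintro ⟨n, hn, h1⟩
      exact hx n hn h1
    have h1 := injective_zpow_iff_not_isOfFinOrder.2 h0
    have h2 : (fun n : ℤ => x ^ n) (Multiplicative.toAdd a) =
        (fun n : ℤ => x ^ n) (Multiplicative.toAdd b) := by
      rw [zpowersHom_apply, zpowersHom_apply] at hab
      exact hab
    exact Multiplicative.toAdd.injective (h1 h2)
  have hr : K = (zpowersHom H x).range := by
    rw [hK]
    ext y
    rw [mem_zpowers_iff, MonoidHom.mem_range]
    constructor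
    · rintro ⟨k, hk⟩
      exact ⟨Multiplicative.ofAdd k, by rw [zpowersHom_apply, toAdd_ofAdd]; exact hk⟩
    · rintro ⟨k, hk⟩
      exact ⟨Multiplicative.toAdd k, by rw [zpowersHom_apply] at hk; exact hk⟩
  let e : K ≃* Multiplicative ℤ :=
    (MulEquiv.subgroupCongr hr).trans (MonoidHom.ofInjective hinj).symm
  exact ⟨e.toMonoidHom, e.bijective⟩

theorem thm_PZF : St_PZF := by
  intro H _ π x hπ ht hker
  by_cases hx : x = 1
  · refine ⟨1, fun i => if i = 0 then ⊥ else ⊤, if_pos rfl, if_neg one_ne_zero, ?_⟩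
    intro i hi
    have hi0 : i = 0 := by omega
    subst hi0
    have e0 : (fun i : ℕ => if i = 0 then (⊥ : Subgroup H) else ⊤) 0 = ⊥ := if_pos rfl
    have e1 : (fun i : ℕ => if i = 0 then (⊥ : Subgroup H) else ⊤) (0 + 1) = ⊤ :=
      if_neg (Nat.succ_ne_zero 0)
    rw [e0, e1]
    refine ⟨bot_le, π.comp (⊤ : Subgroup H).subtype, ?_, ?_⟩
    · intro y
      obtain ⟨h, hh⟩ := hπ y
      exact ⟨⟨h, mem_top h⟩, hh⟩
    · ext ⟨h, hh⟩
      rw [MonoidHom.mem_ker, mem_subgroupOf]
      show π h = 1 ↔ h ∈ (⊥ : Subgroup H)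
      rw [← MonoidHom.mem_ker, hker, hx, zpowers_one_eq_bot]
  · refine ⟨2, fun i => if i = 0 then ⊥ else if i = 1 then π.ker else ⊤, if_pos rfl, ?_, ?_⟩
    · show (if 2 = 0 then (⊥ : Subgroup H) else if 2 = 1 then π.ker else ⊤) = ⊤
      rw [if_neg (by omega), if_neg (by omega)]
    · intro i hi
      have e0 : (fun i : ℕ => if i = 0 then (⊥ : Subgroup H) else if i = 1 then π.ker else ⊤) 0 =
          ⊥ := if_pos rfl
      have e1 : (fun i : ℕ => if i = 0 then (⊥ : Subgroup H) else if i = 1 then π.ker else ⊤) 1 =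
          π.ker := by
        show (if 1 = 0 then (⊥ : Subgroup H) else if 1 = 1 then π.ker else ⊤) = π.ker
        rw [if_neg (by omega), if_pos rfl]
      have e2 : (fun i : ℕ => if i = 0 then (⊥ : Subgroup H) else if i = 1 then π.ker else ⊤) 2 =
          ⊤ := by
        show (if 2 = 0 then (⊥ : Subgroup H) else if 2 = 1 then π.ker else ⊤) = ⊤
        rw [if_neg (by omega), if_neg (by omega)]
      have hcase : i = 0 ∨ i = 1 := by omega
      rcases hcase with rfl | rfl
      · rw [zero_add, e0, e1]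
        obtain ⟨f, hf⟩ := PZF_iso π.ker x hker (fun n hn h1 => hx (ht x n hn h1))
        refine ⟨bot_le, f, hf.2, ?_⟩
        rw [(MonoidHom.ker_eq_bot_iff f).2 hf.1, bot_subgroupOf]
      · have e3 : (1 + 1 : ℕ) = 2 := rfl
        rw [e3, e1, e2]
        refine ⟨le_top, π.comp (⊤ : Subgroup H).subtype, ?_, ?_⟩
        · intro y
          obtain ⟨h, hh⟩ := hπ y
          exact ⟨⟨h, mem_top h⟩, hh⟩
        · ext ⟨h, hh⟩
          rw [MonoidHom.mem_ker, mem_subgroupOf]
          show π h = 1 ↔ h ∈ π.ker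
          rw [MonoidHom.mem_ker]

end Pool.Agent.PDB
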