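import Pool.Agent.PDB.St2

/-!
# PDB: module PZV, poly-(infinite cyclic) subgroups of finite index
-/

set_option autoImplicit false

namespace Pool.Agent.PDB

/-- module PZV -/
theorem thm_PZV : St_PZV := by
  refine ⟨?_, ?_⟩
  · intro H _ K hK hP
    obtain ⟨n, P, h0, hn, hstep⟩ := hP
    refine ⟨K, hK, n, fun i => (P i).map K.subtype, ?_, ?_, ?_⟩
    · change (P 0).map K.subtype = ⊥
      rw [h0, Subgroup.map_bot]
    · change (P n).map K.subtype = K
      rw [hn, ← MonoidHom.range_eq_map, Subgroup.range_subtype]
    · intro i hi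
      obtain ⟨hle, f, hf, hker⟩ := hstep i hi
      refine ⟨Subgroup.map_mono hle, ?_⟩
      set e := (P (i + 1)).equivMapOfInjective K.subtype K.subtype_injective with he
      refine ⟨f.comp e.symm.toMonoidHom, ?_, ?_⟩
      · exact hf.comp e.symm.surjective
      · ext x
        obtain ⟨y, rfl⟩ := e.surjective x
        rw [MonoidHom.mem_ker, Subgroup.mem_subgroupOf, MonoidHom.comp_apply]
        have h1 : e.symm.toMonoidHom (e y) = y := e.symm_apply_apply y
        rw [h1, ← MonoidHom.mem_ker, hker, Subgroup.mem_subgroupOf]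
        have h2 : ((e y : (P (i + 1)).map K.subtype) : H) = K.subtype (y : K) :=
          Subgroup.coe_equivMapOfInjective_apply _ _ _ _
        rw [h2]
        constructor
        · intro h
          exact Subgroup.mem_map_of_mem K.subtype h
        · rintro ⟨z, hz, hzy⟩
          rwa [← K.subtype_injective hzy]
  · intro H _ hH
    refine ⟨0, fun _ => ⊥, rfl, ?_, fun i hi => absurd hi (Nat.not_lt_zero i)⟩
    ext x
    rw [Subsingleton.elim x 1]
    simp

end Pool.Agent.PDB
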