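import Pool.Agent.PDB.St2

/-!
# PDB, SCA
-/

set_option autoImplicit false

namespace Pool.Agent.PDB

open Pool.Agent.PDA Subgroup

section SCA

variable {k : Type} [CommRing k] {H : Type} [Group H]

/-- additive extension -/
noncomputable def SCA_E {G M : Type} [AddCommGroup M] (v : G → k →+ M) : MonoidAlgebra k G →+ M :=
  (Finsupp.liftAddHom v).comp (MonoidAlgebra.coeffAddEquiv (R := k) (M := G)).toAddMonoidHom

theorem SCA_E_single {G M : Type} [AddCommGroup M] (v : G → k →+ M) (g : G) (c : k) :
    SCA_E v (MonoidAlgebra.single g c) = v g c := by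
  change Finsupp.liftAddHom v (MonoidAlgebra.single g c : MonoidAlgebra k G).coeff = _
  rw [MonoidAlgebra.coeff_single, Finsupp.liftAddHom_apply_single]

theorem SCA_ext {G M : Type} [AddCommGroup M] (f g : MonoidAlgebra k G →+ M)
    (h : ∀ x c, f (MonoidAlgebra.single x c) = g (MonoidAlgebra.single x c))
    (a : MonoidAlgebra k G) : f a = g a :=
  DFunLike.congr_fun (MonoidAlgebra.addMonoidHom_ext h) a

theorem SCA_aug_single {G : Type} [Group G] (g : G) (c : k) :
    aug k G (MonoidAlgebra.single g c) = c := by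
  unfold aug
  rw [MonoidAlgebra.lift_single]
  simp

theorem SCA_LI_top {G : Type} [Group G] (a : MonoidAlgebra k G) (ha : aug k G a = 0) :
    a ∈ LI k (⊤ : Subgroup G) := by
  have h1 : ∀ a : MonoidAlgebra k G,
      a - algebraMap k (MonoidAlgebra k G) (aug k G a) ∈ LI k (⊤ : Subgroup G) := by
    intro a
    induction a using MonoidAlgebra.induction_on with
    | of g =>
      have h2 : aug k G (MonoidAlgebra.of k G g) = 1 := SCA_aug_single g 1
      rw [h2, map_one]
      exact Submodule.subset_span ⟨g, Subgroup.mem_top g, rfl⟩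
    | add a b ha hb =>
      rw [map_add, map_add]
      have h2 := Submodule.add_mem _ ha hb
      rw [sub_add_sub_comm] at h2
      exact h2
    | smul c a ha =>
      have h2 := Ideal.mul_mem_left (LI k (⊤ : Subgroup G)) (algebraMap k (MonoidAlgebra k G) c) ha
      rw [mul_sub, ← map_mul, ← Algebra.smul_def] at h2
      have h3 : aug k G (c • a) = c * aug k G a := by
        rw [map_smul, smul_eq_mul]
      rw [h3]
      exact h2
  have h2 := h1 a
  rw [ha, map_zero, sub_zero] at h2
  exact h2

theorem SCA_res_single {B : Subgroup H} (u : B) (c : k) :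
    res k B (MonoidAlgebra.single u c) = MonoidAlgebra.single (u : H) c := by
  change MonoidAlgebra.mapDomainRingHom k B.subtype (MonoidAlgebra.single u c) = _
  rw [MonoidAlgebra.mapDomainRingHom_apply, MonoidAlgebra.mapDomain_single]
  rfl

theorem SCA_em_add {B : Subgroup H} {n : ℕ} (w w' : Fin n → MonoidAlgebra k B) :
    em k (w + w') = em k w + em k w' := by
  funext i
  refine Fin.cases ?_ (fun j => ?_) i
  · change (0 : MonoidAlgebra k H) = 0 + 0
    rw [add_zero]
  · change res k B (w j + w' j) = res k B (w j) + res k B (w' j)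
    rw [map_add]

theorem SCA_em_smul {B : Subgroup H} {n : ℕ} (a : MonoidAlgebra k B)
    (w : Fin n → MonoidAlgebra k B) : em k (a • w) = res k B a • em k w := by
  funext i
  refine Fin.cases ?_ (fun j => ?_) i
  · change (0 : MonoidAlgebra k H) = res k B a * 0
    rw [mul_zero]
  · change res k B (a * w j) = res k B a * res k B (w j)
    rw [map_mul]

theorem SCA_em_zero {B : Subgroup H} {n : ℕ} : em k (0 : Fin n → MonoidAlgebra k B) = 0 := by
  have h := SCA_em_smul (0 : MonoidAlgebra k B) (0 : Fin n → MonoidAlgebra k B)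
  rw [zero_smul, map_zero, zero_smul] at h
  exact h

theorem SCA_em_neg {B : Subgroup H} {n : ℕ} (w : Fin n → MonoidAlgebra k B) :
    em k (-w) = -em k w := by
  have h := SCA_em_add w (-w)
  rw [add_neg_cancel, SCA_em_zero] at h
  exact (neg_eq_of_add_eq_zero_right h.symm).symm

theorem SCA_bd_em {B : Subgroup H} {n : ℕ} (s : H) (b : Fin n → B)
    (w : Fin n → MonoidAlgebra k B) : bd k (cz s b) (em k w) = res k B (bd k b w) := by
  change ∑ i, em k w i * (el k (cz s b i) - 1) = res k B (∑ i, w i * (el k (b i) - 1))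
  rw [Fin.sum_univ_succ]
  have h1 : em k w 0 = 0 := rfl
  rw [h1, zero_mul, zero_add, map_sum]
  refine Finset.sum_congr rfl fun i _ => ?_
  rw [map_mul, map_sub, map_one]
  have h3 : res k B (el k (b i)) = el k (b i : H) := SCA_res_single (b i) 1
  rw [h3]
  rfl

theorem SCA_aug_bd {d : ℕ} (x : Fin d → H) (z : Fin d → MonoidAlgebra k H) :
    aug k H (bd k x z) = 0 := by
  change aug k H (∑ i, z i * (el k (x i) - 1)) = 0
  rw [map_sum]
  refine Finset.sum_eq_zero fun i _ => ?_
  have h2 : aug k H (el k (x i)) = 1 := SCA_aug_single (x i) 1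
  rw [map_mul, map_sub, map_one, h2, sub_self, mul_zero]

end SCA

theorem thm_SCA (hLIS : St_LIS) (_hIMS : St_IMS) : St_SCA := by
  intro k _ H _ s B n b hb hcz y hy hyI
  classical
  -- representatives
  let r : H → H := fun g => (Quotient.mk (QuotientGroup.rightRel B) g).out
  have hr1 : ∀ g, g * (r g)⁻¹ ∈ B := by
    intro g
    have h1 : (QuotientGroup.rightRel B) (r g) g := Quotient.mk_out g
    rw [QuotientGroup.rightRel_apply] at h1
    exact h1
  have hr2 : ∀ u ∈ B, ∀ g, r (u * g) = r g := by
    intro u hu g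
    have h1 : Quotient.mk (QuotientGroup.rightRel B) (u * g) =
        Quotient.mk (QuotientGroup.rightRel B) g := by
      apply Quotient.sound
      change (QuotientGroup.rightRel B) (u * g) g
      rw [QuotientGroup.rightRel_apply, mul_inv_rev, mul_inv_cancel_left]
      exact B.inv_mem hu
    exact congrArg Quotient.out h1
  let β : H → B := fun g => ⟨g * (r g)⁻¹, hr1 g⟩
  have hβ : ∀ (u : H) (hu : u ∈ B) (g : H), β (u * g) = ⟨u, hu⟩ * β g := by
    intro u hu g
    apply Subtype.ext
    change u * g * (r (u * g))⁻¹ = u * (g * (r g)⁻¹)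
    rw [hr2 u hu, mul_assoc]
  -- lifts of `g - 1`
  have hf : ∀ g : H, ∃ z, bd k (cz s b) z = el k g - 1 := by
    intro g
    rw [← (hLIS k H).2, hcz]
    exact Submodule.subset_span ⟨g, Subgroup.mem_top g, rfl⟩
  choose f hf using hf
  let ρ : MonoidAlgebra k H →+ MonoidAlgebra k B := SCA_E fun g =>
    { toFun := fun c => MonoidAlgebra.single (β g) c
      map_zero' := MonoidAlgebra.single_zero _
      map_add' := fun a b => MonoidAlgebra.single_add _ _ _ }
  have hρ : ∀ g c, ρ (MonoidAlgebra.single g c) = MonoidAlgebra.single (β g) c :=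
    fun g c => SCA_E_single _ g c
  let σ : MonoidAlgebra k H →+ (Fin (n + 1) → MonoidAlgebra k H) := SCA_E fun g =>
    { toFun := fun c => (MonoidAlgebra.single (β g : H) c : MonoidAlgebra k H) • f (r g)
      map_zero' := by rw [MonoidAlgebra.single_zero, zero_smul]
      map_add' := fun a b => by rw [MonoidAlgebra.single_add, add_smul] }
  have hσ : ∀ g c, σ (MonoidAlgebra.single g c) =
      (MonoidAlgebra.single (β g : H) c : MonoidAlgebra k H) • f (r g) :=
    fun g c => SCA_E_single _ g c
  let d := bd k (cz s b)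
  -- the four identities
  have hA : ∀ a, d (σ a) = a - res k B (ρ a) := by
    refine SCA_ext ((d.toAddMonoidHom).comp σ)
      (AddMonoidHom.id _ - (res k B).toAddMonoidHom.comp ρ) ?_
    intro g c
    change d (σ (MonoidAlgebra.single g c)) = MonoidAlgebra.single g c -
      res k B (ρ (MonoidAlgebra.single g c))
    rw [hσ, hρ, SCA_res_single, map_smul]
    change _ • bd k (cz s b) (f (r g)) = _
    rw [hf, smul_eq_mul, mul_sub, mul_one]
    congr 1
    change MonoidAlgebra.single (β g : H) c * MonoidAlgebra.single (r g) 1 = _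
    rw [MonoidAlgebra.single_mul_single, mul_one]
    congr 1
    change g * (r g)⁻¹ * r g = g
    rw [inv_mul_cancel_right]
  have hBB : ∀ a, aug k B (ρ a) = aug k H a := by
    refine SCA_ext ((aug k B).toRingHom.toAddMonoidHom.comp ρ) (aug k H).toRingHom.toAddMonoidHom ?_
    intro g c
    change aug k B (ρ (MonoidAlgebra.single g c)) = aug k H (MonoidAlgebra.single g c)
    rw [hρ, SCA_aug_single, SCA_aug_single]
  have hC : ∀ (u : H) (hu : u ∈ B) (a : MonoidAlgebra k H),
      ρ (el k u * a) = el k (⟨u, hu⟩ : B) * ρ a := by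
    intro u hu
    refine SCA_ext (ρ.comp (AddMonoidHom.mulLeft (el k u)))
      ((AddMonoidHom.mulLeft (el k (⟨u, hu⟩ : B))).comp ρ) ?_
    intro g c
    change ρ (MonoidAlgebra.single u 1 * MonoidAlgebra.single g c) =
      MonoidAlgebra.single (⟨u, hu⟩ : B) 1 * ρ (MonoidAlgebra.single g c)
    rw [MonoidAlgebra.single_mul_single, hρ, hρ, MonoidAlgebra.single_mul_single, hβ u hu]
  have hD : ∀ (u : H), u ∈ B → ∀ a : MonoidAlgebra k H, σ (el k u * a) = el k u • σ a := by
    intro u hu a
    induction a using MonoidAlgebra.induction_linear with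
    | zero => rw [mul_zero, map_zero, smul_zero]
    | add p q hp hq => rw [mul_add, map_add, hp, hq, map_add, smul_add]
    | single g c =>
      have h1 : el k u * MonoidAlgebra.single g c = MonoidAlgebra.single (u * g) (1 * c) :=
        MonoidAlgebra.single_mul_single _ _ _ _
      have h2 : el k u * MonoidAlgebra.single (β g : H) c =
          MonoidAlgebra.single (u * (β g : H)) (1 * c) :=
        MonoidAlgebra.single_mul_single _ _ _ _
      have h3 : (β (u * g) : H) = u * (β g : H) := by
        rw [hβ u hu]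
        rfl
      rw [h1, hσ, hσ, h3, hr2 u hu, ← mul_smul, h2]
  -- closure induction
  have key : ∃ w : Fin n → MonoidAlgebra k B, bd k b w = ρ (d y) ∧
      y - σ (d y) - em k w ∈ IM B (Rel k (cz s b)) := by
    clear hy
    unfold IM at hyI
    induction hyI using AddSubgroup.closure_induction with
    | mem t h =>
      obtain ⟨u, hu, z, -, rfl⟩ := h
      have h1 : aug k B (ρ (d z)) = 0 := by
        rw [hBB]
        exact SCA_aug_bd _ _
      have h2 := SCA_LI_top _ h1
      rw [← hb, (hLIS k B).2] at h2
      obtain ⟨w', hw'⟩ := h2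
      have h3 : z - σ (d z) - em k w' ∈ Rel k (cz s b) := by
        change d (z - σ (d z) - em k w') = 0
        rw [map_sub, map_sub, hA]
        have h4 : d (em k w') = res k B (ρ (d z)) := by
          rw [← hw']
          exact SCA_bd_em s b w'
        rw [h4]
        abel
      have h5 : d ((el k u - 1) • z) = el k u * d z - d z := by
        rw [map_smul, smul_eq_mul, sub_mul, one_mul]
      refine ⟨(el k (⟨u, hu⟩ : B) - 1) • w', ?_, ?_⟩
      · rw [map_smul, hw', h5, map_sub, hC u hu, smul_eq_mul, sub_mul, one_mul]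
      · refine AddSubgroup.subset_closure ⟨u, hu, _, h3, ?_⟩
        have h6 : res k B (el k (⟨u, hu⟩ : B)) = el k u := SCA_res_single _ 1
        rw [h5, map_sub, hD u hu, SCA_em_smul, map_sub, map_one, h6]
        simp only [sub_smul, one_smul, smul_sub]
    | zero =>
      refine ⟨0, ?_, ?_⟩
      · rw [map_zero, map_zero, map_zero]
      · rw [map_zero, map_zero, SCA_em_zero, sub_zero, sub_zero]
        exact AddSubgroup.zero_mem _
    | add p q _ _ hp hq =>
      obtain ⟨w, h1, h2⟩ := hp
      obtain ⟨w', h1', h2'⟩ := hq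
      refine ⟨w + w', ?_, ?_⟩
      · rw [map_add, h1, h1', map_add, map_add]
      · have h3 := AddSubgroup.add_mem _ h2 h2'
        rw [map_add, map_add, SCA_em_add]
        have h4 : p + q - (σ (d p) + σ (d q)) - (em k w + em k w') =
            p - σ (d p) - em k w + (q - σ (d q) - em k w') := by abel
        rw [h4]
        exact h3
    | neg p _ hp =>
      obtain ⟨w, h1, h2⟩ := hp
      refine ⟨-w, ?_, ?_⟩
      · rw [map_neg, h1, map_neg, map_neg]
      · have h3 := AddSubgroup.neg_mem _ h2
        rw [map_neg, map_neg, SCA_em_neg]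
        have h4 : -p - -σ (d p) - -em k w = -(p - σ (d p) - em k w) := by abel
        rw [h4]
        exact h3
  obtain ⟨w, h1, h2⟩ := key
  have h3 : d y = 0 := hy
  rw [h3, map_zero] at h1 h2
  rw [sub_zero] at h2
  exact ⟨w, h1, h2⟩

end Pool.Agent.PDB
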