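import Pool.Agent.PDB.St2

/-!
# PDB, SCB
-/

set_option autoImplicit false

namespace Pool.Agent.PDB

open Pool.Agent.PDA Subgroup

section SCB

variable {k : Type} {H : Type} [Group H] {M : Type} [AddCommGroup M]

theorem SCB_scal [CommRing k] [Module (MonoidAlgebra k H) M] (B : Subgroup H)
    (N : Submodule (MonoidAlgebra k H) M) (c : k) (y : M) (hy : y ∈ IM B N) :
    algebraMap k (MonoidAlgebra k H) c • y ∈ IM B N := by
  unfold IM at hy ⊢
  induction hy using AddSubgroup.closure_induction with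
  | mem t h =>
    obtain ⟨u, hu, y, hy, rfl⟩ := h
    refine AddSubgroup.subset_closure ⟨u, hu, algebraMap k (MonoidAlgebra k H) c • y,
      Submodule.smul_mem _ _ hy, ?_⟩
    rw [← mul_smul, ← mul_smul, Algebra.commutes]
  | zero =>
    rw [smul_zero]
    exact AddSubgroup.zero_mem _
  | add a b _ _ ha hb =>
    rw [smul_add]
    exact AddSubgroup.add_mem _ ha hb
  | neg a _ ha =>
    rw [smul_neg]
    exact AddSubgroup.neg_mem _ ha

theorem SCB_smul [CommRing k] [Module (MonoidAlgebra k H) M] (B : Subgroup H)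
    (N : Submodule (MonoidAlgebra k H) M) (hB : ∀ g : H, ∀ y ∈ IM B N, el k g • y ∈ IM B N)
    (r : MonoidAlgebra k H) : ∀ y ∈ IM B N, r • y ∈ IM B N := by
  induction r using MonoidAlgebra.induction_on with
  | of g =>
    intro y hy
    exact hB g y hy
  | add a b ha hb =>
    intro y hy
    rw [add_smul]
    exact AddSubgroup.add_mem _ (ha y hy) (hb y hy)
  | smul c a ha =>
    intro y hy
    rw [Algebra.smul_def, mul_smul]
    exact SCB_scal B N c _ (ha y hy)

theorem SCB_LI [CommRing k] [Module (MonoidAlgebra k H) M] (B : Subgroup H)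
    (N : Submodule (MonoidAlgebra k H) M) (hB : ∀ g : H, ∀ y ∈ IM B N, el k g • y ∈ IM B N)
    (a : MonoidAlgebra k H) (ha : a ∈ LI k B) (q : M) (hq : q ∈ N) : a • q ∈ IM B N := by
  unfold LI at ha
  induction ha using Submodule.span_induction with
  | mem z h =>
    obtain ⟨u, hu, rfl⟩ := h
    exact AddSubgroup.subset_closure ⟨u, hu, q, hq, rfl⟩
  | zero =>
    rw [zero_smul]
    exact AddSubgroup.zero_mem _
  | add a b _ _ ha hb =>
    rw [add_smul]
    exact AddSubgroup.add_mem _ ha hb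
  | smul r a _ ha =>
    rw [smul_eq_mul, mul_smul]
    exact SCB_smul B N hB r _ ha

theorem SCB_poly [Field k] (π : H →* Multiplicative ℤ) (s : H)
    (hs : π s = Multiplicative.ofAdd 1) (f : Polynomial k)
    (h0 : MonoidAlgebra.mapDomainRingHom k π (Polynomial.aeval (el k s) f) = 0) : f = 0 := by
  have h1 : MonoidAlgebra.mapDomainRingHom k π (Polynomial.aeval (el k s) f) =
      ∑ i ∈ Finset.range (f.natDegree + 1),
        MonoidAlgebra.single (Multiplicative.ofAdd (i : ℤ)) (f.coeff i) := by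
    rw [Polynomial.aeval_eq_sum_range, map_sum]
    refine Finset.sum_congr rfl fun i _ => ?_
    have h2 : f.coeff i • el k s ^ i = MonoidAlgebra.single (s ^ i) (f.coeff i) := by
      rw [← map_pow]
      change f.coeff i • MonoidAlgebra.single (s ^ i) (1 : k) = _
      rw [MonoidAlgebra.smul_single', mul_one]
    rw [h2, MonoidAlgebra.mapDomainRingHom_apply, MonoidAlgebra.mapDomain_single, map_pow, hs]
    have h3 : (Multiplicative.ofAdd (1 : ℤ)) ^ i = Multiplicative.ofAdd (i : ℤ) := by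
      rw [← ofAdd_nsmul, nsmul_eq_mul, mul_one]
    rw [h3]
  rw [h0] at h1
  ext n
  rw [Polynomial.coeff_zero]
  by_cases hn : n ∈ Finset.range (f.natDegree + 1)
  · have h2 := congrArg (fun z : MonoidAlgebra k (Multiplicative ℤ) =>
      z.coeff (Multiplicative.ofAdd (n : ℤ))) h1
    beta_reduce at h2
    rw [MonoidAlgebra.coeff_sum, Finsupp.finsetSum_apply, Finset.sum_eq_single n] at h2
    · rw [MonoidAlgebra.coeff_single, Finsupp.single_eq_same] at h2
      exact h2.symm
    · intro i _ hi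
      rw [MonoidAlgebra.coeff_single, Finsupp.single_apply, if_neg]
      intro h3
      apply hi
      have h4 : (i : ℤ) = (n : ℤ) := Multiplicative.ofAdd.injective h3
      exact_mod_cast h4
    · intro h3
      exact absurd hn h3
  · rw [Finset.mem_range, not_lt] at hn
    exact Polynomial.coeff_eq_zero_of_natDegree_lt (by omega)

end SCB

theorem thm_SCB (hLIK : St_LIK) (hIMS : St_IMS) : St_SCB := by
  intro k _ H _ π s M _ _ N hN hs f hf y hyN hy
  obtain ⟨φ, hφ⟩ := hN.out
  obtain ⟨l1, l2, l3⟩ := hLIK k H π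
  have hB : ∀ g : H, ∀ y ∈ IM π.ker N, el k g • y ∈ IM π.ker N := by
    intro g y hy
    refine (hIMS k H M π.ker N).2.2 g π.ker ?_ y hy
    intro u hu
    rw [MonoidHom.mem_ker] at hu ⊢
    rw [map_mul, map_mul, hu, mul_one, ← map_mul, mul_inv_cancel, map_one]
  have hA : ∀ z ∈ IM π.ker N, ∃ hz : z ∈ N, ∀ q, φ ⟨z, hz⟩ q ∈ LI k π.ker := by
    intro z hz
    unfold IM at hz
    induction hz using AddSubgroup.closure_induction with
    | mem t h =>
      obtain ⟨u, hu, w, hw, rfl⟩ := h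
      refine ⟨Submodule.smul_mem _ _ hw, fun q => ?_⟩
      have h1 : (⟨(el k u - 1) • w, Submodule.smul_mem _ _ hw⟩ : N) = (el k u - 1) • ⟨w, hw⟩ := rfl
      rw [h1, map_smul, Finsupp.smul_apply, smul_eq_mul]
      exact l2 _ _ (Submodule.subset_span ⟨u, hu, rfl⟩)
    | zero =>
      refine ⟨Submodule.zero_mem _, fun q => ?_⟩
      have h1 : (⟨0, Submodule.zero_mem _⟩ : N) = 0 := rfl
      rw [h1, map_zero, Finsupp.coe_zero, Pi.zero_apply]
      exact Submodule.zero_mem _
    | add a b _ _ ha hb =>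
      obtain ⟨ha, ha'⟩ := ha
      obtain ⟨hb, hb'⟩ := hb
      refine ⟨Submodule.add_mem _ ha hb, fun q => ?_⟩
      have h1 : (⟨a + b, Submodule.add_mem _ ha hb⟩ : N) = ⟨a, ha⟩ + ⟨b, hb⟩ := rfl
      rw [h1, map_add, Finsupp.add_apply]
      exact Submodule.add_mem _ (ha' q) (hb' q)
    | neg a _ ha =>
      obtain ⟨ha, ha'⟩ := ha
      refine ⟨Submodule.neg_mem _ ha, fun q => ?_⟩
      have h1 : (⟨-a, Submodule.neg_mem _ ha⟩ : N) = -⟨a, ha⟩ := rfl
      rw [h1, map_neg, Finsupp.neg_apply]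
      exact Submodule.neg_mem _ (ha' q)
  obtain ⟨hz, hz'⟩ := hA _ hy
  have h1 : ∀ q, φ ⟨y, hyN⟩ q ∈ LI k π.ker := by
    intro q
    have h2 := hz' q
    have h3 : (⟨Polynomial.aeval (el k s) f • y, hz⟩ : N) =
        Polynomial.aeval (el k s) f • ⟨y, hyN⟩ := rfl
    rw [h3, map_smul, Finsupp.smul_apply, smul_eq_mul] at h2
    rcases l3 _ _ h2 with h4 | h4
    · exact absurd (SCB_poly π s hs f ((l1 _).1 h4)) hf
    · exact h4
  have h5 := hφ ⟨y, hyN⟩
  rw [Finsupp.linearCombination_apply, Finsupp.sum] at h5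
  have h6 := congrArg (fun z : N => (z : M)) h5
  beta_reduce at h6
  rw [Submodule.coe_sum] at h6
  have h7 : y = ∑ q ∈ (φ ⟨y, hyN⟩).support, φ ⟨y, hyN⟩ q • (q : M) := h6.symm
  rw [h7]
  exact AddSubgroup.sum_mem _ fun q _ => SCB_LI π.ker N hB _ (h1 q) q q.2

end Pool.Agent.PDB
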