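import Pool.Agent.PDB.St2

/-!
# PDB, SCC
-/

set_option autoImplicit false

namespace Pool.Agent.PDB

open Pool.Agent.PDA Subgroup

section SCC

variable {k : Type} [CommRing k] {H : Type} [Group H] {B : Subgroup H} {n : ℕ}

theorem SCC_em_add (w w' : Fin n → MonoidAlgebra k B) : em k (w + w') = em k w + em k w' := by
  funext i
  refine Fin.cases ?_ (fun j => ?_) i
  · change (0 : MonoidAlgebra k H) = 0 + 0
    rw [add_zero]
  · change res k B (w j + w' j) = res k B (w j) + res k B (w' j)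
    rw [map_add]

theorem SCC_em_zero : em k (0 : Fin n → MonoidAlgebra k B) = 0 := by
  funext i
  refine Fin.cases ?_ (fun j => ?_) i
  · rfl
  · change res k B 0 = 0
    rw [map_zero]

theorem SCC_em_smul (a : MonoidAlgebra k B) (w : Fin n → MonoidAlgebra k B) :
    em k (a • w) = res k B a • em k w := by
  funext i
  refine Fin.cases ?_ (fun j => ?_) i
  · change (0 : MonoidAlgebra k H) = res k B a * 0
    rw [mul_zero]
  · change res k B (a * w j) = res k B a * res k B (w j)
    rw [map_mul]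

theorem SCC_em_sum {ι : Type} (s : Finset ι) (w : ι → Fin n → MonoidAlgebra k B) :
    em k (∑ i ∈ s, w i) = ∑ i ∈ s, em k (w i) := by
  classical
  induction s using Finset.induction_on with
  | empty => rw [Finset.sum_empty, Finset.sum_empty, SCC_em_zero]
  | insert a s ha ih => rw [Finset.sum_insert ha, Finset.sum_insert ha, SCC_em_add, ih]

theorem SCC_res_single (u : B) (c : k) :
    res k B (MonoidAlgebra.single u c) = MonoidAlgebra.single (u : H) c := by
  change MonoidAlgebra.mapDomainRingHom k B.subtype (MonoidAlgebra.single u c) = _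
  rw [MonoidAlgebra.mapDomainRingHom_apply, MonoidAlgebra.mapDomain_single]
  rfl

theorem SCC_em_Rel (s : H) (b : Fin n → B) (w : Fin n → MonoidAlgebra k B) (hw : w ∈ Rel k b) :
    em k w ∈ Rel k (cz s b) := by
  have hw' : ∑ i, w i * (el k (b i) - 1) = 0 := hw
  change ∑ i, em k w i * (el k (cz s b i) - 1) = 0
  rw [Fin.sum_univ_succ]
  have h1 : em k w 0 = 0 := rfl
  rw [h1, zero_mul, zero_add]
  have h2 := congrArg (res k B) hw'
  rw [map_sum, map_zero] at h2
  rw [← h2]
  refine Finset.sum_congr rfl fun i _ => ?_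
  rw [map_mul, map_sub, map_one]
  have h3 : res k B (el k (b i)) = el k (b i : H) := SCC_res_single (b i) 1
  rw [h3]
  rfl

/-- closure of `IM` under the scalars of `k` -/
theorem SCC_scal {M : Type} [AddCommGroup M] [Module (MonoidAlgebra k H) M] (B : Subgroup H)
    (N : Submodule (MonoidAlgebra k H) M) (c : k) (y : M) (hy : y ∈ IM B N) :
    algebraMap k (MonoidAlgebra k H) c • y ∈ IM B N := by
  unfold IM at hy ⊢
  induction hy using AddSubgroup.closure_induction with
  | mem t h =>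
    obtain ⟨u, hu, y, hy, rfl⟩ := h
    refine AddSubgroup.subset_closure ⟨u, hu, algebraMap k (MonoidAlgebra k H) c • y,
      Submodule.smul_mem _ _ hy, ?_⟩
    rw [← mul_smul, ← mul_smul, Algebra.commutes]
  | zero =>
    rw [smul_zero]
    exact AddSubgroup.zero_mem _
  | add a b _ _ ha hb =>
    rw [smul_add]
    exact AddSubgroup.add_mem _ ha hb
  | neg a _ ha =>
    rw [smul_neg]
    exact AddSubgroup.neg_mem _ ha

theorem SCC_L1 (hIMS : St_IMS) (s : H) (b : Fin n → B) {r : ℕ} (y : Fin r → Rel k b)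
    (hy : Submodule.span (MonoidAlgebra k B) (Set.range y) = ⊤) (w : Fin n → MonoidAlgebra k B)
    (hw : w ∈ Rel k b) : ∃ c : Fin r → k,
      em k w - ∑ j, algebraMap k (MonoidAlgebra k H) (c j) • em k (y j : Fin n → MonoidAlgebra k B) ∈
        IM B (Rel k (cz s b)) := by
  have h1 : (⟨w, hw⟩ : Rel k b) ∈ Submodule.span (MonoidAlgebra k B) (Set.range y) := by
    rw [hy]
    exact Submodule.mem_top
  rw [Submodule.mem_span_range_iff_exists_fun] at h1
  obtain ⟨a, ha⟩ := h1
  have h2 := congrArg (fun z : Rel k b => (z : Fin n → MonoidAlgebra k B)) ha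
  beta_reduce at h2
  rw [Submodule.coe_sum] at h2
  have h3 : w = ∑ j, a j • (y j : Fin n → MonoidAlgebra k B) := h2.symm
  refine ⟨fun j => aug k B (a j), ?_⟩
  rw [h3, SCC_em_sum, ← Finset.sum_sub_distrib]
  refine AddSubgroup.sum_mem _ fun j _ => ?_
  rw [SCC_em_smul, ← sub_smul]
  have h4 : res k B (a j) - algebraMap k (MonoidAlgebra k H) (aug k B (a j)) =
      res k B (a j - algebraMap k (MonoidAlgebra k B) (aug k B (a j))) := by
    rw [map_sub]
    congr 1
    change MonoidAlgebra.single (1 : H) _ = res k B (MonoidAlgebra.single (1 : B) _)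
    rw [SCC_res_single]
    rfl
  rw [h4]
  refine (hIMS k H _ B (Rel k (cz s b))).1 _ ?_ _ (SCC_em_Rel s b _ (y j).2)
  rw [map_sub, AlgHom.commutes]
  exact sub_self _

end SCC

section SCC2

variable {k : Type} [Field k] {H : Type} [Group H] {B : Subgroup H} {n : ℕ}

theorem SCC_pow (s : H) (hB : ∀ u ∈ B, s * u * s⁻¹ ∈ B) (i : ℕ) :
    ∀ u ∈ B, s ^ i * u * (s ^ i)⁻¹ ∈ B := by
  induction i with
  | zero =>
    intro u hu
    rw [pow_zero, one_mul, inv_one, mul_one]
    exact hu
  | succ i ih =>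
    intro u hu
    have h1 := hB _ (ih u hu)
    rw [pow_succ', mul_inv_rev]
    have h2 : s * s ^ i * u * ((s ^ i)⁻¹ * s⁻¹) = s * (s ^ i * u * (s ^ i)⁻¹) * s⁻¹ := by group
    rw [h2]
    exact h1

theorem SCC_i (hIMS : St_IMS) (hSCA : St_SCA) (hSCB : St_SCB) (π : H →* Multiplicative ℤ) (s : H)
    (b : Fin n → B) (hs : π s = Multiplicative.ofAdd 1) (hBπ : B ≤ π.ker)
    (hb : closure (Set.range b) = ⊤) (hcz : closure (Set.range (cz s b)) = ⊤)
    (hB : ∀ u ∈ B, s * u * s⁻¹ ∈ B) (hP : Module.Projective (MonoidAlgebra k H) (Rel k (cz s b)))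
    (hfg : (⊤ : Submodule (MonoidAlgebra k B) (Rel k b)).FG)
    (y : Fin (n + 1) → MonoidAlgebra k H) (hy : y ∈ Rel k (cz s b))
    (hyI : y ∈ IM B (⊤ : Submodule (MonoidAlgebra k H) (Fin (n + 1) → MonoidAlgebra k H))) :
    y ∈ IM π.ker (Rel k (cz s b)) := by
  obtain ⟨r, g, hg⟩ := Submodule.fg_iff_exists_fin_generating_family.1 hfg
  have h1 : ∀ i : ℕ, ∃ c : Fin r → k, el k (s ^ i) • y -
      ∑ j, algebraMap k (MonoidAlgebra k H) (c j) • em k (g j : Fin n → MonoidAlgebra k B) ∈
        IM B (Rel k (cz s b)) := by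
    intro i
    have h2 : el k (s ^ i) • y ∈ Rel k (cz s b) := Submodule.smul_mem _ _ hy
    have h3 := (hIMS k H _ B (⊤ : Submodule (MonoidAlgebra k H)
      (Fin (n + 1) → MonoidAlgebra k H))).2.2 (s ^ i) B (SCC_pow s hB i) y hyI
    obtain ⟨w, hw, hw'⟩ := hSCA k H s B n b hb hcz _ h2 h3
    obtain ⟨c, hc⟩ := SCC_L1 hIMS s b g hg w hw
    refine ⟨c, ?_⟩
    have h4 := AddSubgroup.add_mem _ hw' hc
    rw [sub_add_sub_cancel] at h4
    exact h4
  choose c hc using h1
  let Φ : (Fin (r + 1) → k) →ₗ[k] (Fin r → k) :=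
    Fintype.linearCombination k (fun i : Fin (r + 1) => c i)
  have h5 : LinearMap.ker Φ ≠ ⊥ := by
    apply LinearMap.ker_ne_bot_of_finrank_lt
    rw [Module.finrank_fin_fun, Module.finrank_fin_fun]
    omega
  obtain ⟨f, hf, hf0⟩ := (Submodule.ne_bot_iff _).1 h5
  rw [LinearMap.mem_ker, Fintype.linearCombination_apply] at hf
  let F : Polynomial k := ∑ i : Fin (r + 1), Polynomial.monomial (i : ℕ) (f i)
  have hFc : ∀ i : Fin (r + 1), F.coeff i = f i := by
    intro i
    rw [Polynomial.finsetSum_coeff, Finset.sum_eq_single i]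
    · rw [Polynomial.coeff_monomial, if_pos rfl]
    · intro j _ hj
      rw [Polynomial.coeff_monomial, if_neg]
      intro h
      exact hj (Fin.ext h)
    · intro h
      exact absurd (Finset.mem_univ i) h
  have hF0 : F ≠ 0 := by
    intro h
    apply hf0
    funext i
    rw [← hFc i, h, Polynomial.coeff_zero]
    rfl
  refine hSCB k H π s _ (Rel k (cz s b)) hP hs F hF0 y hy ?_
  refine (hIMS k H _ B (Rel k (cz s b))).2.1 π.ker hBπ ?_
  have h6 : Polynomial.aeval (el k s) F • y =
      ∑ i : Fin (r + 1), algebraMap k (MonoidAlgebra k H) (f i) • (el k (s ^ (i : ℕ)) • y -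
        ∑ j, algebraMap k (MonoidAlgebra k H) (c i j) • em k (g j : Fin n → MonoidAlgebra k B)) := by
    have h7 : Polynomial.aeval (el k s) F • y =
        ∑ i : Fin (r + 1), algebraMap k (MonoidAlgebra k H) (f i) • el k (s ^ (i : ℕ)) • y := by
      rw [map_sum, Finset.sum_smul]
      refine Finset.sum_congr rfl fun i _ => ?_
      rw [Polynomial.aeval_monomial, mul_smul, ← map_pow]
    have h8 : ∑ i : Fin (r + 1), algebraMap k (MonoidAlgebra k H) (f i) •
        ∑ j, algebraMap k (MonoidAlgebra k H) (c i j) • em k (g j : Fin n → MonoidAlgebra k B) =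
        0 := by
      simp only [Finset.smul_sum, ← mul_smul, ← map_mul]
      rw [Finset.sum_comm]
      refine Finset.sum_eq_zero fun j _ => ?_
      rw [← Finset.sum_smul, ← map_sum]
      have h9 := congrFun hf j
      rw [Finset.sum_apply] at h9
      have h10 : ∑ i : Fin (r + 1), f i * c i j = 0 := h9
      rw [h10, map_zero, zero_smul]
    simp only [smul_sub, Finset.sum_sub_distrib]
    rw [h7, h8, sub_zero]
  rw [h6]
  exact AddSubgroup.sum_mem _ fun i _ => SCC_scal _ _ _ _ (hc i)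

end SCC2

theorem thm_SCC (hIMS : St_IMS) (hSCA : St_SCA) (hSCB : St_SCB) : St_SCC := by
  intro k _ H _ π s B n b hs hBπ hb hcz hB hex hP hfg y hy hyI
  have h1 : ∃ m : ℕ, ∀ m' : ℕ, m ≤ m' → el k (s ^ m') • y ∈
      IM B (⊤ : Submodule (MonoidAlgebra k H) (Fin (n + 1) → MonoidAlgebra k H)) := by
    clear hy
    unfold IM at hyI
    induction hyI using AddSubgroup.closure_induction with
    | mem t h =>
      obtain ⟨g, hg, z, -, rfl⟩ := h
      obtain ⟨m, hm⟩ := hex g hg
      refine ⟨m, fun m' hm' => ?_⟩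
      refine AddSubgroup.subset_closure ⟨s ^ m' * g * (s ^ m')⁻¹, ?_, el k (s ^ m') • z,
        Submodule.mem_top, ?_⟩
      · obtain ⟨i, rfl⟩ := Nat.exists_eq_add_of_le hm'
        have h2 := SCC_pow s hB i _ hm
        have h3 : s ^ (m + i) * g * (s ^ (m + i))⁻¹ =
            s ^ i * (s ^ m * g * (s ^ m)⁻¹) * (s ^ i)⁻¹ := by
          rw [add_comm m i, pow_add]
          group
        rw [h3]
        exact h2
      · rw [← mul_smul, ← mul_smul]
        congr 1
        rw [mul_sub, sub_mul, one_mul, mul_one, ← map_mul, ← map_mul]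
        congr 2
        group
    | zero =>
      refine ⟨0, fun m' _ => ?_⟩
      rw [smul_zero]
      exact AddSubgroup.zero_mem _
    | add a b _ _ ha hb =>
      obtain ⟨m1, h1⟩ := ha
      obtain ⟨m2, h2⟩ := hb
      refine ⟨max m1 m2, fun m' hm' => ?_⟩
      rw [smul_add]
      exact AddSubgroup.add_mem _ (h1 m' (le_trans (le_max_left _ _) hm'))
        (h2 m' (le_trans (le_max_right _ _) hm'))
    | neg a _ ha =>
      obtain ⟨m1, h1⟩ := ha
      refine ⟨m1, fun m' hm' => ?_⟩
      rw [smul_neg]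
      exact AddSubgroup.neg_mem _ (h1 m' hm')
  obtain ⟨m, hm⟩ := h1
  have h2 := SCC_i hIMS hSCA hSCB π s b hs hBπ hb hcz hB hP hfg (el k (s ^ m) • y)
    (Submodule.smul_mem _ _ hy) (hm m le_rfl)
  have h3 := (hIMS k H _ π.ker (Rel k (cz s b))).2.2 (s ^ m)⁻¹ π.ker (by
    intro u hu
    rw [MonoidHom.mem_ker] at hu ⊢
    rw [map_mul, map_mul, hu, mul_one, ← map_mul, mul_inv_cancel, map_one]) _ h2
  rw [← mul_smul, ← map_mul, inv_mul_cancel, map_one, one_smul] at h3
  exact h3

end Pool.Agent.PDB
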