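import Pool.Agent.PDB.St2

/-!
PDB [SCN] (helper81 for helper58): ascending structure of the kernel of a character.
-/

set_option autoImplicit false
set_option linter.unusedVariables false

namespace Pool.Agent.PDB

open Pool.Agent.PDA Subgroup

private theorem SCN_fin (G : Type) [Group G] (h : Group.FG G) :
    ∃ (n : ℕ) (x : Fin n → G), closure (Set.range x) = ⊤ := by
  obtain ⟨n, S, hn, hS⟩ := Group.fg_iff'.1 h
  refine ⟨n, fun i => (S.equivFinOfCardEq hn).symm i, ?_⟩
  rw [← hS]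
  congr 1
  ext y
  constructor
  · rintro ⟨i, rfl⟩
    exact ((S.equivFinOfCardEq hn).symm i).2
  · intro hy
    exact ⟨S.equivFinOfCardEq hn ⟨y, hy⟩, by simp⟩

private theorem SCN_core (hASC : St_ASC) {H : Type} [Group H] (π : H →* Multiplicative ℤ) (s : H)
    (B : Subgroup H) (hs : π s = Multiplicative.ofAdd 1) (hB : B ≤ π.ker) (hfg : B.FG)
    (hgen : closure (insert s (B : Set H)) = ⊤) (hc : ∀ u ∈ B, s * u * s⁻¹ ∈ B) :
    ∃ (n : ℕ) (b : Fin n → B), closure (Set.range b) = ⊤ ∧ closure (Set.range (cz s b)) = ⊤ ∧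
      ∀ g ∈ π.ker, ∃ m : ℕ, s ^ m * g * (s ^ m)⁻¹ ∈ B := by
  obtain ⟨n, b, hb⟩ := SCN_fin B ((Group.fg_iff_subgroup_fg B).2 hfg)
  refine ⟨n, b, hb, ?_, hASC H π s B hs hB hc hgen⟩
  have h1 : s ∈ closure (Set.range (cz s b)) := by
    apply Subgroup.subset_closure
    exact ⟨0, rfl⟩
  have h2 : B ≤ closure (Set.range (cz s b)) := by
    have h3 : (⊤ : Subgroup B) ≤ (closure (Set.range (cz s b))).comap B.subtype := by
      rw [← hb, closure_le]
      rintro _ ⟨i, rfl⟩
      change ((b i : B) : H) ∈ closure (Set.range (cz s b))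
      apply Subgroup.subset_closure
      exact ⟨i.succ, rfl⟩
    intro u hu
    exact h3 (mem_top (⟨u, hu⟩ : B))
  rw [eq_top_iff, ← hgen, closure_le]
  rintro y (rfl | hy)
  · exact h1
  · exact h2 hy

theorem thm_SCN (hCST : St_CST) (hBRI : St_BRI) (hASC : St_ASC) : St_SCN := by
  intro k _ H _ π hπ hH hF hRel
  obtain ⟨d, x, hx⟩ := SCN_fin H hH
  obtain ⟨t, ht⟩ := hπ (Multiplicative.ofAdd 1)
  obtain ⟨b, hb⟩ : ∃ b : Fin d → H, b = fun i => x i * t ^ (-Multiplicative.toAdd (π (x i))) :=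
    ⟨_, rfl⟩
  have hbi : ∀ i, π (b i) = 1 := by
    intro i
    rw [hb]
    change π (x i * t ^ (-Multiplicative.toAdd (π (x i)))) = 1
    rw [map_mul, map_zpow, ht, ← ofAdd_zsmul, smul_eq_mul, mul_one, ofAdd_neg, ofAdd_toAdd,
      mul_inv_cancel]
  have hgen : closure (Set.range (Fin.cons t b : Fin (d + 1) → H)) = ⊤ := by
    have h1 : t ∈ closure (Set.range (Fin.cons t b : Fin (d + 1) → H)) := by
      apply Subgroup.subset_closure
      exact ⟨0, rfl⟩
    rw [eq_top_iff, ← hx, closure_le]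
    rintro _ ⟨i, rfl⟩
    have h2 : b i ∈ closure (Set.range (Fin.cons t b : Fin (d + 1) → H)) := by
      apply Subgroup.subset_closure
      exact ⟨i.succ, rfl⟩
    have h3 : x i = b i * t ^ (Multiplicative.toAdd (π (x i))) := by
      rw [hb]
      change x i = x i * t ^ (-Multiplicative.toAdd (π (x i))) * t ^ (Multiplicative.toAdd (π (x i)))
      rw [mul_assoc, ← zpow_add, neg_add_cancel, zpow_zero, mul_one]
    change x i ∈ closure (Set.range (Fin.cons t b : Fin (d + 1) → H))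
    rw [h3]
    exact mul_mem h2 (zpow_mem h1 _)
  obtain ⟨A, B, hAB, hAt, hBfg, hbB, hBk, hl⟩ := hCST k H π t d b ht hbi hgen
    (hRel (d + 1) _ hgen)
  have hgB : closure (insert t (B : Set H)) = ⊤ := by
    rw [eq_top_iff, ← hgen, closure_le]
    rintro _ ⟨i, rfl⟩
    refine Fin.cases ?_ (fun j => ?_) i
    · exact Subgroup.subset_closure (Set.mem_insert _ _)
    · exact Subgroup.subset_closure (Set.mem_insert_of_mem _ (hbB j))
  rcases hBRI k H π t A B hF ht hBk hAB hAt hgB hl with h | h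
  · have hk : (π⁻¹ : H →* Multiplicative ℤ).ker = π.ker := by
      ext y
      rw [MonoidHom.mem_ker, MonoidHom.mem_ker, MonoidHom.inv_apply, inv_eq_one]
    have hs : (π⁻¹ : H →* Multiplicative ℤ) t⁻¹ = Multiplicative.ofAdd 1 := by
      rw [MonoidHom.inv_apply, map_inv, inv_inv, ht]
    have hg' : closure (insert t⁻¹ (B : Set H)) = ⊤ := by
      rw [eq_top_iff, ← hgB, closure_le]
      rintro y (rfl | hy)
      · have h1 : y⁻¹ ∈ closure (insert y⁻¹ (B : Set H)) := Subgroup.subset_closure (Set.mem_insert _ _)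
        have h2 := inv_mem h1
        rw [inv_inv] at h2
        exact h2
      · exact Subgroup.subset_closure (Set.mem_insert_of_mem _ hy)
    have hc : ∀ u ∈ B, t⁻¹ * u * (t⁻¹)⁻¹ ∈ B := by
      intro u hu
      rw [inv_inv]
      exact hAt u (h hu)
    obtain ⟨n, b', h1, h2, h3⟩ := SCN_core hASC π⁻¹ t⁻¹ B hs (hk ▸ hBk) hBfg hg' hc
    exact ⟨π⁻¹, t⁻¹, B, n, b', hk, hs, hk ▸ hBk, h1, h2, hc, h3⟩
  · have hc : ∀ u ∈ B, t * u * t⁻¹ ∈ B := fun u hu => hAB (h u hu)
    obtain ⟨n, b', h1, h2, h3⟩ := SCN_core hASC π t B ht hBk hBfg hgB hc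
    exact ⟨π, t, B, n, b', rfl, ht, hBk, h1, h2, hc, h3⟩

end Pool.Agent.PDB
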