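import Pool.Agent.PDB.St2

/-!
PDB stage 2, [TRE]: distance function and down edges (helper74 for helper58).
-/

set_option autoImplicit false
set_option linter.unusedVariables false

namespace Pool.Agent.PDB

open Pool.Agent.PDA Subgroup

theorem thm_TRE : St_TRE := by
  intro k _ E V o τ v0 H hconn
  classical
  let P : ℕ → V → Prop := fun n => Nat.rec (motive := fun _ => V → Prop) (fun v => v = v0)
    (fun _ Q v => ∃ u, Q u ∧ ∃ e, (o e = u ∧ τ e = v) ∨ (o e = v ∧ τ e = u)) n
  have hex : ∀ v, ∃ n, P n v := by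
    intro v
    induction hconn v with
    | refl => exact ⟨0, rfl⟩
    | tail _ h ih =>
      obtain ⟨n, hn⟩ := ih
      exact ⟨n + 1, _, hn, h⟩
  let δ : V → ℕ := fun v => Nat.find (hex v)
  have hδ : ∀ v, P (δ v) v := fun v => Nat.find_spec (hex v)
  have hδm : ∀ v n, P n v → δ v ≤ n := fun v n h => Nat.find_min' (hex v) h
  have hδ0 : δ v0 = 0 := Nat.le_zero.1 (hδm v0 0 rfl)
  have hdown : ∀ v, v ≠ v0 → ∃ e u, δ u + 1 = δ v ∧
      ((o e = v ∧ τ e = u) ∨ (o e = u ∧ τ e = v)) := by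
    intro v hv
    have h1 := hδ v
    cases hn : δ v with
    | zero =>
      rw [hn] at h1
      exact absurd h1 hv
    | succ n =>
      rw [hn] at h1
      obtain ⟨u, hu, e, he⟩ := h1
      refine ⟨e, u, ?_, he.symm⟩
      have h2 := hδm u n hu
      have h3 : δ v ≤ δ u + 1 := hδm v (δ u + 1) ⟨u, hδ u, e, he⟩
      omega
  choose p u hp1 hp2 using hdown
  let D : (E →₀ k) →ₗ[k] (V →₀ k) := Finsupp.lmapDomain k k τ - Finsupp.lmapDomain k k o
  have hD : ∀ z, D z = 0 → z = 0 := fun z hz => H z (sub_eq_zero.1 hz)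
  have hDs : ∀ e, D (Finsupp.single e 1) = Finsupp.single (τ e) 1 - Finsupp.single (o e) 1 := by
    intro e
    rw [LinearMap.sub_apply, Finsupp.lmapDomain_apply, Finsupp.lmapDomain_apply,
      Finsupp.mapDomain_single, Finsupp.mapDomain_single]
  have hch : ∀ n v, δ v = n → ∃ c : E →₀ k, D c = Finsupp.single v 1 - Finsupp.single v0 1 ∧
      ∀ e, (∀ w (h : w ≠ v0), e ≠ p w h) → c e = 0 := by
    intro n
    induction n with
    | zero =>
      intro v hv
      have h1 := hδ v
      rw [hv] at h1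
      have h2 : v = v0 := h1
      exact ⟨0, by rw [h2, sub_self, map_zero], fun _ _ => rfl⟩
    | succ n ih =>
      intro v hv
      have hv0 : v ≠ v0 := by
        rintro rfl
        omega
      have h1 := hp1 v hv0
      obtain ⟨c, hc, hc'⟩ := ih (u v hv0) (by omega)
      rcases hp2 v hv0 with ⟨h2, h3⟩ | ⟨h2, h3⟩
      · refine ⟨c - Finsupp.single (p v hv0) 1, ?_, fun e he => ?_⟩
        · rw [map_sub, hc, hDs, h2, h3]
          abel
        · rw [Finsupp.sub_apply, hc' e he, Finsupp.single_eq_of_ne (he v hv0), sub_zero]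
      · refine ⟨c + Finsupp.single (p v hv0) 1, ?_, fun e he => ?_⟩
        · rw [map_add, hc, hDs, h2, h3]
          abel
        · rw [Finsupp.add_apply, hc' e he, Finsupp.single_eq_of_ne (he v hv0), add_zero]
  have hall : ∀ e, ∃ w, ∃ h : w ≠ v0, e = p w h := by
    intro e
    by_contra hcon
    push Not at hcon
    obtain ⟨c₁, h1, h1'⟩ := hch _ (o e) rfl
    obtain ⟨c₂, h2, h2'⟩ := hch _ (τ e) rfl
    have h3 := hD (Finsupp.single e 1 + c₁ - c₂) (by
      rw [map_sub, map_add, h1, h2, hDs]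
      abel)
    have h4 := congrArg (fun z => z e) h3
    simp only [Finsupp.sub_apply, Finsupp.add_apply, Finsupp.single_eq_same, h1' e hcon,
      h2' e hcon, Finsupp.zero_apply, add_zero, sub_zero] at h4
    exact one_ne_zero h4
  have huniq : ∀ v e, ((o e = v ∧ δ (τ e) < δ v) ∨ (τ e = v ∧ δ (o e) < δ v)) →
      ∃ h : v ≠ v0, e = p v h := by
    intro v e he
    obtain ⟨w, hw, rfl⟩ := hall e
    have h1 := hp1 w hw
    have hvw : v = w := by
      rcases hp2 w hw with ⟨h2, h3⟩ | ⟨h2, h3⟩ <;> rw [h2, h3] at he <;>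
        rcases he with ⟨h4, h5⟩ | ⟨h4, h5⟩
      · exact h4.symm
      · subst h4
        omega
      · subst h4
        omega
      · exact h4.symm
    subst hvw
    exact ⟨hw, rfl⟩
  refine ⟨δ, fun e => ?_, fun v e e' he he' => ?_⟩
  · obtain ⟨w, hw, rfl⟩ := hall e
    have h1 := hp1 w hw
    rcases hp2 w hw with ⟨h2, h3⟩ | ⟨h2, h3⟩ <;> rw [h2, h3] <;> omega
  · obtain ⟨h, h1⟩ := huniq v e he
    obtain ⟨h', h1'⟩ := huniq v e' he'
    rw [h1, h1']

end Pool.Agent.PDB
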