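import Pool.Agent.PDA.Defs

/-!
PDB stage 2 (helper58; plan of helper49, `/team-store/PD3A_lean_plan_helper49.md`): amenable groups all of whose relation
modules are projective.  Statements with proofs in the docstrings.

`kH` is `MonoidAlgebra k H`; `el k g` is the element `g`; `LI k A` the left ideal spanned by the `a - 1`, `a ∈ A`;
`Rel k x` the kernel of `bd k x : z ↦ ∑ z i * (x i - 1)`; `IM B N` the additive group generated by the `(u - 1) • y`,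
`u ∈ B`, `y ∈ N`; `res k B : kB → kH` the inclusion; `Pw ε n` the powers of the augmentation ideal (`Pw ε 0 = ⊤`).
-/

set_option autoImplicit false
set_option linter.unusedVariables false

namespace Pool.Agent.PDB

open Pool.Agent.PDA Subgroup

section defs

/-- the family `s, b_1, …, b_n` of elements of `H` -/
def cz {H : Type} [Group H] (s : H) {B : Subgroup H} {n : ℕ} (b : Fin n → B) : Fin (n + 1) → H :=
  Fin.cons s (fun i => (b i : H))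

/-- the inclusion of `(kB)^n` into `(kH)^(n+1)` (first coordinate `0`) -/
noncomputable def em (k : Type) [CommRing k] {H : Type} [Group H] {B : Subgroup H} {n : ℕ}
    (w : Fin n → MonoidAlgebra k B) : Fin (n + 1) → MonoidAlgebra k H :=
  Fin.cons 0 (fun i => res k B (w i))

/-- the additive group generated by the `a • y`, `a ∈ Pw ε n`, `y ∈ N` -/
def PA {k Λ M : Type} [CommRing k] [Ring Λ] [Algebra k Λ] (ε : Λ →ₐ[k] k) [AddCommGroup M] [Module Λ M]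
    (n : ℕ) (N : Submodule Λ M) : AddSubgroup M :=
  AddSubgroup.closure {z | ∃ a ∈ Pw ε n, ∃ y ∈ N, z = a • y}

/-- the classes of groups to which stage 2 applies -/
structure Cls (p : ℕ) (C : ∀ (S : Type) [Group S], Prop) : Prop where
  sub : ∀ (S : Type) [Group S] (T : Subgroup S), C S → C T
  prj : ∀ (S : Type) [Group S], C S → RelProj S
  fol : ∀ (S : Type) [Group S], C S → Folner S
  sep : ∀ (S : Type) [Group S], C S → Sep (aug (ZMod p) S)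
  rnk : ∀ (S : Type) [Group S], C S → RankCond (ZMod p) S
  tor : ∀ (S : Type) [Group S], C S → TorFree S
  fin : ∀ (S : Type) [Group S], C S → Group.FG S → Nontrivial S → ∀ (d : ℕ) (x : Fin d → S),
    closure (Set.range x) = ⊤ → (⊤ : Submodule (MonoidAlgebra (ZMod p) S) (Rel (ZMod p) x)).FG
  ont : ∀ (S : Type) [Group S], C S → Group.FG S → Nontrivial S →
    ∃ π : S →* Multiplicative ℤ, Function.Surjective π
  bs : ∀ (S : Type) [Group S] (π : S →* Multiplicative ℤ) (s x : S) (m : ℤ), C S →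
    π s = Multiplicative.ofAdd 1 → (∀ g ∈ π.ker, ∃ n : ℕ, s ^ n * g * (s ^ n)⁻¹ ∈ zpowers x) → x ≠ 1 →
    s * x * s⁻¹ = x ^ m → m = 1 ∨ m = -1

end defs

/-! ### Left ideals -/

/-- [LIQ] PROOF.  `→`: `Submodule.span_induction`: the set of `l` with `mapDomain mk l.coeff = 0` contains `a * (el k u - 1)` (`a`
of the form `single g c`: `mk (g * u) = mk g`).  `←`: `l = ∑ l(g) el g` and `el g - el (rep g) = el (rep g) * (el ((rep g)⁻¹ g) - 1) ∈ LI k A` where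
`rep g = (mk g).out`; so `l - ∑ l(g) el (rep g) ∈ LI k A`, and `∑ l(g) el (rep g)` is the image of `mapDomain mk l.coeff = 0` under
`e ↦ el (e.out)` (linear extension). -/
def St_LIQ : Prop :=
  ∀ (k : Type) [CommRing k] (H : Type) [Group H] (A : Subgroup H) (l : MonoidAlgebra k H),
    l ∈ LI k A ↔ Finsupp.mapDomain (fun g : H => (QuotientGroup.mk g : H ⧸ A)) l.coeff = 0

/-- [LIS] PROOF.  1: `Subgroup.closure_induction`: `el (u v) - 1 = el u * (el v - 1) + (el u - 1)`, `el u⁻¹ - 1 = -el u⁻¹ * (el u - 1)`.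
2: by 1, `LI` is the range of `bd k b` (a left ideal containing the `el k (b i) - 1`, contained in the span). -/
def St_LIS : Prop :=
  ∀ (k : Type) [CommRing k] (H : Type) [Group H],
    (∀ X : Set H, LI k (closure X) = Ideal.span {z : MonoidAlgebra k H | ∃ x ∈ X, z = el k x - 1}) ∧
    ∀ (n : ℕ) (b : Fin n → H) (l : MonoidAlgebra k H),
      l ∈ LI k (closure (Set.range b)) ↔ ∃ z, bd k b z = l

/-- [LIK] PROOF.  1: `→` span induction.  `←`: choose for every `q` in the range of `π` a preimage `r q`;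
`el g - el (r (π g)) ∈ LI k π.ker`, and `∑ l(g) el (r (π g))` is the image of `mapDomain π l = 0` under the linear extension of
`q ↦ el (r q)`.  2: by 1, as `mapDomain π` is a ring homomorphism.  3: `MonoidAlgebra k (Multiplicative ℤ)` has no zero divisors
(instance for `UniqueProds`). -/
def St_LIK : Prop :=
  ∀ (k : Type) [Field k] (H : Type) [Group H] (π : H →* Multiplicative ℤ),
    (∀ l : MonoidAlgebra k H, l ∈ LI k π.ker ↔ MonoidAlgebra.mapDomainRingHom k π l = 0) ∧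
    (∀ l m : MonoidAlgebra k H, l ∈ LI k π.ker → l * m ∈ LI k π.ker) ∧
    (∀ l m : MonoidAlgebra k H, l * m ∈ LI k π.ker → l ∈ LI k π.ker ∨ m ∈ LI k π.ker)

/-- [KGN] PROOF.  `N` = the closure; `N ≤ π.ker`.  `T = {g | ∃ i : ℤ, t ^ i * g ∈ N}`... directly: the set `{g | ∃ i : ℤ, ∃ u ∈ N, g = t ^ i * u}` is
everything (`closure_induction_left`, or: it contains `t`, `X` and is closed under products and inverses, since `t ^ j N t ^ (-j) = N`).  If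
`g = t ^ i * u ∈ π.ker` then `i = 0`. -/
def St_KGN : Prop :=
  ∀ (H : Type) [Group H] (π : H →* Multiplicative ℤ) (t : H) (X : Set H), π t = Multiplicative.ofAdd 1 →
    (∀ x ∈ X, π x = 1) → closure (insert t X) = ⊤ →
    π.ker = closure {y | ∃ i : ℤ, ∃ x ∈ X, y = t ^ i * x * t ^ (-i)}

/-- [CST] (Bieri-Strebel).  PROOF.  `B n = closure {t^i b_j t^(-i) | -n ≤ i ≤ n}`, `A n = closure {t^i b_j t^(-i) | -n < i ≤ n}`;
`A n ≤ B n`, `t⁻¹ (A n) t ≤ B n`, `A n ≤ A (n+1)`, `B n ≤ π.ker`, `⋃ A n = π.ker` (KGN).  `C n = {l | l * (el t - 1) ∈ LI (B n)}`.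
(1) `C 0` is finitely generated: `l ∈ C 0` iff `l` is the coordinate `0` of an element of `Rel k (Fin.cons t b)` (LIS 2: `LI (B 0) = ` range of `bd k b`), so it
is the image of a finitely generated module.  (2) `C n ≤ LI π.ker`: LIK 3, as `el t - 1 ∉ LI π.ker`.  `LI π.ker = ⋃ LI (A m)` (LIS 1, KGN; directed), so `C 0 ≤ LI (A m)` for
some `m`.  (3) `C (n+1) ≤ C n + LI (A (n+1))`: `LI (B (n+1)) = LI (B n) + ∑ kH (el u - 1)`, `u = t b t⁻¹` with `b = t^n b_j t^(-n)` or `u = t⁻¹ b t` with `b = t^(-n) b_j t^n`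
(LIS 1).  `u = t b t⁻¹`: `u - 1 = (1 - u)(t - 1) + t (b - 1)`, `b ∈ B n`, `u ∈ A (n+1)`.  `u = t⁻¹ b t`: `u - 1 = t⁻¹ (b - 1)(t - 1) + t⁻¹ (b - 1)`, `b ∈ B n`, `b ∈ A (n+1)`.
So an element of `LI (B (n+1))` is `y + a (t - 1)` with `y ∈ LI (B n)`, `a ∈ LI (A (n+1))`.  (4) So `C n ≤ LI (A m)` for all `n ≤ m` (induction on `n`), take `A = A m`,
`B = B m`. -/
def St_CST : Prop :=
  ∀ (k : Type) [Field k] (H : Type) [Group H] (π : H →* Multiplicative ℤ) (t : H) (n : ℕ) (b : Fin n → H),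
    π t = Multiplicative.ofAdd 1 → (∀ i, π (b i) = 1) →
    closure (Set.range (Fin.cons t b : Fin (n + 1) → H)) = ⊤ →
    (⊤ : Submodule (MonoidAlgebra k H) (Rel k (Fin.cons t b : Fin (n + 1) → H))).FG →
    ∃ A B : Subgroup H, A ≤ B ∧ (∀ a ∈ A, t⁻¹ * a * t ∈ B) ∧ B.FG ∧ (∀ i, b i ∈ B) ∧ B ≤ π.ker ∧
      ∀ l : MonoidAlgebra k H, l * (el k t - 1) ∈ LI k B → l ∈ LI k A

/-! ### The graph -/

/-- [TRE] PROOF.  `δ v` = the least `n` such that there is a path of length `n` from `v0` to `v`.  For `v ≠ v0` choose an edge `p v` (down edge) whose ends are `v` and a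
vertex `v'` with `δ v' + 1 = δ v`.  Chains: for every `v` there is `c : E →₀ k` with `c.mapDomain τ - c.mapDomain o = single v 1 - single v0 1` and every `e ∈ c.support` is `p w` for some
`w ≠ v0` (induction on `δ v`: `c v = c v' ± single (p v) 1`).  Every edge `e` is `p w` for some `w`: otherwise `z = single e 1 + c (o e) - c (τ e)` has
`z.mapDomain τ = z.mapDomain o`, so `z = 0`, but `z e = 1`.  So the ends of `e` are `w` and a vertex `w'` with `δ w' + 1 = δ w`: `δ (o e) ≠ δ (τ e)`; if `e` is a down edge at `v` (its other end has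
smaller `δ`) then `v = w`, `e = p v`. -/
def St_TRE : Prop :=
  ∀ (k : Type) [Field k] (E V : Type) (o τ : E → V) (v0 : V),
    (∀ z : E →₀ k, z.mapDomain τ = z.mapDomain o → z = 0) →
    (∀ v, Relation.ReflTransGen (fun a b => ∃ e, (o e = a ∧ τ e = b) ∨ (o e = b ∧ τ e = a)) v0 v) →
    ∃ δ : V → ℕ, (∀ e, δ (o e) ≠ δ (τ e)) ∧
      ∀ v e e', ((o e = v ∧ δ (τ e) < δ v) ∨ (τ e = v ∧ δ (o e) < δ v)) →
        ((o e' = v ∧ δ (τ e') < δ v) ∨ (τ e' = v ∧ δ (o e') < δ v)) → e = e'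

/-- [FLX] PROOF.  `Folner` for `E = {y 0, …, y 3}` and `1/4`: the image is contained in `F ∪ ⋃_i (F y_i \ F)`, and `F y_i \ F` has as many elements as
`{g ∈ F | g y_i ∉ F}`. -/
def St_FLX : Prop :=
  ∀ (H : Type) [Group H] [DecidableEq H], Folner H → ∀ y : Fin 4 → H, ∃ F : Finset H, F.Nonempty ∧
    (Finset.image (fun q : H × Fin 4 => q.1 * y q.2) (F ×ˢ Finset.univ)).card ≤ 2 * F.card

/-- [BRI] (no free subgroup).  PROOF.  Suppose `x ∈ B`, `x ∉ A` and `c ∈ B`, `t c t⁻¹ ∉ A`.  `V = H ⧸ B`, `E = H ⧸ A`, `o (gA) = gB`, `τ (gA) = gtB` (well defined).  TRE applies: if `z : E →₀ k` with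
`z.mapDomain τ = z.mapDomain o`, put `l = ∑ z(e) el (e.out)`; `l * (el t - 1) ∈ LI B` (LIQ), so `l ∈ LI A`, so `z = mapDomain mk l.coeff = 0` (LIQ).  Connected: `closure (insert t B) = ⊤`
(`gB` is adjacent to `gtB` and `gt⁻¹B`; `g u B = g B`; `Subgroup.closure_induction_right` from `v0 = B`).  Get `δ`.  `y = ![t, x*t*c, t⁻¹, (x*t*c)⁻¹]`; `i* = i + 2`.  Edges `e g i` between `gB` and `g (y i) B`: `gA`, `gxA`,
`gt⁻¹A`, `g c⁻¹ t⁻¹ A`; they are different for different `i` (`x ∉ A`; `t c t⁻¹ ∉ A`; `π`).  `D g = {i | δ (g (y i) B) < δ (gB)}` has at most one element (TRE), and `i ∉ D g → i* ∈ D (g (y i))` (TRE: the ends of an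
edge have different `δ`; `y i* = (y i)⁻¹`).  So `(g, i) ↦ g (y i)` is injective on `{(g, i) | g ∈ F, i ∉ D g}` (if `g (y i) = g' (y i') = h` then `i*, i'* ∈ D h`, `i = i'`, `g = g'`), which has at least `3 |F|`
elements: contradiction to FLX. -/
def St_BRI : Prop :=
  ∀ (k : Type) [Field k] (H : Type) [Group H] (π : H →* Multiplicative ℤ) (t : H) (A B : Subgroup H),
    Folner H → π t = Multiplicative.ofAdd 1 → B ≤ π.ker → A ≤ B → (∀ a ∈ A, t⁻¹ * a * t ∈ B) →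
    closure (insert t (B : Set H)) = ⊤ →
    (∀ l : MonoidAlgebra k H, l * (el k t - 1) ∈ LI k B → l ∈ LI k A) →
    B ≤ A ∨ ∀ c ∈ B, t * c * t⁻¹ ∈ A

/-- [ASC] PROOF.  The set `{g | ∃ n m : ℕ, ∃ u ∈ B, g = (s ^ n)⁻¹ * u * s ^ m}` is everything: closed under left multiplication by `s⁻¹` (clear), by `s` (`n = 0`:
`s u s^m = (s u s⁻¹) s^(m+1)`), by `B` (`u' s^(-n) u s^m = s^(-n) (s^n u' s^(-n)) u s^m`): `Subgroup.closure_induction_left`.  `π g = 1` gives `n = m`. -/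
def St_ASC : Prop :=
  ∀ (H : Type) [Group H] (π : H →* Multiplicative ℤ) (s : H) (B : Subgroup H),
    π s = Multiplicative.ofAdd 1 → B ≤ π.ker → (∀ u ∈ B, s * u * s⁻¹ ∈ B) →
    closure (insert s (B : Set H)) = ⊤ → ∀ g ∈ π.ker, ∃ n : ℕ, s ^ n * g * (s ^ n)⁻¹ ∈ B

/-- [SCN] PROOF (from CST, BRI, ASC).  Let `x : Fin d → H` be generating, `π t = ofAdd 1`, `b i = x i * t ^ (-toAdd (π (x i)))`: `Fin.cons t b` is generating.  CST: `A`, `B`.
BRI: `B ≤ A` or `t B t⁻¹ ≤ A`.  Second case: `s = t`, `π' = π`; `s B s⁻¹ ≤ A ≤ B`.  First case: `s = t⁻¹`, `π' = π⁻¹`; `s B s⁻¹ = t⁻¹ B t ≤ t⁻¹ A t ≤ B`.  `B.FG`: `b' : Fin n → B` with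
`closure (range b') = ⊤`.  ASC. -/
def St_SCN : Prop :=
  ∀ (k : Type) [Field k] (H : Type) [Group H] (π : H →* Multiplicative ℤ), Function.Surjective π →
    Group.FG H → Folner H →
    (∀ (d : ℕ) (x : Fin d → H), closure (Set.range x) = ⊤ →
      (⊤ : Submodule (MonoidAlgebra k H) (Rel k x)).FG) →
    ∃ (π' : H →* Multiplicative ℤ) (s : H) (B : Subgroup H) (n : ℕ) (b : Fin n → B),
      π'.ker = π.ker ∧ π' s = Multiplicative.ofAdd 1 ∧ B ≤ π'.ker ∧ closure (Set.range b) = ⊤ ∧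
      closure (Set.range (cz s b)) = ⊤ ∧ (∀ u ∈ B, s * u * s⁻¹ ∈ B) ∧
      ∀ g ∈ π'.ker, ∃ m : ℕ, s ^ m * g * (s ^ m)⁻¹ ∈ B

/-! ### The relation module -/

/-- [IMS] PROOF.  1: `el g - 1`: the additive group `{a | res k B a • y ∈ IM B N for all y ∈ N}`: if `aug a = 0` then `a = ∑ a(u) (el u - 1)` (as `∑ a(u) = 0`), and
`(c (el u - 1)) • y = (el u - 1) • (c • y)`, `c • y = (algebraMap c) • y ∈ N`.  2: `AddSubgroup.closure_mono`.  3: `el g * (el u - 1) = (el (g u g⁻¹) - 1) * el g`. -/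
def St_IMS : Prop :=
  ∀ (k : Type) [CommRing k] (H : Type) [Group H] (M : Type) [AddCommGroup M]
    [Module (MonoidAlgebra k H) M] (B : Subgroup H) (N : Submodule (MonoidAlgebra k H) M),
    (∀ a : MonoidAlgebra k B, aug k B a = 0 → ∀ y ∈ N, res k B a • y ∈ IM B N) ∧
    (∀ B' : Subgroup H, B ≤ B' → IM B N ≤ IM B' N) ∧
    (∀ (g : H) (B' : Subgroup H), (∀ u ∈ B, g * u * g⁻¹ ∈ B') → ∀ y ∈ IM B N, el k g • y ∈ IM B' N)

/-- [SCA] PROOF.  `d = bd k (cz s b)`, `F = (kH)^(n+1)`.  For `g : H` let `r g` be the chosen representative of the right coset `B g` (`r (u g) = r g` for `u ∈ B`, `g (r g)⁻¹ ∈ B`; e.g. by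
`Quotient.out` of `QuotientGroup.rightRel B`).  `f g : F` with `d (f g) = el g - 1` (LIS 2, `closure (range (cz s b)) = ⊤`).  `ρ : kH → kB` linear with `ρ (el g) = el (g (r g)⁻¹)`, `σ : kH → F` linear with
`σ (el g) = el (g (r g)⁻¹) • f (r g)`.  For `u ∈ B`: `ρ (el u * a) = el u * ρ a`, `σ (el u * a) = el u • σ a`; `d (σ a) = a - res (ρ a)`; `aug (ρ a) = aug a`.  `y = ∑ (el u_j - 1) • z_j` (closure induction: the set of such `y` is an additive group).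
`aug (d z_j) = 0`, so `aug (ρ (d z_j)) = 0`, so `ρ (d z_j) = bd k b w_j` for some `w_j` (LIS 2 for the group `B`).  `d (em w) = res (bd k b w)`.  So `z_j - σ (d z_j) - em w_j ∈ Rel`.  `∑ (el u_j - 1) • σ (d z_j) = σ (d y) = 0`.
`w = ∑ (el u_j - 1) • w_j`: `bd k b w = ∑ (el u_j - 1) ρ (d z_j) = ρ (d y) = 0`, and `y - em w = ∑ (el u_j - 1) • (z_j - σ (d z_j) - em w_j) ∈ IM B Rel`. -/
def St_SCA : Prop :=
  ∀ (k : Type) [CommRing k] (H : Type) [Group H] (s : H) (B : Subgroup H) (n : ℕ) (b : Fin n → B),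
    closure (Set.range b) = ⊤ → closure (Set.range (cz s b)) = ⊤ → ∀ y ∈ Rel k (cz s b),
    y ∈ IM B (⊤ : Submodule (MonoidAlgebra k H) (Fin (n + 1) → MonoidAlgebra k H)) →
    ∃ w ∈ Rel k b, y - em k w ∈ IM B (Rel k (cz s b))

/-- [SCB] PROOF.  Projectivity of `N` (`Module.projective_def'`): a linear `φ : N → (N →₀ kH)` with `∑ (φ y q) • q = y`.  For each `q` the map `y ↦ φ y q` is linear, so maps `IM π.ker` into `LI k π.ker` (LIK 2: `(el u - 1) * a ∈ LI`).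
`φ (f(s) y) q = f(s) * φ y q ∈ LI`, `f(s) ∉ LI` (LIK 1: its image in `k[Multiplicative ℤ]` is `∑ f_i el (ofAdd i) ≠ 0`), so `φ y q ∈ LI` (LIK 3).  And `a • q ∈ IM π.ker N` for `a ∈ LI k π.ker`, `q ∈ N`: span induction with
`el g * (el u - 1) = (el (g u g⁻¹) - 1) * el g`.  (Work in `M`: for `y ∈ IM π.ker N` use `AddSubgroup.closure_induction` with membership of `N`.) -/
def St_SCB : Prop :=
  ∀ (k : Type) [Field k] (H : Type) [Group H] (π : H →* Multiplicative ℤ) (s : H) (M : Type) [AddCommGroup M]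
    [Module (MonoidAlgebra k H) M] (N : Submodule (MonoidAlgebra k H) M),
    Module.Projective (MonoidAlgebra k H) N → π s = Multiplicative.ofAdd 1 →
    ∀ f : Polynomial k, f ≠ 0 → ∀ y ∈ N, Polynomial.aeval (el k s) f • y ∈ IM π.ker N →
      y ∈ IM π.ker N

/-- [SCC] PROOF.  `P = Rel k (cz s b)`, `F` = everything.  Let `Rel k b` be generated by `y_1, …, y_r`: every `w ∈ Rel k b` is `∑ c_j y_j` (`c_j ∈ k`) plus an element `∑ a_j y_j` with `aug a_j = 0`, so `em w ∈ ∑ c_j • em y_j + IM B P`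
(IMS 1; `em (a w) = res a • em w`; `em w ∈ P`).  (i) `y ∈ P`, `y ∈ IM B ⊤` gives `y ∈ IM π.ker P`: for `i = 0..r` `el (s^i) • y` is in `P` and in `IM B ⊤` (IMS 3), so by SCA it is `∑_j c_ij • em y_j` modulo `IM B P`; `r + 1` vectors in `k^r` are dependent
(`exists_linearIndependent`/`Module.exists_nontrivial_relation...`): `f = ∑ f_i X^i ≠ 0` with `f(s) • y ∈ IM B P ≤ IM π.ker P` (scalars of `k` preserve `IM B P`).  SCB.  (ii) `y ∈ P`, `y ∈ IM π.ker ⊤`: there is `m` with `el (s^m) • y ∈ IM B ⊤` (closure induction over the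
statement `∃ m, ∀ m' ≥ m, el (s^m') • y ∈ IM B ⊤`; `el g * (el u - 1) = (el (g u g⁻¹) - 1) * el g`), so `el (s^m) • y ∈ IM π.ker P` by (i), and multiply by `el (s^m)⁻¹` (IMS 3). -/
def St_SCC : Prop :=
  ∀ (k : Type) [Field k] (H : Type) [Group H] (π : H →* Multiplicative ℤ) (s : H) (B : Subgroup H) (n : ℕ)
    (b : Fin n → B), π s = Multiplicative.ofAdd 1 → B ≤ π.ker → closure (Set.range b) = ⊤ →
    closure (Set.range (cz s b)) = ⊤ → (∀ u ∈ B, s * u * s⁻¹ ∈ B) →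
    (∀ g ∈ π.ker, ∃ m : ℕ, s ^ m * g * (s ^ m)⁻¹ ∈ B) →
    Module.Projective (MonoidAlgebra k H) (Rel k (cz s b)) →
    (⊤ : Submodule (MonoidAlgebra k B) (Rel k b)).FG →
    ∀ y ∈ Rel k (cz s b),
      y ∈ IM π.ker (⊤ : Submodule (MonoidAlgebra k H) (Fin (n + 1) → MonoidAlgebra k H)) →
      y ∈ IM π.ker (Rel k (cz s b))

/-! ### Leading forms -/

/-- [PWM] PROOF.  1: `Pw ε (n+1) = J ε * Pw ε n ≤ Pw ε n`: first `J` and all `Pw ε n` are two-sided ideals (`J`: kernel of `ε`; `Submodule.mul_induction_on`), and induction.  3, 4: `Pw ε (n+1) = (J ε)^(n+1)` for the `k`-submodules (`Pw ε 1 = J * ⊤ = J`), so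
`Pw ε m * Pw ε n ≤ Pw ε (m + n)` if `m, n ≥ 1`; `m = 0` or `n = 0`: two-sided ideals. -/
def St_PWM : Prop :=
  ∀ (k : Type) [CommRing k] (Λ : Type) [Ring Λ] [Algebra k Λ] (ε : Λ →ₐ[k] k),
    (∀ n, Pw ε (n + 1) ≤ Pw ε n) ∧
    (∀ (n : ℕ) (a b : Λ), a ∈ Pw ε n → a * b ∈ Pw ε n ∧ b * a ∈ Pw ε n) ∧
    (∀ a : Λ, a ∈ Pw ε 1 ↔ ε a = 0) ∧
    (∀ (m n : ℕ) (a b : Λ), a ∈ Pw ε m → b ∈ Pw ε n → a * b ∈ Pw ε (m + n))

/-- [COB] PROOF.  `I = ker ε`.  For a `k`-linear `θ : Λ → k` which vanishes on `Pw ε (n+1)`: `θ (a * y) = ε y * θ a` for `a ∈ Pw ε n` (`y - algebraMap (ε y) ∈ I`, PWM).  Induction on `n ≥ 1`; `n = 1` is the hypothesis (`PA ε 1 = IA ε`, PWM 3).  Step: `y ∈ P`,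
`y ∈ PA ε (n+1) ⊤ ≤ PA ε n ⊤`, so `y ∈ PA ε n P`, `y = ∑_{j < m} a_j • y_j` with `a_j ∈ Pw ε n`, `y_j ∈ P`.  Claim, by induction on `m`: such a sum in `PA ε (n+1) ⊤` is in `PA ε (n+1) P`.  If all `a_j ∈ Pw ε (n+1)`: clear.  Otherwise let `a_0 ∉ Pw ε (n+1)`, `θ` linear with `θ a_0 ≠ 0`, `θ = 0` on
`Pw ε (n+1)` (`Submodule.exists_le_ker_of_notMem`).  For every `i`: `θ (x i (∑ a_j • y_j)) = 0` (`x i (PA ε (n+1) ⊤) ≤ Pw ε (n+1)`), so `∑ θ(a_j) ε (x i y_j) = 0`: `Y = ∑ θ(a_j) • y_j ∈ P` has `ε (x i Y) = 0` for all `i`, so `Y ∈ IA ε ⊤`, `Y ∈ IA ε P`.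
`y_0 = (θ a_0)⁻¹ (Y - ∑_{j ≠ 0} θ(a_j) y_j)`, `∑ a_j y_j = ∑_{j ≠ 0} (a_j - (θ a_0)⁻¹ θ(a_j) a_0) y_j + (θ a_0)⁻¹ a_0 Y`, and `a_0 Y ∈ PA ε (n+1) P` (`Pw ε n * I ≤ Pw ε (n+1)`, PWM 4). -/
def St_COB : Prop :=
  ∀ (k : Type) [Field k] (Λ : Type) [Ring Λ] [Algebra k Λ] (ε : Λ →ₐ[k] k) (F : Type) [AddCommGroup F]
    [Module Λ F] (ι : Type) (x : ι → F →ₗ[Λ] Λ) (P : Submodule Λ F),
    (∀ f : F, (∀ i, ε (x i f) = 0) → f ∈ IA ε (⊤ : Submodule Λ F)) →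
    (∀ y ∈ P, y ∈ IA ε (⊤ : Submodule Λ F) → y ∈ IA ε P) →
    ∀ n, 1 ≤ n → ∀ y ∈ P, y ∈ PA ε n (⊤ : Submodule Λ F) → y ∈ PA ε n P

/-- [COC] PROOF.  Induction on `n`.  `n = 0`: clear.  `0 → 1`: `l₁ • f₁ + l₂ • f₂ = p ∈ P`; `ε(l₁) f₁ + ε(l₂) f₂ - p ∈ IA ε ⊤`, so `ε l₁ = ε l₂ = 0`.  `n → n + 1`, `n ≥ 1`: `l₁ • f₁ + l₂ • f₂ ∈ P` is in `PA ε n ⊤`, so in `PA ε n P` (COB): it is `∑ a_j • y_j`, `a_j ∈ Pw ε n`,
`y_j ∈ P`.  Suppose `l₁ ∉ Pw ε (n+1)` (same for `l₂`): `θ` linear, `θ = 0` on `Pw ε (n+1)`, `θ l₁ ≠ 0`.  As in COB for all `i`: `θ(l₁) ε(x i f₁) + θ(l₂) ε(x i f₂) = ∑ θ(a_j) ε(x i y_j)`, so `θ(l₁) f₁ + θ(l₂) f₂ - ∑ θ(a_j) y_j ∈ IA ε ⊤`: `θ l₁ = 0`. -/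
def St_COC : Prop :=
  ∀ (k : Type) [Field k] (Λ : Type) [Ring Λ] [Algebra k Λ] (ε : Λ →ₐ[k] k) (F : Type) [AddCommGroup F]
    [Module Λ F] (ι : Type) (x : ι → F →ₗ[Λ] Λ) (P : Submodule Λ F),
    (∀ f : F, (∀ i, ε (x i f) = 0) → f ∈ IA ε (⊤ : Submodule Λ F)) →
    (∀ y ∈ P, y ∈ IA ε (⊤ : Submodule Λ F) → y ∈ IA ε P) →
    ∀ (f₁ f₂ : F) (l₁ l₂ : Λ),
      (∀ c₁ c₂ : k, (∃ p ∈ P, algebraMap k Λ c₁ • f₁ + algebraMap k Λ c₂ • f₂ - p ∈
        IA ε (⊤ : Submodule Λ F)) → c₁ = 0 ∧ c₂ = 0) →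
      l₁ • f₁ + l₂ • f₂ ∈ P → ∀ n, l₁ ∈ Pw ε n ∧ l₂ ∈ Pw ε n

/-- [LFK] PROOF (from COC).  `K = π.ker`, `Λ = kK`, `ε = aug k K`, `F = (kH)^d` with `a • f = res k K a • f` (`Module.compHom`), `P` = `Rel k z` as a `Λ`-submodule.  Coordinates: `ι = Fin d × Multiplicative ℤ` (or `Fin d × ℤ`), `x (j, q) f = ∑_{g, π g = q} (f j)(g) el (g * s^(-q)) ∈ kK`
(a `Λ`-linear map `kH → kK`: the linear extension of `g ↦ el (g s^(-q))` if `π g = q`, `0` otherwise).  If all `ε (x (j, q) f) = 0`: `f j = ∑_q res (x (j, q) f) * el (s^q)`, so `f ∈ IA ε ⊤` (finite sum over `q`).  `IA ε N = IM K N` for the `kH`-submodules `N` (IMS 1; `⊇`: `aug (el u - 1) = 0`), so the hypothesis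
gives `P ∩ IA ε ⊤ ≤ IA ε P`.  `u₁, u₂` have augmentation `0`: `f_i : F` with `bd k z f_i = res u_i` (LIS 2).  `l₁ f₁ + l₂ f₂ ∈ P`.  Independence: let `c₁ f₁ + c₂ f₂ - p ∈ IA ε ⊤`, apply `bd k z`: `res (c₁ u₁ + c₂ u₂) = ∑ res a_j * v_j` with `aug a_j = 0`, `aug v_j = 0`, `v_j ∈ kH`.  Retraction
`τ : kH → kK`, `τ (el g) = el (g s^(-π g))`: `τ (res a * v) = a * τ v`, `τ (res a) = a`, `aug (τ v) = aug v`.  So `c₁ u₁ + c₂ u₂ = ∑ a_j τ(v_j) ∈ Pw ε 2`. -/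
def St_LFK : Prop :=
  ∀ (k : Type) [Field k] (H : Type) [Group H] (π : H →* Multiplicative ℤ) (s : H) (d : ℕ) (z : Fin d → H),
    π s = Multiplicative.ofAdd 1 → closure (Set.range z) = ⊤ →
    (∀ y ∈ Rel k z, y ∈ IM π.ker (⊤ : Submodule (MonoidAlgebra k H) (Fin d → MonoidAlgebra k H)) →
      y ∈ IM π.ker (Rel k z)) →
    ∀ u₁ u₂ l₁ l₂ : MonoidAlgebra k π.ker, aug k π.ker u₁ = 0 → aug k π.ker u₂ = 0 →
      (∀ c₁ c₂ : k, c₁ • u₁ + c₂ • u₂ ∈ Pw (aug k π.ker) 2 → c₁ = 0 ∧ c₂ = 0) →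
      l₁ * u₁ + l₂ * u₂ = 0 → ∀ n, l₁ ∈ Pw (aug k π.ker) n ∧ l₂ ∈ Pw (aug k π.ker) n

/-- [COM] PROOF.  There is `u` with `ε u = 0` and `Pw ε 1 ≤ k u + Pw ε 2` (if `Pw ε 1 ≤ Pw ε 2`: `u = 0`; otherwise any `u ∈ Pw ε 1`, `u ∉ Pw ε 2`: in a relation between `v` and `u` the coefficient of `v` is not `0`).  By induction on `n`: for `n ≥ 1` `Pw ε n ≤ k u^n + Pw ε (n+1)` (`Pw ε (n+1) = J * Pw ε n`,
`Submodule.mul_induction_on`, PWM).  So for all `n` and all `a` there is `q ∈ Algebra.adjoin k {u}` with `a - q ∈ Pw ε n` (`n = 1`: `q = algebraMap (ε a)`).  Elements of `Algebra.adjoin k {u}` commute.  So `a b - b a ∈ Pw ε n` for all `n` (PWM 2): `Sep`. -/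
def St_COM : Prop :=
  ∀ (k : Type) [Field k] (Λ : Type) [Ring Λ] [Algebra k Λ] (ε : Λ →ₐ[k] k), Sep ε →
    (∀ u₁ u₂ : Λ, ε u₁ = 0 → ε u₂ = 0 → ∃ c₁ c₂ : k, ¬ (c₁ = 0 ∧ c₂ = 0) ∧ c₁ • u₁ + c₂ • u₂ ∈ Pw ε 2) →
    ∀ a b : Λ, a * b = b * a

/-- [KCM] PROOF (from COM).  `Λ = kK`, `ε = aug k K`.  Let `ε u₁ = ε u₂ = 0`; if no relation `c₁ u₁ + c₂ u₂ ∈ Pw ε 2` exists, then by the hypothesis and `Sep` `l₁ u₁ + l₂ u₂ = 0` implies `l₁ = l₂ = 0`, so `(kK)^2 → (kK)^1`, `l ↦ l 0 * u₁ + l 1 * u₂` is an injective linear map: `2 ≤ 1` by `RankCond`.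
COM: `kK` is commutative; `MonoidAlgebra.of_injective`. -/
def St_KCM : Prop :=
  ∀ (k : Type) [Field k] (K : Type) [Group K], Sep (aug k K) → RankCond k K →
    (∀ u₁ u₂ l₁ l₂ : MonoidAlgebra k K, aug k K u₁ = 0 → aug k K u₂ = 0 →
      (∀ c₁ c₂ : k, c₁ • u₁ + c₂ • u₂ ∈ Pw (aug k K) 2 → c₁ = 0 ∧ c₂ = 0) →
      l₁ * u₁ + l₂ * u₂ = 0 → ∀ n, l₁ ∈ Pw (aug k K) n ∧ l₂ ∈ Pw (aug k K) n) →
    ∀ x y : K, x * y = y * x

/-! ### Abelian groups -/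

/-- [DEP] PROOF.  Let `A = Additive K` (a `ℤ`-module after making `K` a `CommGroup`), `D : ℚK → ℚ ⊗[ℤ] A` `ℚ`-linear with `D (el g) = 1 ⊗ g`.  `D (a * b) = ε(a) D b + ε(b) D a` (bilinear, check on `el g`, `el h`), so `D = 0` on `Pw 2 = J * (J * ⊤)`.  `u₁ = el x - 1`, `u₂ = el y - 1`, `(el y - 1) * u₁ + (1 - el x) * u₂ = 0`.  If there is
no relation `c₁ u₁ + c₂ u₂ ∈ Pw 2` with `(c₁, c₂) ≠ 0` then `el y - 1 ∈ Pw 2` by the hypothesis, a relation.  So there are `(c₁, c₂) ≠ 0` with `c₁ u₁ + c₂ u₂ ∈ Pw 2`, so `c₁ ⊗ x + c₂ ⊗ y = 0`; multiply by a common denominator: integers `c₁, c₂`, `1 ⊗ (c₁ x + c₂ y) = 0`.  So `x^c₁ y^c₂` has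
finite order (`ℚ ⊗ A` is the localization of `A` at the nonzero integers: `IsLocalizedModule`, `IsBaseChange`; or any other proof that `1 ⊗ a = 0` implies that `a` is torsion). -/
def St_DEP : Prop :=
  ∀ (K : Type) [Group K], (∀ x y : K, x * y = y * x) →
    (∀ u₁ u₂ l₁ l₂ : MonoidAlgebra ℚ K, aug ℚ K u₁ = 0 → aug ℚ K u₂ = 0 →
      (∀ c₁ c₂ : ℚ, c₁ • u₁ + c₂ • u₂ ∈ Pw (aug ℚ K) 2 → c₁ = 0 ∧ c₂ = 0) →
      l₁ * u₁ + l₂ * u₂ = 0 → ∀ n, l₁ ∈ Pw (aug ℚ K) n ∧ l₂ ∈ Pw (aug ℚ K) n) →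
    ∀ x y : K, ∃ c₁ c₂ : ℤ, ¬ (c₁ = 0 ∧ c₂ = 0) ∧ ∃ m : ℕ, 0 < m ∧ (x ^ c₁ * y ^ c₂) ^ m = 1

/-- [CYC] PROOF.  `Additive B` is a finitely generated torsion-free, so free `ℤ`-module; two elements of a basis would be independent, so the basis has at most one element. -/
def St_CYC : Prop :=
  ∀ (B : Type) [Group B], Group.FG B → (∀ x y : B, x * y = y * x) → TorFree B →
    (∀ x y : B, ∃ c₁ c₂ : ℤ, ¬ (c₁ = 0 ∧ c₂ = 0) ∧ x ^ c₁ * y ^ c₂ = 1) →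
    ∃ x : B, ∀ y : B, y ∈ zpowers x

/-- [NOE] PROOF.  Make `B` a `CommGroup`; `MonoidAlgebra.finiteType_of_fg` (an algebra of finite type), `Algebra.FiniteType.isNoetherianRing`; submodules of a finite free module over a noetherian ring are finitely generated. -/
def St_NOE : Prop :=
  ∀ (k : Type) [Field k] (B : Type) [Group B], Group.FG B → (∀ x y : B, x * y = y * x) →
    ∀ (n : ℕ) (N : Submodule (MonoidAlgebra k B) (Fin n → MonoidAlgebra k B)), N.FG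

/-- [PZF] PROOF.  `K = π.ker = zpowers x`.  If `x = 1`: `n = 1`, `P 0 = ⊥`, `P 1 = ⊤`, `f = π` on `⊤`.  Otherwise `n = 2`, `P 0 = ⊥`, `P 1 = K`, `P 2 = ⊤` (`P i = ⊤` for `i ≥ 2`); `K ≃* Multiplicative ℤ` as `x` has infinite order. -/
def St_PZF : Prop :=
  ∀ (H : Type) [Group H] (π : H →* Multiplicative ℤ) (x : H), Function.Surjective π → TorFree H →
    π.ker = zpowers x → PolyZ (⊤ : Subgroup H)

/-- [PZV] PROOF.  1: map the chain of `K` to `H` by `K.subtype`.  2: `K = ⊥`... `n = 0`. -/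
def St_PZV : Prop :=
  (∀ (H : Type) [Group H] (K : Subgroup H), K.index ≠ 0 → PolyZ (⊤ : Subgroup K) → VPolyZ H) ∧
  ∀ (H : Type) [Group H], Subsingleton H → PolyZ (⊤ : Subgroup H)

/-- [FIN] PROOF (from SCN, SCC, LFK, KCM, NOE, DEP, CYC, PZF, PZV).  `S` trivial: PZV 2.  Otherwise `ont`: `π`; SCN with `k = ZMod p` (`fin`): `π'`, `s`, `B`, `b`; `K = π'.ker`.  If `B = ⊥` then `K = ⊥`: PZF with `x = 1`.  Let `B ≠ ⊥`; `C B` and `B` is finitely generated, so (`fin`) `Rel (ZMod p) b` is finitely generated;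
`prj`: SCC, so LFK for `z = cz s b`, `k = ZMod p`; `C K` (`sub`): KCM (`sep`, `rnk`): `K` is commutative.  Now `k = ℚ`: `Rel ℚ b` is finitely generated (NOE; a submodule of the free module is `FG` iff `⊤` of it is), `prj`: SCC, LFK, so DEP for `K`; with `tor` `x^c₁ y^c₂ = 1`; so CYC for `B` (relations in `B` hold in `K`):
`B = zpowers x`, `x ≠ 1`.  `s x s⁻¹ ∈ B`, so `= x^m`; `bs`: `m = ±1`; so `s⁻¹ x s = x^m` too, and `K = zpowers x` (`s^n g s^(-n) ∈ B = zpowers x` gives `g ∈ zpowers x`).  PZF. -/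
def St_FIN : Prop :=
  ∀ (p : ℕ) [Fact p.Prime] (C : ∀ (S : Type) [Group S], Prop), Cls p C →
    ∀ (S : Type) [Group S], C S → Group.FG S → PolyZ (⊤ : Subgroup S)

end Pool.Agent.PDB
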