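import Pool.Agent.PDB.COB

/-!
# PDB, [COC]
-/

set_option autoImplicit false

namespace Pool.Agent.PDB

open Pool.Agent.PDA

theorem thm_COC (hPWM : St_PWM) (hCOB : St_COB) : St_COC := by
  intro k _ Λ _ _ ε F _ _ ι x P h1 h2 f₁ f₂ l₁ l₂ hind hl
  obtain ⟨p1, p2, p3, p4⟩ := hPWM k Λ ε
  -- the first step
  have hone : l₁ ∈ Pw ε 1 ∧ l₂ ∈ Pw ε 1 := by
    rw [p3, p3]
    refine hind (ε l₁) (ε l₂) ⟨_, hl, ?_⟩
    have e : algebraMap k Λ (ε l₁) • f₁ + algebraMap k Λ (ε l₂) • f₂ - (l₁ • f₁ + l₂ • f₂) =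
        (algebraMap k Λ (ε l₁) - l₁) • f₁ + (algebraMap k Λ (ε l₂) - l₂) • f₂ := by
      rw [sub_smul, sub_smul]
      abel
    rw [e]
    have hz : ∀ l : Λ, ε (algebraMap k Λ (ε l) - l) = 0 := by
      intro l
      rw [map_sub, AlgHom.commutes]
      simp
    exact add_mem (AddSubgroup.subset_closure ⟨_, hz l₁, f₁, Submodule.mem_top, rfl⟩)
      (AddSubgroup.subset_closure ⟨_, hz l₂, f₂, Submodule.mem_top, rfl⟩)
  have hstep : ∀ n, 1 ≤ n → l₁ ∈ Pw ε n → l₂ ∈ Pw ε n → l₁ ∈ Pw ε (n + 1) ∧ l₂ ∈ Pw ε (n + 1) := by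
    intro n hn m1 m2
    have hP : l₁ • f₁ + l₂ • f₂ ∈ PA ε n P := by
      refine hCOB k Λ ε F ι x P h1 h2 n hn _ hl ?_
      exact add_mem (COB_smul_mem ε m1 Submodule.mem_top) (COB_smul_mem ε m2 Submodule.mem_top)
    obtain ⟨m, a, y, ha, hy, hs⟩ := COB_sum ε n P _ hP
    have key : ∀ θ : Λ →ₗ[k] k, Pw ε (n + 1) ≤ LinearMap.ker θ → θ l₁ = 0 ∧ θ l₂ = 0 := by
      intro θ hθ
      refine hind (θ l₁) (θ l₂) ⟨∑ j, algebraMap k Λ (θ (a j)) • y j,
        sum_mem fun j _ => P.smul_mem _ (hy j), h1 _ ?_⟩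
      intro i
      have e1 := congrArg (fun z => θ (x i z)) hs
      simp only [map_add, map_sum, LinearMap.map_smul, smul_eq_mul] at e1
      rw [COB_theta ε hPWM n θ hθ _ _ m1, COB_theta ε hPWM n θ hθ _ _ m2] at e1
      rw [map_sub, map_add, map_sum, (x i).map_smul, (x i).map_smul, map_sub, map_add, map_sum,
        smul_eq_mul, smul_eq_mul, map_mul, map_mul, AlgHom.commutes, AlgHom.commutes]
      have e2 : ∑ j, ε (x i (algebraMap k Λ (θ (a j)) • y j)) = ∑ j, θ (a j * x i (y j)) := by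
        refine Finset.sum_congr rfl fun j _ => ?_
        rw [(x i).map_smul, smul_eq_mul, map_mul, AlgHom.commutes,
          COB_theta ε hPWM n θ hθ _ _ (ha j)]
        rfl
      rw [e2, ← e1]
      exact sub_self _
    constructor
    · by_contra hc
      obtain ⟨θ, h0, hθ⟩ := Submodule.exists_le_ker_of_notMem hc
      exact h0 (key θ hθ).1
    · by_contra hc
      obtain ⟨θ, h0, hθ⟩ := Submodule.exists_le_ker_of_notMem hc
      exact h0 (key θ hθ).2
  intro n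
  cases n with
  | zero => exact ⟨Submodule.mem_top, Submodule.mem_top⟩
  | succ n =>
      induction n with
      | zero => exact hone
      | succ n ih => exact hstep (n + 1) (by omega) ih.1 ih.2

end Pool.Agent.PDB
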