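import Mathlib

/-!
PDB (helper58): group rings, relation modules, amenability; for the theorem on amenable subgroups of
Poincare duality groups of dimension three (MP_add920_al).  Left modules everywhere.
-/

set_option autoImplicit false
set_option linter.unusedVariables false

namespace Pool.Agent.PDB

open Pointwise

universe u v

section basic

variable (k : Type v) [CommRing k] (G : Type u) [Group G]

/-- the augmentation `k[G] → k` -/
noncomputable def aug : MonoidAlgebra k G →ₐ[k] k := MonoidAlgebra.lift k k G 1

variable {G}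

/-- the element `g` of `k[G]` -/
noncomputable abbrev el (g : G) : MonoidAlgebra k G := MonoidAlgebra.of k G g

/-- the map `k[G]^d → k[G]`, `e_i ↦ x_i - 1` (left modules) -/
noncomputable def bd {d : ℕ} (x : Fin d → G) :
    (Fin d → MonoidAlgebra k G) →ₗ[MonoidAlgebra k G] MonoidAlgebra k G where
  toFun z := ∑ i, z i * (el k (x i) - 1)
  map_add' z w := by simp [add_mul, Finset.sum_add_distrib]
  map_smul' a z := by simp [mul_assoc, Finset.mul_sum]

/-- the relation module of the family `x` over `k` -/
noncomputable def Rel {d : ℕ} (x : Fin d → G) :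
    Submodule (MonoidAlgebra k G) (Fin d → MonoidAlgebra k G) := LinearMap.ker (bd k x)

end basic

section groups

variable (G : Type u) [Group G]

/-- Folner condition (amenability), for right multiplication -/
def Folner : Prop :=
  ∀ (E : Finset G) (ε : ℝ), 0 < ε → ∃ F : Finset G, F.Nonempty ∧
    ∀ g ∈ E, ((F : Set G) \ {y | y * g ∈ F}).ncard ≤ ε * F.card

/-- residually a finite `p`-group -/
def ResP (p : ℕ) : Prop :=
  ∀ g : G, g ≠ 1 → ∃ N : Subgroup G, N.Normal ∧ (∃ n : ℕ, N.index = p ^ n) ∧ g ∉ N

/-- poly-(infinite cyclic) subgroups -/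
def PolyZ {G : Type u} [Group G] (K : Subgroup G) : Prop :=
  ∃ (n : ℕ) (P : ℕ → Subgroup G), P 0 = ⊥ ∧ P n = K ∧ ∀ i < n, P i ≤ P (i + 1) ∧
    ∃ f : P (i + 1) →* Multiplicative ℤ, Function.Surjective f ∧ f.ker = (P i).subgroupOf (P (i + 1))

/-- virtually poly-(infinite cyclic) -/
def VPolyZ : Prop := ∃ K : Subgroup G, K.index ≠ 0 ∧ PolyZ K

end groups

end Pool.Agent.PDB
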